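import Pool.Agent.Helper17.CBdef

/-! Families of balls. -/

namespace Pool.Agent.Helper17.CB

open Metric

open scoped RealInnerProductSpace

lemma inner_ball_le {u c x : E3} {ρ : ℝ} (hx : x ∈ closedBall c ρ) : ⟪u, x⟫ ≤ ⟪u, c⟫ + ρ * ‖u‖ := by
  have h1 : ⟪u, x⟫ = ⟪u, c⟫ + ⟪u, x - c⟫ := by rw [inner_sub_right]; ring
  have h2 : ⟪u, x - c⟫ ≤ ‖u‖ * ‖x - c‖ := real_inner_le_norm _ _
  have h3 : ‖x - c‖ ≤ ρ := by rwa [mem_closedBall, dist_eq_norm] at hx
  have h4 : ‖u‖ * ‖x - c‖ ≤ ‖u‖ * ρ := mul_le_mul_of_nonneg_left h3 (norm_nonneg _)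
  linarith

lemma inner_ball_ge {u c x : E3} {ρ : ℝ} (hx : x ∈ closedBall c ρ) : ⟪u, c⟫ - ρ * ‖u‖ ≤ ⟪u, x⟫ := by
  have h := inner_ball_le (u := -u) hx
  rw [inner_neg_left, inner_neg_left, norm_neg] at h
  linarith

lemma isBody_ball (c : E3) {ρ : ℝ} (hρ : 0 < ρ) : IsBody (closedBall c ρ) :=
  ⟨convex_closedBall c ρ, isCompact_closedBall c ρ,
    ⟨c, by rw [interior_closedBall c hρ.ne']; exact mem_ball_self hρ⟩⟩

lemma supp_ball {u c : E3} {ρ t : ℝ} (hρ : 0 < ρ) (hu : ‖u‖ = 1)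
    (h : IsSupporting u t (closedBall c ρ)) : |⟪u, c⟫ - t| = ρ := by
  obtain ⟨⟨x, hx, hxt⟩, h2⟩ := h
  have a1 := inner_ball_le (u := u) hx
  have a2 := inner_ball_ge (u := u) hx
  rw [hu, mul_one] at a1 a2
  have hpp : c + ρ • u ∈ closedBall c ρ := by
    rw [mem_closedBall, dist_eq_norm, add_sub_cancel_left, norm_smul, hu, mul_one,
      Real.norm_of_nonneg hρ.le]
  have hpm : c - ρ • u ∈ closedBall c ρ := by
    rw [mem_closedBall, dist_eq_norm, sub_sub_cancel_left, norm_neg, norm_smul, hu, mul_one,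
      Real.norm_of_nonneg hρ.le]
  have huu : ⟪u, u⟫ = 1 := by rw [real_inner_self_eq_norm_sq, hu]; norm_num
  rcases h2 with h2 | h2
  · have := h2 _ hpp
    rw [inner_add_right, inner_smul_right, huu] at this
    rw [abs_of_nonpos (by linarith)]
    linarith
  · have := h2 _ hpm
    rw [inner_sub_right, inner_smul_right, huu] at this
    rw [abs_of_nonneg (by linarith)]
    linarith

/-- rescaling a supporting plane to a unit normal -/
lemma supp_unit {u : E3} {t : ℝ} {K : Set E3} (hu : u ≠ 0) (h : IsSupporting u t K) :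
    IsSupporting (‖u‖⁻¹ • u) (‖u‖⁻¹ * t) K := by
  have hn : 0 < ‖u‖⁻¹ := inv_pos.mpr (norm_pos_iff.mpr hu)
  obtain ⟨⟨x, hx, hxt⟩, h2⟩ := h
  refine ⟨⟨x, hx, ?_⟩, ?_⟩
  · rw [inner_smul_left, hxt]; rfl
  · rcases h2 with h2 | h2
    · left; intro y hy
      rw [inner_smul_left]
      exact mul_le_mul_of_nonneg_left (h2 y hy) hn.le
    · right; intro y hy
      rw [inner_smul_left]
      exact mul_le_mul_of_nonneg_left (h2 y hy) hn.le

variable {ι : Type}

/-- exposed balls -/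
lemma exposed {c : ι → E3} {ρ : ι → ℝ} (hρ : ∀ i, 0 < ρ i) {s : Set ι} [Finite ι] {j : ι} (hj : j ∈ s)
    {u₀ : E3} (hu : ‖u₀‖ = 1) (h : ∀ i ∈ s, i ≠ j → ⟪u₀, c i⟫ + ρ i < ⟪u₀, c j⟫ + ρ j) :
    ∃ U : Set E3, IsOpen U ∧ (U ∩ frontier (closedBall (c j) (ρ j))).Nonempty ∧
      U ∩ frontier (closedBall (c j) (ρ j))
        ⊆ frontier (convexHull ℝ (⋃ i ∈ s, closedBall (c i) (ρ i))) := by
  -- directions in which `j` is strictly extreme
  set V : Set E3 := {u | ∀ i ∈ s, i ≠ j → ⟪u, c i⟫ + ρ i < ⟪u, c j⟫ + ρ j} with hV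
  have hVo : IsOpen V := by
    have : V = ⋂ i : ι, {u | i ∈ s → i ≠ j → ⟪u, c i⟫ + ρ i < ⟪u, c j⟫ + ρ j} := by
      ext u; simp [hV]
    rw [this]
    refine isOpen_iInter_of_finite fun i => ?_
    by_cases h1 : i ∈ s
    · by_cases h2 : i = j
      · have : {u : E3 | i ∈ s → i ≠ j → ⟪u, c i⟫ + ρ i < ⟪u, c j⟫ + ρ j} = Set.univ := by
          ext u; simp [h2]
        rw [this]; exact isOpen_univ
      · have : {u : E3 | i ∈ s → i ≠ j → ⟪u, c i⟫ + ρ i < ⟪u, c j⟫ + ρ j}
            = {u : E3 | ⟪u, c i⟫ + ρ i < ⟪u, c j⟫ + ρ j} := by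
          ext u; simp [h1, h2]
        rw [this]
        exact isOpen_lt (by fun_prop) (by fun_prop)
    · have : {u : E3 | i ∈ s → i ≠ j → ⟪u, c i⟫ + ρ i < ⟪u, c j⟫ + ρ j} = Set.univ := by
        ext u; simp [h1]
      rw [this]; exact isOpen_univ
  set g : E3 → E3 := fun x => (ρ j)⁻¹ • (x - c j) with hg
  have hgc : Continuous g := by rw [hg]; fun_prop
  have hρj := hρ j
  refine ⟨g ⁻¹' V, hVo.preimage hgc, ⟨c j + ρ j • u₀, ?_, ?_⟩, ?_⟩
  · change g (c j + ρ j • u₀) ∈ V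
    rw [hg]
    simp only [add_sub_cancel_left, smul_smul, inv_mul_cancel₀ hρj.ne', one_smul]
    exact h
  · rw [frontier_closedBall (c j) hρj.ne', mem_sphere, dist_eq_norm, add_sub_cancel_left, norm_smul,
      hu, mul_one, Real.norm_of_nonneg hρj.le]
  · rintro x ⟨hx1, hx2⟩
    rw [frontier_closedBall (c j) hρj.ne', mem_sphere, dist_eq_norm] at hx2
    set u := g x with hu'
    have hun : ‖u‖ = 1 := by
      rw [hu', hg]
      simp only
      rw [norm_smul, hx2, norm_inv, Real.norm_of_nonneg hρj.le, inv_mul_cancel₀ hρj.ne']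
    have hxe : x = c j + ρ j • u := by
      rw [hu', hg]
      simp only
      rw [smul_smul, mul_inv_cancel₀ hρj.ne', one_smul, add_sub_cancel]
    have huu : ⟪u, u⟫ = 1 := by rw [real_inner_self_eq_norm_sq, hun]; norm_num
    have hval : ⟪u, x⟫ = ⟪u, c j⟫ + ρ j := by
      rw [hxe, inner_add_right, inner_smul_right, huu, mul_one]
    have hxin : x ∈ convexHull ℝ (⋃ i ∈ s, closedBall (c i) (ρ i)) := by
      apply subset_convexHull
      refine Set.mem_iUnion₂.mpr ⟨j, hj, ?_⟩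
      rw [mem_closedBall, dist_eq_norm, hx2]
    have hub : ∀ y ∈ convexHull ℝ (⋃ i ∈ s, closedBall (c i) (ρ i)), ⟪u, y⟫ ≤ ⟪u, c j⟫ + ρ j := by
      intro y hy
      have hconv : Convex ℝ {y : E3 | ⟪u, y⟫ ≤ ⟪u, c j⟫ + ρ j} :=
        convex_halfSpace_le (f := fun y => ⟪u, y⟫) (IsLinearMap.mk (inner_add_right u)
          (fun c x => inner_smul_right u x c)) _
      refine convexHull_min ?_ hconv hy
      intro z hz
      obtain ⟨i, hi, hz⟩ := Set.mem_iUnion₂.mp hz
      have h1 := inner_ball_le (u := u) hz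
      rw [hun, mul_one] at h1
      by_cases hij : i = j
      · subst hij; exact h1
      · exact h1.trans (hx1 i hi hij).le
    refine ⟨subset_closure hxin, fun hint => ?_⟩
    rw [mem_interior_iff_mem_nhds, Metric.mem_nhds_iff] at hint
    obtain ⟨ε, hε, hball⟩ := hint
    have h1 : x + (ε / 2) • u ∈ ball x ε := by
      rw [mem_ball, dist_eq_norm, add_sub_cancel_left, norm_smul, hun, mul_one, Real.norm_of_nonneg (by positivity)]
      linarith
    have h2 := hub _ (hball h1)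
    rw [inner_add_right, inner_smul_right, huu, hval] at h2
    linarith

/-- a covered central ball is not exposed -/
lemma covered {J : Type} {p : J → E3} {r δ : ℝ} (hr : 0 < r) (hδ : 0 < δ)
    (h : ∀ u : E3, ‖u‖ = 1 → ∃ i, r ≤ ⟪u, p i⟫) {S : Set E3} (hS : ∀ i, closedBall (p i) δ ⊆ S) :
    closedBall (0 : E3) r ⊆ interior (convexHull ℝ S) := by
  set K : Set E3 := convexHull ℝ (⋃ i, ball (p i) δ) with hK
  have hKo : IsOpen K := (isOpen_iUnion fun i => isOpen_ball).convexHull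
  have hsub : ball (0 : E3) (r + δ) ⊆ K := by
    intro x hx
    by_contra hxK
    obtain ⟨f, hf⟩ := geometric_hahn_banach_open_point (convex_convexHull ℝ _) hKo hxK
    set w : E3 := (InnerProductSpace.toDual ℝ E3).symm f with hw
    have hfw : ∀ y, f y = ⟪w, y⟫ := fun y => by
      rw [hw, InnerProductSpace.toDual_symm_apply]
    obtain ⟨i0, -⟩ := h (EuclideanSpace.single 0 1) (by simp)
    have hw0 : w ≠ 0 := by
      intro h0
      have h1 := hf (p i0) (subset_convexHull ℝ _ (Set.mem_iUnion.mpr ⟨i0, mem_ball_self hδ⟩))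
      rw [hfw, hfw, h0, inner_zero_left, inner_zero_left] at h1
      exact lt_irrefl _ h1
    have hwn : 0 < ‖w‖ := norm_pos_iff.mpr hw0
    set u : E3 := ‖w‖⁻¹ • w with hu
    have hun : ‖u‖ = 1 := by
      rw [hu, norm_smul, norm_inv, norm_norm, inv_mul_cancel₀ hwn.ne']
    obtain ⟨i, hi⟩ := h u hun
    have huu : ⟪u, u⟫ = 1 := by rw [real_inner_self_eq_norm_sq, hun]; norm_num
    have hlt : ∀ y ∈ K, ⟪u, y⟫ < ⟪u, x⟫ := by
      intro y hy
      have := hf y hy
      rw [hfw, hfw] at this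
      rw [hu, inner_smul_left, inner_smul_left]
      exact mul_lt_mul_of_pos_left this (inv_pos.mpr hwn)
    have hxn : ⟪u, x⟫ ≤ ‖x‖ := by
      have := real_inner_le_norm u x
      rwa [hun, one_mul] at this
    rw [mem_ball_zero_iff] at hx
    -- choose a point of the ball close to the extreme one
    set τ : ℝ := max 0 (‖x‖ - r) with hτ
    have hτδ : τ < δ := by rw [hτ]; exact max_lt hδ (by linarith)
    have hτ0 : 0 ≤ τ := le_max_left _ _
    have hmem : p i + τ • u ∈ K := by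
      apply subset_convexHull
      refine Set.mem_iUnion.mpr ⟨i, ?_⟩
      rw [mem_ball, dist_eq_norm, add_sub_cancel_left, norm_smul, hun, mul_one, Real.norm_of_nonneg hτ0]
      exact hτδ
    have h1 := hlt _ hmem
    rw [inner_add_right, inner_smul_right, huu, mul_one] at h1
    have h2 : ‖x‖ - r ≤ τ := le_max_right _ _
    linarith
  have h1 : closedBall (0 : E3) r ⊆ ball 0 (r + δ) := closedBall_subset_ball (by linarith)
  have h2 : K ⊆ convexHull ℝ S := by
    apply convexHull_mono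
    intro y hy
    obtain ⟨i, hi⟩ := Set.mem_iUnion.mp hy
    exact hS i (ball_subset_closedBall hi)
  exact h1.trans (hsub.trans (interior_maximal h2 hKo))

end Pool.Agent.Helper17.CB
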