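import Pool.Agent.Helper17.CB1

/-! Assembling the family from a point configuration. -/

namespace Pool.Agent.Helper17.CB

open Metric

open scoped RealInnerProductSpace

lemma exists_pos_le {α : Type} [Finite α] (c : α → ℝ) (hc : ∀ a, 0 < c a) :
    ∃ δ : ℝ, 0 < δ ∧ ∀ a, δ ≤ c a := by
  have := Fintype.ofFinite α
  rcases isEmpty_or_nonempty α with h | h
  · exact ⟨1, one_pos, fun a => (IsEmpty.false a).elim⟩
  · obtain ⟨a0, -, ha0⟩ := Finset.exists_min_image Finset.univ c Finset.univ_nonempty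
    exact ⟨c a0, hc a0, fun a => ha0 a (Finset.mem_univ a)⟩

/-- point configurations -/
structure Config (J : Type) (p : J → E3) (r γ : ℝ) : Prop where
  hr : 0 < r
  hγ : 0 < γ
  A : ∀ i, ∃ u : E3, ‖u‖ = 1 ∧ (∀ j, j ≠ i → ⟪u, p j⟫ + γ ≤ ⟪u, p i⟫) ∧ r + γ ≤ ⟪u, p i⟫
  B : ∀ i, ∃ v : E3, ‖v‖ = 1 ∧ ∀ j, j ≠ i → ⟪v, p j⟫ + γ ≤ r
  S : ∀ i j, i ≠ j → ∃ w : E3, ‖w‖ = 1 ∧ r + γ ≤ ⟪w, p i⟫ ∧ r + γ ≤ ⟪w, p j⟫
  D : ∀ u : E3, ‖u‖ = 1 → ∃ i, r ≤ ⟪u, p i⟫
  GP : ∀ f : Fin 4 → J, Function.Injective f → ∀ (w : E3) (t : ℝ), (∀ a, ⟪w, p (f a)⟫ = t) → w = 0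
  T : ∀ f : Fin 3 → J, Function.Injective f → ∀ (u : E3) (t : ℝ), ‖u‖ = 1 → |t| = r →
    ¬ ∀ a, ⟪u, p (f a)⟫ = t

variable {J : Type}

def cc (p : J → E3) : Option J → E3
  | none => 0
  | some i => p i

def rad (r δ : ℝ) : Option J → ℝ
  | none => r
  | some _ => δ

noncomputable def Fam (p : J → E3) (r δ : ℝ) (i : Option J) : Set E3 := closedBall (cc p i) (rad r δ i)

lemma positive {p : J → E3} {r γ : ℝ} (h : Config J p r γ) (f : Fin 4 → Option J)
    (hf : Function.Injective f) (u : E3) (t : ℝ) (hu : ‖u‖ = 1) :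
    0 < ∑ a, |(|⟪u, cc p (f a)⟫ - t| - rad r 0 (f a))| := by
  by_contra hcon
  push Not at hcon
  have h0 : ∑ a, |(|⟪u, cc p (f a)⟫ - t| - rad r 0 (f a))| = 0 :=
    le_antisymm hcon (Finset.sum_nonneg fun _ _ => abs_nonneg _)
  rw [Finset.sum_eq_zero_iff_of_nonneg (fun _ _ => abs_nonneg _)] at h0
  have h1 : ∀ a, |⟪u, cc p (f a)⟫ - t| = rad r 0 (f a) := fun a => by
    have := h0 a (Finset.mem_univ a)
    rw [abs_eq_zero] at this
    linarith
  have hsome : ∀ a i, f a = some i → ⟪u, p i⟫ = t := by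
    intro a i hi
    have := h1 a
    rw [hi] at this
    change |⟪u, p i⟫ - t| = 0 at this
    rw [abs_eq_zero] at this
    linarith
  by_cases hn : ∃ a, f a = none
  · obtain ⟨a0, ha0⟩ := hn
    have ht : |t| = r := by
      have := h1 a0
      rw [ha0] at this
      change |⟪u, (0 : E3)⟫ - t| = r at this
      rwa [inner_zero_right, zero_sub, abs_neg] at this
    have hg : ∀ b : Fin 3, ∃ i, f (a0.succAbove b) = some i := by
      intro b
      cases hb : f (a0.succAbove b) with
      | none => exact absurd (hf (hb.trans ha0.symm)) (Fin.succAbove_ne a0 b)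
      | some i => exact ⟨i, rfl⟩
    choose g hg using hg
    refine h.T g ?_ u t hu ht fun b => hsome _ _ (hg b)
    intro b b' hbb
    have : f (a0.succAbove b) = f (a0.succAbove b') := by rw [hg, hg, hbb]
    exact Fin.succAbove_right_injective (hf this)
  · push Not at hn
    have hg : ∀ a, ∃ i, f a = some i := fun a => Option.ne_none_iff_exists'.mp (hn a)
    choose g hg using hg
    have hw := h.GP g (by
      intro b b' hbb
      apply hf
      rw [hg, hg, hbb]) u t fun a => hsome _ _ (hg a)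
    rw [hw, norm_zero] at hu
    exact zero_ne_one hu

theorem assemble [Finite J] {p : J → E3} {r γ : ℝ} (h : Config J p r γ) :
    ∃ δ : ℝ, 0 < δ ∧ δ < r ∧ (∀ i, IsBody (Fam p r δ i)) ∧ Separable (Fam p r δ) ∧
      Nondegenerate (Fam p r δ) ∧ (∀ s : Set (Option J), s ≠ Set.univ → ConvexPosition (Fam p r δ) s) ∧
      ¬ ConvexPosition (Fam p r δ) Set.univ := by
  have := Fintype.ofFinite J
  have hr := h.hr
  have hγ := h.hγ
  -- bound for the offsets
  set M : ℝ := ∑ i, ‖p i‖ + r + 1 with hM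
  have hMi : ∀ i, ‖p i‖ ≤ ∑ i, ‖p i‖ := fun i =>
    Finset.single_le_sum (f := fun i => ‖p i‖) (fun _ _ => norm_nonneg _) (Finset.mem_univ i)
  have hcmp : ∀ f : {f : Fin 4 → Option J // Function.Injective f}, ∃ c : ℝ, 0 < c ∧
      ∀ (u : E3) (t : ℝ), ‖u‖ = 1 → |t| ≤ M →
        c ≤ ∑ a, |(|⟪u, cc p (f.1 a)⟫ - t| - rad r 0 (f.1 a))| := by
    intro f
    have hK : IsCompact ((sphere (0 : E3) 1) ×ˢ (Set.Icc (-M) M)) :=
      (isCompact_sphere 0 1).prod isCompact_Icc
    have hM0 : 0 ≤ M := by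
      rw [hM]
      have : 0 ≤ ∑ i, ‖p i‖ := Finset.sum_nonneg fun _ _ => norm_nonneg _
      linarith
    have hne : ((sphere (0 : E3) 1) ×ˢ (Set.Icc (-M) M)).Nonempty :=
      ⟨(EuclideanSpace.single 0 1, 0), by simp, ⟨by simpa using hM0, hM0⟩⟩
    have hcont : ContinuousOn (fun x : E3 × ℝ => ∑ a, |(|⟪x.1, cc p (f.1 a)⟫ - x.2| - rad r 0 (f.1 a))|)
        ((sphere (0 : E3) 1) ×ˢ (Set.Icc (-M) M)) := by
      apply Continuous.continuousOn
      fun_prop
    obtain ⟨x, hx, hmin⟩ := hK.exists_isMinOn hne hcont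
    refine ⟨_, positive h f.1 f.2 x.1 x.2 (by simpa using hx.1), fun u t hu ht => ?_⟩
    exact hmin (a := (u, t)) ⟨by simpa using hu, abs_le.mp ht⟩
  choose c hc0 hc using hcmp
  obtain ⟨δ0, hδ0, hδ0c⟩ := exists_pos_le c hc0
  set δ : ℝ := min (min (γ / 4) (r / 2)) (min (δ0 / 8) 1) with hδ
  have hδpos : 0 < δ := by
    rw [hδ]; refine lt_min (lt_min ?_ ?_) (lt_min ?_ one_pos) <;> linarith
  have hδγ : δ ≤ γ / 4 := (min_le_left _ _).trans (min_le_left _ _)
  have hδr : δ ≤ r / 2 := (min_le_left _ _).trans (min_le_right _ _)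
  have hδc : δ ≤ δ0 / 8 := (min_le_right _ _).trans (min_le_left _ _)
  have hδ1 : δ ≤ 1 := (min_le_right _ _).trans (min_le_right _ _)
  have hradpos : ∀ i : Option J, 0 < rad r δ i := by
    intro i; cases i
    · exact hr
    · exact hδpos
  refine ⟨δ, hδpos, by linarith, fun i => isBody_ball _ (hradpos i), ?_, ?_, ?_, ?_⟩
  · -- separable
    intro i j k hij hik hjk
    cases k with
    | some k =>
      obtain ⟨u, hu, h1, h2⟩ := h.A k
      refine ⟨u, ⟪u, p k⟫ - 2 * δ, by rintro rfl; simp at hu, ?_, ?_⟩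
      · have key : ∀ i : Option J, i ≠ some k → ∀ x ∈ Fam p r δ i, ⟪u, x⟫ < ⟪u, p k⟫ - 2 * δ := by
          intro i hi x hx
          have h3 := inner_ball_le (u := u) hx
          rw [hu, mul_one] at h3
          cases i with
          | none =>
            change ⟪u, x⟫ ≤ ⟪u, (0 : E3)⟫ + r at h3
            rw [inner_zero_right] at h3
            linarith
          | some i =>
            change ⟪u, x⟫ ≤ ⟪u, p i⟫ + δ at h3
            have := h1 i (fun h => hi (by rw [h]))
            linarith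
        rintro x (hx | hx)
        · exact key i hik x hx
        · exact key j hjk x hx
      · intro x hx
        have h3 := inner_ball_ge (u := u) hx
        rw [hu, mul_one] at h3
        change ⟪u, p k⟫ - δ ≤ ⟪u, x⟫ at h3
        linarith
    | none =>
      obtain ⟨i', rfl⟩ := Option.ne_none_iff_exists'.mp hik
      obtain ⟨j', rfl⟩ := Option.ne_none_iff_exists'.mp hjk
      obtain ⟨w, hw, h1, h2⟩ := h.S i' j' (fun h => hij (by rw [h]))
      refine ⟨-w, -(r + δ), by
        intro h0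
        rw [neg_eq_zero] at h0
        rw [h0] at hw
        simp at hw, ?_, ?_⟩
      · rintro x (hx | hx)
        · have h3 := inner_ball_ge (u := w) hx
          rw [hw, mul_one] at h3
          change ⟪w, p i'⟫ - δ ≤ ⟪w, x⟫ at h3
          rw [inner_neg_left]; linarith
        · have h3 := inner_ball_ge (u := w) hx
          rw [hw, mul_one] at h3
          change ⟪w, p j'⟫ - δ ≤ ⟪w, x⟫ at h3
          rw [inner_neg_left]; linarith
      · intro x hx
        have h3 := inner_ball_le (u := w) hx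
        rw [hw, mul_one] at h3
        change ⟪w, x⟫ ≤ ⟪w, (0 : E3)⟫ + r at h3
        rw [inner_zero_right] at h3
        rw [inner_neg_left]; linarith
  · -- nondegenerate
    rintro f hf ⟨u, t, hu0, hsup⟩
    have hun : ‖(‖u‖⁻¹ • u)‖ = 1 := by
      rw [norm_smul, norm_inv, norm_norm, inv_mul_cancel₀ (norm_ne_zero_iff.mpr hu0)]
    set u' : E3 := ‖u‖⁻¹ • u with hu'
    set t' : ℝ := ‖u‖⁻¹ * t with ht'
    have hs : ∀ a, |⟪u', cc p (f a)⟫ - t'| = rad r δ (f a) := fun a =>
      supp_ball (hradpos _) hun (supp_unit hu0 (hsup a))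
    have hccle : ∀ i : Option J, ‖cc p i‖ ≤ ∑ i, ‖p i‖ := by
      intro i
      cases i with
      | none =>
        change ‖(0 : E3)‖ ≤ _
        rw [norm_zero]
        exact Finset.sum_nonneg fun _ _ => norm_nonneg _
      | some i => exact hMi i
    have hradle : ∀ i : Option J, rad r δ i ≤ r + 1 := by
      intro i; cases i
      · change r ≤ r + 1; linarith
      · change δ ≤ r + 1; linarith
    have htM : |t'| ≤ M := by
      have h1 := hs 0
      have h2 : |⟪u', cc p (f 0)⟫| ≤ ‖cc p (f 0)‖ := by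
        have := abs_real_inner_le_norm u' (cc p (f 0))
        rwa [hun, one_mul] at this
      have h3 : |t'| ≤ |⟪u', cc p (f 0)⟫| + |⟪u', cc p (f 0)⟫ - t'| := by
        have := abs_sub_abs_le_abs_sub t' ⟪u', cc p (f 0)⟫
        rw [abs_sub_comm] at this
        linarith
      rw [h1] at h3
      have := hccle (f 0)
      have := hradle (f 0)
      rw [hM]; linarith
    have h4 := hc ⟨f, hf⟩ u' t' hun htM
    have h5 : ∑ a, |(|⟪u', cc p (f a)⟫ - t'| - rad r 0 (f a))| ≤ ∑ _a : Fin 4, δ := by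
      refine Finset.sum_le_sum fun a _ => ?_
      rw [hs a]
      cases f a with
      | none => change |r - r| ≤ δ; rw [sub_self, abs_zero]; exact hδpos.le
      | some i => change |δ - 0| ≤ δ; rw [sub_zero, abs_of_pos hδpos]
    rw [Finset.sum_const, Finset.card_univ, Fintype.card_fin, nsmul_eq_mul] at h5
    have h6 := hδ0c ⟨f, hf⟩
    push_cast at h5
    simp only at h4
    linarith
  · -- proper subfamilies
    intro s hs j hj
    cases j with
    | some j =>
      obtain ⟨u, hu, h1, h2⟩ := h.A j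
      refine exposed (c := cc p) (ρ := rad r δ) hradpos hj hu fun i _ hij => ?_
      cases i with
      | none =>
        change ⟪u, (0 : E3)⟫ + r < ⟪u, p j⟫ + δ
        rw [inner_zero_right]; linarith
      | some i =>
        change ⟪u, p i⟫ + δ < ⟪u, p j⟫ + δ
        have := h1 i (fun h => hij (by rw [h]))
        linarith
    | none =>
      obtain ⟨k, hk⟩ : ∃ k, k ∉ s := by
        by_contra hcon
        push Not at hcon
        exact hs (Set.eq_univ_of_forall hcon)
      obtain ⟨k', rfl⟩ : ∃ k', k = some k' := by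
        cases k with
        | none => exact absurd hj hk
        | some k' => exact ⟨k', rfl⟩
      obtain ⟨v, hv, h1⟩ := h.B k'
      refine exposed (c := cc p) (ρ := rad r δ) hradpos hj hv fun i hi hij => ?_
      cases i with
      | none => exact absurd rfl hij
      | some i =>
        change ⟪v, p i⟫ + δ < ⟪v, (0 : E3)⟫ + r
        have := h1 i (fun h => hk (by rw [← h]; exact hi))
        rw [inner_zero_right]; linarith
  · intro hcp
    obtain ⟨U, -, ⟨x, -, hx⟩, hsub⟩ := hcp none (Set.mem_univ _)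
    obtain ⟨U, hU, ⟨x, hxU, hx⟩, hsub⟩ := hcp none (Set.mem_univ _)
    have h1 := hsub ⟨hxU, hx⟩
    have h2 : x ∈ closedBall (0 : E3) r := isClosed_closedBall.frontier_subset hx
    have h3 := covered (p := p) hr hδpos h.D (S := ⋃ i ∈ Set.univ, Fam p r δ i) (by
      intro i y hy
      exact Set.mem_iUnion₂.mpr ⟨some i, Set.mem_univ _, hy⟩) h2
    exact (Set.disjoint_left.mp disjoint_interior_frontier) h3 h1

end Pool.Agent.Helper17.CB
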