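import Pool.Agent.Helper17.CB2

/-! The point configuration. -/

namespace Pool.Agent.Helper17.CB

open Metric Real

open scoped RealInnerProductSpace

noncomputable def vec (x y z : ℝ) : E3 := !₂[x, y, z]

lemma inner_u_vec (u : E3) (x y z : ℝ) : ⟪u, vec x y z⟫ = u 0 * x + u 1 * y + u 2 * z := by
  simp [vec, PiLp.inner_apply, Fin.sum_univ_three]; ring

lemma inner_vec (a b c x y z : ℝ) : ⟪vec a b c, vec x y z⟫ = a * x + b * y + c * z := by
  rw [inner_u_vec]; simp [vec]

lemma norm_sq_u (u : E3) : ‖u‖ ^ 2 = u 0 ^ 2 + u 1 ^ 2 + u 2 ^ 2 := by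
  rw [EuclideanSpace.real_norm_sq_eq, Fin.sum_univ_three]

lemma norm_vec {x y z : ℝ} (h : x ^ 2 + y ^ 2 + z ^ 2 = 1) : ‖vec x y z‖ = 1 := by
  have h1 : ‖vec x y z‖ ^ 2 = 1 := by
    rw [norm_sq_u, ← h]; simp [vec]
  nlinarith [norm_nonneg (vec x y z)]

/-! ### trigonometry -/

lemma cos_aux {m : ℕ} (hm : 3 ≤ m) (k : ℕ) (h1 : 1 ≤ k) (h2 : 2 * k ≤ m) :
    cos (2 * π * k / m) ≤ cos (2 * π / m) := by
  have hm0 : (0 : ℝ) < m := by exact_mod_cast (by omega : 0 < m)
  have hk : (1 : ℝ) ≤ k := by exact_mod_cast h1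
  have hk2 : 2 * (k : ℝ) ≤ m := by exact_mod_cast h2
  apply cos_le_cos_of_nonneg_of_le_pi (by positivity)
  · rw [div_le_iff₀ hm0]; nlinarith [pi_pos]
  · rw [div_le_div_iff_of_pos_right hm0]; nlinarith [pi_pos]

lemma cos_aux' {m : ℕ} (hm : 3 ≤ m) (k : ℕ) (h1 : 1 ≤ k) (h2 : k < m) :
    cos (2 * π * k / m) ≤ cos (2 * π / m) := by
  have hm0 : (0 : ℝ) < m := by exact_mod_cast (by omega : 0 < m)
  rcases le_or_gt (2 * k) m with h | h
  · exact cos_aux hm k h1 h
  · have h3 := cos_aux hm (m - k) (by omega) (by omega)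
    have e : 2 * π * ((m - k : ℕ) : ℝ) / m = 2 * π - 2 * π * k / m := by
      rw [Nat.cast_sub h2.le]; field_simp
    rw [e, cos_two_pi_sub] at h3
    exact h3

noncomputable def ang (m : ℕ) (i : Fin m) : ℝ := 2 * π * (i : ℕ) / m

lemma cos_ang {m : ℕ} (hm : 3 ≤ m) {i j : Fin m} (h : i ≠ j) :
    cos (ang m i) * cos (ang m j) + sin (ang m i) * sin (ang m j) ≤ cos (2 * π / m) := by
  rw [← cos_sub]
  have key : ∀ i j : Fin m, j < i → cos (ang m i - ang m j) ≤ cos (2 * π / m) := by
    intro i j hij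
    have hij' : (j : ℕ) < i := hij
    have e : ang m i - ang m j = 2 * π * ((i - j : ℕ) : ℝ) / m := by
      unfold ang
      rw [Nat.cast_sub hij'.le]; ring
    rw [e]
    exact cos_aux' hm _ (by omega) (by omega)
  rcases lt_or_gt_of_ne h with h1 | h1
  · rw [← cos_neg, neg_sub]; exact key j i h1
  · exact key i j h1

lemma exists_dir {m : ℕ} (hm : 3 ≤ m) (x y : ℝ) :
    ∃ i : Fin m, cos (π / m) * √(x ^ 2 + y ^ 2) ≤ x * cos (ang m i) + y * sin (ang m i) := by
  have hm0 : (0 : ℝ) < m := by exact_mod_cast (by omega : 0 < m)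
  set z : ℂ := ⟨x, y⟩ with hz
  set φ := Complex.arg z with hφ
  have hR : ‖z‖ = √(x ^ 2 + y ^ 2) := by
    rw [Complex.norm_def, Complex.normSq_apply]
    congr 1; simp [hz]; ring
  have hx : x = ‖z‖ * cos φ := by rw [hφ, Complex.norm_mul_cos_arg]
  have hy : y = ‖z‖ * sin φ := by rw [hφ, Complex.norm_mul_sin_arg]
  set k : ℤ := round (φ * m / (2 * π)) with hk
  have hmz : (m : ℤ) ≠ 0 := by omega
  have hk0 : 0 ≤ k % m := Int.emod_nonneg _ hmz
  have hk1 : k % m < m := Int.emod_lt_of_pos _ (by omega)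
  refine ⟨⟨(k % m).toNat, by omega⟩, ?_⟩
  set i : Fin m := ⟨(k % m).toNat, by omega⟩ with hi
  have hival : ((i : ℕ) : ℝ) = (k : ℝ) - m * ((k / m : ℤ) : ℝ) := by
    have h1 : ((i : ℕ) : ℤ) = k - m * (k / m) := by
      rw [hi]
      simp only
      rw [Int.toNat_of_nonneg hk0, Int.emod_def]
    have := congrArg (fun t : ℤ => (t : ℝ)) h1
    push_cast at this
    exact this
  have hang : φ - ang m i = (φ - 2 * π * k / m) + ((k / m : ℤ) : ℝ) * (2 * π) := by
    unfold ang
    rw [hival]; field_simp; ring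
  have hcos : cos (φ - ang m i) = cos (φ - 2 * π * k / m) := by
    rw [hang, cos_add_int_mul_two_pi]
  have habs : |φ - 2 * π * k / m| ≤ π / m := by
    have h1 := abs_sub_round (φ * m / (2 * π))
    rw [← hk] at h1
    have h2 : φ - 2 * π * k / m = (φ * m / (2 * π) - k) * (2 * π / m) := by
      field_simp
    rw [h2, abs_mul, abs_of_pos (by positivity : 0 < 2 * π / m)]
    calc |φ * m / (2 * π) - k| * (2 * π / m) ≤ 1 / 2 * (2 * π / m) :=
          mul_le_mul_of_nonneg_right h1 (by positivity)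
      _ = π / m := by ring
  have hge : cos (π / m) ≤ cos (φ - ang m i) := by
    rw [hcos, ← cos_abs (φ - 2 * π * k / m)]
    apply cos_le_cos_of_nonneg_of_le_pi (abs_nonneg _) _ habs
    rw [div_le_iff₀ hm0]
    have : (1 : ℝ) ≤ m := by exact_mod_cast (by omega : 1 ≤ m)
    nlinarith [pi_pos]
  rw [← hR]
  calc cos (π / m) * ‖z‖ ≤ cos (φ - ang m i) * ‖z‖ := mul_le_mul_of_nonneg_right hge (norm_nonneg _)
    _ = ‖z‖ * cos φ * cos (ang m i) + ‖z‖ * sin φ * sin (ang m i) := by rw [cos_sub]; ring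
    _ = x * cos (ang m i) + y * sin (ang m i) := by rw [← hx, ← hy]

/-! ### planar positions -/

variable {m : ℕ}

noncomputable def XX (m : ℕ) : Option (Fin m) → ℝ
  | none => 0
  | some i => cos (ang m i)
noncomputable def YY (m : ℕ) : Option (Fin m) → ℝ
  | none => 0
  | some i => sin (ang m i)

noncomputable def Dl (m : ℕ) (a b c : Option (Fin m)) : ℝ :=
  (XX m b - XX m a) * (YY m c - YY m a) - (YY m b - YY m a) * (XX m c - XX m a)

lemma ring_det (hm : 3 ≤ m) {i j k : Fin m} (hij : i ≠ j) (hik : i ≠ k) (hjk : j ≠ k) :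
    Dl m (some i) (some j) (some k) ≠ 0 := by
  have hc2 : cos (2 * π / m) < 1 := by
    have hm0 : (0 : ℝ) < m := by exact_mod_cast (by omega : 0 < m)
    have hm3 : (3 : ℝ) ≤ m := by exact_mod_cast hm
    rw [← cos_zero]
    apply cos_lt_cos_of_nonneg_of_le_pi le_rfl
    · rw [div_le_iff₀ hm0]; nlinarith [pi_pos]
    · positivity
  have h1 := (cos_ang hm hij).trans_lt hc2
  have h2 := (cos_ang hm hik).trans_lt hc2
  have h3 := (cos_ang hm hjk).trans_lt hc2
  have q1 := cos_sq_add_sin_sq (ang m i)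
  have q2 := cos_sq_add_sin_sq (ang m j)
  have q3 := cos_sq_add_sin_sq (ang m k)
  unfold Dl XX YY
  simp only
  generalize cos (ang m i) = x1 at *
  generalize sin (ang m i) = y1 at *
  generalize cos (ang m j) = x2 at *
  generalize sin (ang m j) = y2 at *
  generalize cos (ang m k) = x3 at *
  generalize sin (ang m k) = y3 at *
  intro h0
  -- S = |d_j|^2, mm = <d_j, d_k>, Q = |d_k|^2
  have hS : 0 < (x2 - x1) ^ 2 + (y2 - y1) ^ 2 := by nlinarith
  have hQ : 0 < (x3 - x1) ^ 2 + (y3 - y1) ^ 2 := by nlinarith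
  have hR : 0 < (x3 - x2) ^ 2 + (y3 - y2) ^ 2 := by nlinarith
  set a := x2 - x1 with ha
  set b := y2 - y1 with hb
  set c := x3 - x1 with hc
  set d := y3 - y1 with hd
  have hx2 : x2 = x1 + a := by rw [ha]; ring
  have hy2 : y2 = y1 + b := by rw [hb]; ring
  have hx3 : x3 = x1 + c := by rw [hc]; ring
  have hy3 : y3 = y1 + d := by rw [hd]; ring
  have e2 : a ^ 2 + b ^ 2 + 2 * (x1 * a + y1 * b) = 0 := by
    rw [hx2, hy2] at q2; linarith
  have e3 : c ^ 2 + d ^ 2 + 2 * (x1 * c + y1 * d) = 0 := by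
    rw [hx3, hy3] at q3; linarith
  have p1 : c * (a ^ 2 + b ^ 2) = a * (a * c + b * d) := by linear_combination (-b) * h0
  have p2 : d * (a ^ 2 + b ^ 2) = b * (a * c + b * d) := by linear_combination a * h0
  have p3 : (a * c + b * d) * ((a * c + b * d) - (a ^ 2 + b ^ 2)) = 0 := by
    have h4 : (a ^ 2 + b ^ 2) * ((a * c + b * d) * ((a * c + b * d) - (a ^ 2 + b ^ 2))) = 0 := by
      have e4 : (a ^ 2 + b ^ 2) ^ 2 * (c ^ 2 + d ^ 2 + 2 * (x1 * c + y1 * d)) = 0 := by
        rw [e3, mul_zero]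
      linear_combination e4 - (c * (a ^ 2 + b ^ 2) + a * (a * c + b * d)) * p1
        - (d * (a ^ 2 + b ^ 2) + b * (a * c + b * d)) * p2
        - 2 * (a ^ 2 + b ^ 2) * x1 * p1 - 2 * (a ^ 2 + b ^ 2) * y1 * p2
        - (a ^ 2 + b ^ 2) * (a * c + b * d) * e2
    rcases mul_eq_zero.mp h4 with h | h
    · exact absurd h hS.ne'
    · exact h
  rcases mul_eq_zero.mp p3 with h | h
  · have h5 : c = 0 := by
      have : c * (a ^ 2 + b ^ 2) = 0 := by rw [p1, h, mul_zero]
      exact (mul_eq_zero.mp this).resolve_right hS.ne'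
    have h6 : d = 0 := by
      have : d * (a ^ 2 + b ^ 2) = 0 := by rw [p2, h, mul_zero]
      exact (mul_eq_zero.mp this).resolve_right hS.ne'
    rw [h5, h6] at hQ
    norm_num at hQ
  · have h7 : a * c + b * d = a ^ 2 + b ^ 2 := by linarith
    rw [h7] at p1 p2
    have h5 : c = a := mul_right_cancel₀ hS.ne' p1
    have h6 : d = b := mul_right_cancel₀ hS.ne' p2
    have h8 : x3 - x2 = 0 := by rw [hx3, hx2, h5]; ring
    have h9 : y3 - y2 = 0 := by rw [hy3, hy2, h6]; ring
    rw [h8, h9] at hR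
    norm_num at hR

/-- the determinant functional -/
noncomputable def LL (m : ℕ) (f : Fin 4 → Option (Fin m)) (z : Option (Fin m) → ℝ) : ℝ :=
  Dl m (f 1) (f 2) (f 3) * z (f 0) - Dl m (f 0) (f 2) (f 3) * z (f 1)
    + Dl m (f 0) (f 1) (f 3) * z (f 2) - Dl m (f 0) (f 1) (f 2) * z (f 3)

lemma LL_dense (hm : 3 ≤ m) (f : Fin 4 → Option (Fin m)) (hf : Function.Injective f) :
    Dense {z : Option (Fin m) → ℝ | LL m f z ≠ 0} := by
  classical
  -- a coordinate with nonzero coefficient
  have hring : ∀ a b c : Fin 4, a ≠ b → a ≠ c → b ≠ c → f a ≠ none → f b ≠ none → f c ≠ none →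
      Dl m (f a) (f b) (f c) ≠ 0 := by
    intro a b c hab hac hbc ha hb hc
    obtain ⟨i, hi⟩ := Option.ne_none_iff_exists'.mp ha
    obtain ⟨j, hj⟩ := Option.ne_none_iff_exists'.mp hb
    obtain ⟨k, hk⟩ := Option.ne_none_iff_exists'.mp hc
    rw [hi, hj, hk]
    apply ring_det hm
    · rintro rfl; exact hab (hf (hi.trans hj.symm))
    · rintro rfl; exact hac (hf (hi.trans hk.symm))
    · rintro rfl; exact hbc (hf (hj.trans hk.symm))
  have hne : ∀ a b : Fin 4, a ≠ b → f a ≠ f b := fun a b h => hf.ne h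
  have key : ∃ (j : Option (Fin m)) (q : ℝ), q ≠ 0 ∧
      ∀ (z : Option (Fin m) → ℝ) (s : ℝ), LL m f (z + Pi.single j s) = LL m f z + q * s := by
    have n01 := hne 0 1 (by decide)
    have n02 := hne 0 2 (by decide)
    have n03 := hne 0 3 (by decide)
    have n12 := hne 1 2 (by decide)
    have n13 := hne 1 3 (by decide)
    have n23 := hne 2 3 (by decide)
    by_cases h1 : f 1 = none
    · refine ⟨f 1, -Dl m (f 0) (f 2) (f 3), neg_ne_zero.mpr (hring 0 2 3 (by decide) (by decide) (by decide) ?_ ?_ ?_), ?_⟩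
      · rw [← h1]; exact n01
      · rw [← h1]; exact n12.symm
      · rw [← h1]; exact n13.symm
      · intro z s
        simp only [LL, Pi.add_apply, Pi.single_apply, n01, n12.symm, n13.symm, if_false, if_true]
        ring
    · by_cases h2 : f 2 = none
      · refine ⟨f 2, Dl m (f 0) (f 1) (f 3), hring 0 1 3 (by decide) (by decide) (by decide) ?_ ?_ ?_, ?_⟩
        · rw [← h2]; exact n02
        · rw [← h2]; exact n12
        · rw [← h2]; exact n23.symm
        · intro z s
          simp only [LL, Pi.add_apply, Pi.single_apply, n02, n12, n23.symm, if_false, if_true]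
          ring
      · by_cases h3 : f 3 = none
        · refine ⟨f 3, -Dl m (f 0) (f 1) (f 2), neg_ne_zero.mpr (hring 0 1 2 (by decide) (by decide) (by decide) ?_ h1 h2), ?_⟩
          · rw [← h3]; exact n03
          · intro z s
            simp only [LL, Pi.add_apply, Pi.single_apply, n03, n13, n23, if_false, if_true]
            ring
        · refine ⟨f 0, Dl m (f 1) (f 2) (f 3), hring 1 2 3 (by decide) (by decide) (by decide) h1 h2 h3, ?_⟩
          intro z s
          simp only [LL, Pi.add_apply, Pi.single_apply, n01.symm, n02.symm, n03.symm, if_false, if_true]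
          ring
  obtain ⟨j, q, hq, hL⟩ := key
  intro z
  by_cases hz : LL m f z = 0
  · rw [mem_closure_iff_seq_limit]
    refine ⟨fun n => z + Pi.single j (1 / ((n : ℝ) + 1)), fun n => ?_, ?_⟩
    · change LL m f _ ≠ 0
      rw [hL, hz, zero_add]
      have : (0 : ℝ) < 1 / ((n : ℝ) + 1) := by positivity
      exact mul_ne_zero hq this.ne'
    · have h1 : Filter.Tendsto (fun n : ℕ => (1 : ℝ) / ((n : ℝ) + 1)) Filter.atTop (nhds 0) :=
        tendsto_one_div_add_atTop_nhds_zero_nat
      have h2 : Continuous (fun s : ℝ => z + Pi.single j s) := by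
        refine continuous_const.add (continuous_pi fun i => ?_)
        by_cases hij : i = j
        · subst hij
          simp only [Pi.single_eq_same]
          exact continuous_id
        · simp only [Pi.single_apply, hij, if_false]
          exact continuous_const
      have h3 : Filter.Tendsto (fun n : ℕ => z + Pi.single j ((1 : ℝ) / ((n : ℝ) + 1))) Filter.atTop
          (nhds (z + Pi.single j (0 : ℝ))) := (h2.tendsto 0).comp h1
      rwa [Pi.single_zero, add_zero] at h3
  · exact subset_closure hz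

lemma exists_heights (hm : 3 ≤ m) (D : ℝ) : ∃ z : Option (Fin m) → ℝ,
    (∀ i : Fin m, 1 < z (some i) ∧ z (some i) < 2) ∧ z none < -D ∧
    ∀ f : Fin 4 → Option (Fin m), Function.Injective f → LL m f z ≠ 0 := by
  have hd : Dense (⋂ f : {f : Fin 4 → Option (Fin m) // Function.Injective f},
      {z : Option (Fin m) → ℝ | LL m f.1 z ≠ 0}) := by
    apply dense_iInter_of_isOpen
    · intro f
      have hc : Continuous (fun z : Option (Fin m) → ℝ => LL m f.1 z) := by
        unfold LL; fun_prop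
      exact isOpen_ne_fun hc continuous_const
    · intro f; exact LL_dense hm f.1 f.2
  have ho : IsOpen ((⋂ i : Fin m, {z : Option (Fin m) → ℝ | 1 < z (some i) ∧ z (some i) < 2})
      ∩ {z | z none < -D}) := by
    refine IsOpen.inter (isOpen_iInter_of_finite fun i => ?_) ?_
    · exact (isOpen_lt continuous_const (continuous_apply _)).inter
        (isOpen_lt (continuous_apply _) continuous_const)
    · exact isOpen_lt (continuous_apply _) continuous_const
  obtain ⟨z, hz1, hz2⟩ := hd.inter_open_nonempty _ ho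
    ⟨fun j => j.elim (-D - 1) (fun _ => 3 / 2), by
      constructor
      · rw [Set.mem_iInter]; intro i; constructor <;> norm_num
      · change -D - 1 < -D; linarith⟩
  refine ⟨z, fun i => (Set.mem_iInter.mp hz1.1 i), hz1.2, fun f hf => ?_⟩
  exact Set.mem_iInter.mp hz2 ⟨f, hf⟩

end Pool.Agent.Helper17.CB
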