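import Pool.Agent.Helper17.CB3

/-! The configuration and the final family. -/

namespace Pool.Agent.Helper17.CB

open Metric Real

open scoped RealInnerProductSpace

variable {m : ℕ}

noncomputable def pt (m : ℕ) (z : Option (Fin m) → ℝ) (j : Option (Fin m)) : E3 :=
  vec (XX m j) (YY m j) (z j)

lemma inner_pt (u : E3) (z : Option (Fin m) → ℝ) (j : Option (Fin m)) :
    ⟪u, pt m z j⟫ = u 0 * XX m j + u 1 * YY m j + u 2 * z j := inner_u_vec _ _ _ _

lemma inner_vec_pt (a b c : ℝ) (z : Option (Fin m) → ℝ) (j : Option (Fin m)) :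
    ⟪vec a b c, pt m z j⟫ = a * XX m j + b * YY m j + c * z j := inner_vec _ _ _ _ _ _

lemma Dl_kill {a b c : Option (Fin m)} {w0 w1 t : ℝ} (ha : w0 * XX m a + w1 * YY m a = t)
    (hb : w0 * XX m b + w1 * YY m b = t) (hc : w0 * XX m c + w1 * YY m c = t) :
    w0 * Dl m a b c = 0 ∧ w1 * Dl m a b c = 0 := by
  unfold Dl
  constructor
  · linear_combination (hb - ha) * (YY m c - YY m a) - (hc - ha) * (YY m b - YY m a)
  · linear_combination (hc - ha) * (XX m b - XX m a) - (hb - ha) * (XX m c - XX m a)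

lemma gp {z : Option (Fin m) → ℝ}
    (hz : ∀ f : Fin 4 → Option (Fin m), Function.Injective f → LL m f z ≠ 0)
    (f : Fin 4 → Option (Fin m)) (hf : Function.Injective f) (w : E3) (t : ℝ)
    (h : ∀ a, ⟪w, pt m z (f a)⟫ = t) : w = 0 := by
  have hL0 := hz f hf
  have h0 := h 0
  have h1 := h 1
  have h2 := h 2
  have h3 := h 3
  rw [inner_pt] at h0 h1 h2 h3
  have hL : w 2 * LL m f z = 0 := by
    unfold LL
    unfold Dl
    linear_combination
      ((XX m (f 2) - XX m (f 1)) * (YY m (f 3) - YY m (f 1)) - (YY m (f 2) - YY m (f 1)) * (XX m (f 3) - XX m (f 1))) * h0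
      - ((XX m (f 2) - XX m (f 0)) * (YY m (f 3) - YY m (f 0)) - (YY m (f 2) - YY m (f 0)) * (XX m (f 3) - XX m (f 0))) * h1
      + ((XX m (f 1) - XX m (f 0)) * (YY m (f 3) - YY m (f 0)) - (YY m (f 1) - YY m (f 0)) * (XX m (f 3) - XX m (f 0))) * h2
      - ((XX m (f 1) - XX m (f 0)) * (YY m (f 2) - YY m (f 0)) - (YY m (f 1) - YY m (f 0)) * (XX m (f 2) - XX m (f 0))) * h3
  have hw2 : w 2 = 0 := (mul_eq_zero.mp hL).resolve_right hL0
  rw [hw2, zero_mul, add_zero] at h0 h1 h2 h3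
  obtain ⟨a0, b0⟩ := Dl_kill h1 h2 h3
  obtain ⟨a1, b1⟩ := Dl_kill h0 h2 h3
  obtain ⟨a2, b2⟩ := Dl_kill h0 h1 h3
  obtain ⟨a3, b3⟩ := Dl_kill h0 h1 h2
  have hw0 : w 0 = 0 := by
    refine (mul_eq_zero.mp (?_ : w 0 * LL m f z = 0)).resolve_right hL0
    unfold LL
    linear_combination z (f 0) * a0 - z (f 1) * a1 + z (f 2) * a2 - z (f 3) * a3
  have hw1 : w 1 = 0 := by
    refine (mul_eq_zero.mp (?_ : w 1 * LL m f z = 0)).resolve_right hL0
    unfold LL
    linear_combination z (f 0) * b0 - z (f 1) * b1 + z (f 2) * b2 - z (f 3) * b3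
  ext i
  fin_cases i
  · exact hw0
  · exact hw1
  · exact hw2

lemma T_aux {J : Type} {p : J → E3}
    (GP : ∀ f : Fin 4 → J, Function.Injective f → ∀ (w : E3) (t : ℝ), (∀ a, ⟪w, p (f a)⟫ = t) → w = 0)
    (f : Fin 3 → J) (hf : Function.Injective f) (j : J) (hj : ∀ a, f a ≠ j) :
    {ρ : ℝ | ∃ (u : E3) (t : ℝ), ‖u‖ = 1 ∧ |t| = ρ ∧ ∀ a, ⟪u, p (f a)⟫ = t}.Subsingleton := by
  have hg : Function.Injective (Fin.cons j f : Fin 4 → J) := by
    rw [Fin.cons_injective_iff]
    exact ⟨fun ⟨a, ha⟩ => hj a ha, hf⟩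
  have key : ∀ (w : E3) (t : ℝ), ⟪w, p j⟫ = t → (∀ a, ⟪w, p (f a)⟫ = t) → w = 0 := by
    intro w t h1 h2
    refine GP _ hg w t fun a => ?_
    refine Fin.cases ?_ (fun b => ?_) a
    · exact h1
    · exact h2 b
  rintro ρ ⟨u, t, hu, ht, h⟩ ρ' ⟨u', t', hu', ht', h'⟩
  obtain ⟨β, hβ⟩ : ∃ β, β = ⟪u, p j⟫ - t := ⟨_, rfl⟩
  obtain ⟨α, hα⟩ : ∃ α, α = ⟪u', p j⟫ - t' := ⟨_, rfl⟩
  have hβ0 : β ≠ 0 := by
    intro h0
    have := key u t (by linarith) h
    rw [this, norm_zero] at hu
    exact zero_ne_one hu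
  have hw : α • u - β • u' = 0 := by
    apply key _ (α * t - β * t')
    · rw [inner_sub_left, real_inner_smul_left, real_inner_smul_left]
      rw [hα, hβ]; ring
    · intro a
      rw [inner_sub_left, real_inner_smul_left, real_inner_smul_left, h, h']
  have hτ : α * t - β * t' = 0 := by
    have h1 : ⟪α • u - β • u', p (f 0)⟫ = α * t - β * t' := by
      rw [inner_sub_left, real_inner_smul_left, real_inner_smul_left, h, h']
    rw [← h1, hw, inner_zero_left]
  have hab : |α| = |β| := by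
    have h1 := congrArg norm (sub_eq_zero.mp hw)
    rw [norm_smul, norm_smul, hu, hu', mul_one, mul_one, Real.norm_eq_abs, Real.norm_eq_abs] at h1
    exact h1
  have h2 : |α| * |t| = |β| * |t'| := by
    rw [← abs_mul, ← abs_mul]; congr 1; linarith
  rw [hab] at h2
  have h3 := mul_left_cancel₀ (abs_ne_zero.mpr hβ0) h2
  rw [← ht, ← ht', h3]

lemma exists_r {J : Type} [Finite J] {p : J → E3}
    (GP : ∀ f : Fin 4 → J, Function.Injective f → ∀ (w : E3) (t : ℝ), (∀ a, ⟪w, p (f a)⟫ = t) → w = 0)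
    (hJ : ∀ f : Fin 3 → J, ∃ j, ∀ a, f a ≠ j) {r0 r1 : ℝ} (h : r0 < r1) :
    ∃ r, r0 < r ∧ r < r1 ∧ ∀ f : Fin 3 → J, Function.Injective f → ∀ (u : E3) (t : ℝ),
      ‖u‖ = 1 → |t| = r → ¬ ∀ a, ⟪u, p (f a)⟫ = t := by
  have hfin : (⋃ f : {f : Fin 3 → J // Function.Injective f},
      {ρ : ℝ | ∃ (u : E3) (t : ℝ), ‖u‖ = 1 ∧ |t| = ρ ∧ ∀ a, ⟪u, p (f.1 a)⟫ = t}).Finite := by
    apply Set.finite_iUnion
    intro f
    obtain ⟨j, hj⟩ := hJ f.1
    exact (T_aux GP f.1 f.2 j hj).finite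
  obtain ⟨r, hr1, hr2⟩ := (Set.Ioo_infinite h).exists_notMem_finite hfin
  refine ⟨r, hr1.1, hr1.2, fun f hf u t hu ht hall => hr2 ?_⟩
  exact Set.mem_iUnion.mpr ⟨⟨f, hf⟩, u, t, hu, ht, hall⟩

theorem exists_config (hm : 3 ≤ m) :
    ∃ (p : Option (Fin m) → E3) (r γ : ℝ), Config (Option (Fin m)) p r γ := by
  have hm0 : (0 : ℝ) < m := by exact_mod_cast (by omega : 0 < m)
  have hm3 : (3 : ℝ) ≤ m := by exact_mod_cast hm
  have hc12 : cos (2 * π / m) < cos (π / m) := by
    apply cos_lt_cos_of_nonneg_of_le_pi (by positivity)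
    · rw [div_le_iff₀ hm0]; nlinarith [pi_pos]
    · rw [div_lt_div_iff_of_pos_right hm0]; linarith [pi_pos]
  have hc1pos : 0 < cos (π / m) := by
    apply cos_pos_of_mem_Ioo
    constructor
    · have : 0 < π / m := by positivity
      linarith [pi_pos]
    · rw [div_lt_iff₀ hm0]; nlinarith [pi_pos]
  have hc1lt : cos (π / m) < 1 := by
    rw [← cos_zero]
    apply cos_lt_cos_of_nonneg_of_le_pi le_rfl
    · rw [div_le_iff₀ hm0]; nlinarith [pi_pos]
    · positivity
  set c1 := cos (π / m) with hc1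
  set c2 := cos (2 * π / m) with hc2
  obtain ⟨r0, hr0⟩ : ∃ r0, r0 = max c2 0 := ⟨_, rfl⟩
  have hr0c : c2 ≤ r0 := by rw [hr0]; exact le_max_left _ _
  have hr00 : 0 ≤ r0 := by rw [hr0]; exact le_max_right _ _
  have hr0lt : r0 < c1 := by rw [hr0]; exact max_lt hc12 hc1pos
  obtain ⟨r1, hr1⟩ : ∃ r1, r1 = (r0 + c1) / 2 := ⟨_, rfl⟩
  have hr01 : r0 < r1 := by rw [hr1]; linarith
  have hr1c : r1 < c1 := by rw [hr1]; linarith
  obtain ⟨D, hD⟩ : ∃ D, D = 4 / (c1 - r1) := ⟨_, rfl⟩
  have hDpos : 0 < D := by rw [hD]; exact div_pos (by norm_num) (by linarith)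
  have hDmul : D * (c1 - r1) = 4 := by rw [hD]; exact div_mul_cancel₀ _ (by linarith)
  have hD4 : 4 ≤ D := by
    by_contra hcon
    push Not at hcon
    nlinarith
  obtain ⟨z, hz1, hz2, hz3⟩ := exists_heights hm D
  have GP := gp hz3
  have hJ : ∀ f : Fin 3 → Option (Fin m), ∃ j, ∀ a, f a ≠ j := by
    intro f
    by_contra hcon
    push Not at hcon
    have := Fintype.card_le_of_surjective f hcon
    simp at this
    omega
  obtain ⟨r, hr0r, hrr1, hT⟩ := exists_r GP hJ hr01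
  obtain ⟨γ, hγ⟩ : ∃ γ, γ = min (r - r0) ((1 - r) / 4) := ⟨_, rfl⟩
  have hγ1 : γ ≤ r - r0 := by rw [hγ]; exact min_le_left _ _
  have hγ2 : γ ≤ (1 - r) / 4 := by rw [hγ]; exact min_le_right _ _
  have hγ0 : 0 < γ := by rw [hγ]; exact lt_min (by linarith) (by linarith)
  have hring : ∀ i : Fin m, ‖vec (cos (ang m i)) (sin (ang m i)) 0‖ = 1 := fun i =>
    norm_vec (by rw [cos_sq_add_sin_sq]; norm_num)
  have hSrn : ∀ i : Fin m, ∃ w : E3, ‖w‖ = 1 ∧ r + γ ≤ ⟪w, pt m z (some i)⟫ ∧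
      r + γ ≤ ⟪w, pt m z none⟫ := by
    intro i
    obtain ⟨ζ, hζ⟩ : ∃ ζ, ζ = (1 - r) / 4 := ⟨_, rfl⟩
    have hζ0 : 0 < ζ := by rw [hζ]; linarith
    have hζ1 : ζ ≤ 1 / 4 := by rw [hζ]; linarith
    obtain ⟨s, hs⟩ : ∃ s, s = √(1 - ζ ^ 2) := ⟨_, rfl⟩
    have hs0 : 0 ≤ s := by rw [hs]; exact Real.sqrt_nonneg _
    have hs2 : s ^ 2 = 1 - ζ ^ 2 := by rw [hs]; exact Real.sq_sqrt (by nlinarith)
    have hs1 : 1 - ζ ≤ s := by
      rw [hs]
      apply Real.le_sqrt_of_sq_le
      nlinarith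
    have hq := cos_sq_add_sin_sq (ang m i)
    refine ⟨vec (s * cos (ang m i)) (s * sin (ang m i)) (-ζ), norm_vec ?_, ?_, ?_⟩
    · linear_combination s ^ 2 * hq + hs2
    · rw [inner_vec_pt]
      simp only [XX, YY]
      have e : s * cos (ang m i) * cos (ang m i) + s * sin (ang m i) * sin (ang m i) = s := by
        linear_combination s * hq
      rw [e]
      have := (hz1 i).2
      nlinarith
    · rw [inner_vec_pt]
      simp only [XX, YY]
      have h1 : 1 ≤ ζ * D := by
        have : (c1 - r1) * D ≤ (1 - r) * D := mul_le_mul_of_nonneg_right (by linarith) hDpos.le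
        rw [hζ]; nlinarith
      nlinarith
  refine ⟨pt m z, r, γ, ⟨by linarith, hγ0, ?_, ?_, ?_, ?_, GP, hT⟩⟩
  · -- A
    intro i
    cases i with
    | none =>
      refine ⟨vec 0 0 (-1), norm_vec (by norm_num), ?_, ?_⟩
      · intro j hj
        obtain ⟨j, rfl⟩ := Option.ne_none_iff_exists'.mp hj
        rw [inner_vec_pt, inner_vec_pt]
        have := (hz1 j).1
        linarith
      · rw [inner_vec_pt]; linarith
    | some i =>
      have hq := cos_sq_add_sin_sq (ang m i)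
      have e : ⟪vec (cos (ang m i)) (sin (ang m i)) 0, pt m z (some i)⟫ = 1 := by
        rw [inner_vec_pt]
        simp only [XX, YY]
        linear_combination hq
      refine ⟨vec (cos (ang m i)) (sin (ang m i)) 0, hring i, ?_, ?_⟩
      · intro j hj
        rw [e]
        rw [inner_vec_pt]
        cases j with
        | none => simp only [XX, YY]; linarith
        | some j =>
          simp only [XX, YY]
          have := cos_ang hm (i := i) (j := j) (fun h => hj (by rw [h]))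
          linarith
      · rw [e]; linarith
  · -- B
    intro i
    cases i with
    | none =>
      refine ⟨vec 0 0 (-1), norm_vec (by norm_num), ?_⟩
      intro j hj
      obtain ⟨j, rfl⟩ := Option.ne_none_iff_exists'.mp hj
      rw [inner_vec_pt]
      have := (hz1 j).1
      linarith
    | some i =>
      refine ⟨vec (cos (ang m i)) (sin (ang m i)) 0, hring i, ?_⟩
      intro j hj
      rw [inner_vec_pt]
      cases j with
      | none => simp only [XX, YY]; linarith
      | some j =>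
        simp only [XX, YY]
        have := cos_ang hm (i := i) (j := j) (fun h => hj (by rw [h]))
        linarith
  · -- S
    intro i j hij
    cases i with
    | none =>
      obtain ⟨j, rfl⟩ := Option.ne_none_iff_exists'.mp hij.symm
      obtain ⟨w, h1, h2, h3⟩ := hSrn j
      exact ⟨w, h1, h3, h2⟩
    | some i =>
      cases j with
      | none => exact hSrn i
      | some j =>
        refine ⟨vec 0 0 1, norm_vec (by norm_num), ?_, ?_⟩
        · rw [inner_vec_pt]
          have := (hz1 i).1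
          linarith
        · rw [inner_vec_pt]
          have := (hz1 j).1
          linarith
  · -- D
    intro u hu
    have hn : u 0 ^ 2 + u 1 ^ 2 + u 2 ^ 2 = 1 := by rw [← norm_sq_u, hu]; norm_num
    obtain ⟨i, hi⟩ := exists_dir hm (u 0) (u 1)
    rw [← hc1] at hi
    obtain ⟨σ, hσ⟩ : ∃ σ, σ = √(u 0 ^ 2 + u 1 ^ 2) := ⟨_, rfl⟩
    rw [← hσ] at hi
    have hσ0 : 0 ≤ σ := by rw [hσ]; exact Real.sqrt_nonneg _
    have hσ2 : σ ^ 2 + u 2 ^ 2 = 1 := by
      rw [hσ, Real.sq_sqrt (by positivity)]; exact hn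
    have hzi := hz1 i
    have hin : ⟪u, pt m z (some i)⟫ = u 0 * cos (ang m i) + u 1 * sin (ang m i) + u 2 * z (some i) :=
      inner_pt _ _ _
    have hinn : ⟪u, pt m z none⟫ = u 2 * z none := by
      rw [inner_pt]; simp [XX, YY]
    generalize u 2 = v at *
    rcases le_or_gt 0 v with hv | hv
    · refine ⟨some i, ?_⟩
      rw [hin]
      have h1 : 1 ≤ σ + v := by nlinarith
      have h2 : v ≤ v * z (some i) := by nlinarith
      nlinarith
    · by_cases h : r ≤ (-v) * D
      · refine ⟨none, ?_⟩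
        rw [hinn]
        nlinarith
      · push Not at h
        refine ⟨some i, ?_⟩
        rw [hin]
        have h1 : -v * 4 < c1 - r1 := by
          have : -v * D * (c1 - r1) < 1 * (c1 - r1) :=
            mul_lt_mul_of_pos_right (by linarith) (by linarith)
          nlinarith
        have h2 : 1 + v ≤ σ := by
          by_contra hcon
          push Not at hcon
          nlinarith
        have h3 : v * 2 ≤ v * z (some i) := by nlinarith
        have h4 : c1 * (1 + v) ≤ c1 * σ := mul_le_mul_of_nonneg_left h2 hc1pos.le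
        nlinarith

lemma inj_of_separable {ι : Type} {F : ι → Set E3} (hb : ∀ i, IsBody (F i)) (hs : Separable F)
    (h3 : ∀ i j : ι, ∃ k, k ≠ i ∧ k ≠ j) : Function.Injective F := by
  intro i j hij
  by_contra hne
  obtain ⟨k, hki, hkj⟩ := h3 i j
  obtain ⟨u, t, -, h1, h2⟩ := hs i k j hki.symm hne hkj
  obtain ⟨x, hx⟩ := (hb j).2.2
  have hx' := interior_subset hx
  have a1 := h1 x (Or.inl (by rw [hij]; exact hx'))
  have a2 := h2 x hx'
  exact lt_asymm a1 a2

theorem main (n : ℕ) (hn : 5 ≤ n) : ∃ F : Fin n → Set E3, Function.Injective F ∧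
    (∀ i, IsBody (F i)) ∧ Separable F ∧ Nondegenerate F ∧
    (∀ s : Set (Fin n), s ≠ Set.univ → ConvexPosition F s) ∧ ¬ ConvexPosition F Set.univ := by
  obtain ⟨m, rfl⟩ : ∃ m, n = m + 2 := ⟨n - 2, by omega⟩
  obtain ⟨p, r, γ, hcfg⟩ := exists_config (m := m) (by omega)
  obtain ⟨δ, hδ, hδr, hbody, hsep, hnd, hcp, hncp⟩ := assemble hcfg
  have e : Fin (m + 2) ≃ Option (Option (Fin m)) :=
    Fintype.equivOfCardEq (by simp)
  have hconv : ∀ s : Set (Fin (m + 2)), ConvexPosition (fun i => Fam p r δ (e i)) s ↔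
      ConvexPosition (Fam p r δ) (e '' s) := by
    intro s
    have hU : (⋃ i ∈ s, Fam p r δ (e i)) = ⋃ i ∈ e '' s, Fam p r δ i := by
      rw [Set.biUnion_image]
    unfold ConvexPosition
    rw [hU]
    constructor
    · rintro h _ ⟨j, hj, rfl⟩
      exact h j hj
    · intro h j hj
      exact h (e j) ⟨j, hj, rfl⟩
  have hb' : ∀ i, IsBody (Fam p r δ (e i)) := fun i => hbody _
  have hs' : Separable (fun i => Fam p r δ (e i)) := fun i j k hij hik hjk =>
    hsep (e i) (e j) (e k) (e.injective.ne hij) (e.injective.ne hik) (e.injective.ne hjk)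
  refine ⟨fun i => Fam p r δ (e i), inj_of_separable hb' hs' ?_, hb', hs', ?_, ?_, ?_⟩
  · intro i j
    have : ∃ k, k ∉ ({i, j} : Finset (Fin (m + 2))) := by
      by_contra hcon
      push Not at hcon
      have h1 : ({i, j} : Finset (Fin (m + 2))) = Finset.univ := Finset.eq_univ_of_forall hcon
      have h2 := congrArg Finset.card h1
      rw [Finset.card_univ, Fintype.card_fin] at h2
      have h3 := Finset.card_le_two (a := i) (b := j)
      omega
    obtain ⟨k, hk⟩ := this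
    simp only [Finset.mem_insert, Finset.mem_singleton, not_or] at hk
    exact ⟨k, hk.1, hk.2⟩
  · intro f hf
    exact hnd (fun a => e (f a)) (e.injective.comp hf)
  · intro s hs
    rw [hconv]
    apply hcp
    intro h
    apply hs
    apply Set.eq_univ_of_forall
    intro i
    have : e i ∈ e '' s := by rw [h]; trivial
    obtain ⟨j, hj, hji⟩ := this
    rwa [← e.injective hji]
  · rw [hconv, Set.image_univ_of_surjective e.surjective]
    exact hncp

end Pool.Agent.Helper17.CB
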