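import Mathlib

/-! Families of convex bodies in three-dimensional space: definitions. -/

namespace Pool.Agent.Helper17.CB

/-- Euclidean three-space. -/
abbrev E3 := EuclideanSpace ℝ (Fin 3)

/-- A convex body: compact, convex, with nonempty interior. -/
def IsBody (K : Set E3) : Prop := Convex ℝ K ∧ IsCompact K ∧ (interior K).Nonempty

/-- For any three distinct members `A, B, C` some plane `⟪u, x⟫ = t` separates `A ∪ B` from `C`
(strictly). -/
def Separable {ι : Type} (F : ι → Set E3) : Prop :=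
  ∀ i j k, i ≠ j → i ≠ k → j ≠ k → ∃ (u : E3) (t : ℝ), u ≠ 0 ∧
    (∀ x ∈ F i ∪ F j, inner ℝ u x < t) ∧ ∀ x ∈ F k, t < inner ℝ u x

/-- The plane `⟪u, x⟫ = t` is a supporting plane of `K`: it meets `K` and `K` lies on one side. -/
def IsSupporting (u : E3) (t : ℝ) (K : Set E3) : Prop :=
  (∃ x ∈ K, inner ℝ u x = t) ∧ ((∀ x ∈ K, inner ℝ u x ≤ t) ∨ (∀ x ∈ K, t ≤ inner ℝ u x))

/-- No four members have a common supporting plane. -/
def Nondegenerate {ι : Type} (F : ι → Set E3) : Prop :=
  ∀ f : Fin 4 → ι, Function.Injective f →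
    ¬ ∃ (u : E3) (t : ℝ), u ≠ 0 ∧ ∀ a, IsSupporting u t (F (f a))

/-- The members with index in `s` are in convex position: for each of them, `C` say, the boundary of
the convex hull of their union contains a nonempty relatively open piece `U ∩ ∂C` of `∂C`. -/
def ConvexPosition {ι : Type} (F : ι → Set E3) (s : Set ι) : Prop :=
  ∀ j ∈ s, ∃ U : Set E3, IsOpen U ∧ (U ∩ frontier (F j)).Nonempty ∧
    U ∩ frontier (F j) ⊆ frontier (convexHull ℝ (⋃ i ∈ s, F i))

end Pool.Agent.Helper17.CB
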