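import Pool.Agent.Helper17.DBprod

set_option autoImplicit false
open Filter Topology Complex MeasureTheory
open scoped ComplexConjugate

namespace Pool.Agent.Helper17.DB

abbrev Ix := Σ k : ℕ, Fin (2^k)

noncomputable def bb (i : Ix) : ℝ := ((i.2:ℕ):ℝ) + 1/2
noncomputable def zt (i : Ix) : ℂ := ⟨(4:ℝ)^i.1, -bb i⟩
noncomputable def W (i : Ix) : ℂ := (zt i)⁻¹

theorem bb_pos (i : Ix) : 0 < bb i := by unfold bb; positivity
theorem zt_ne (i : Ix) : zt i ≠ 0 := by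
  intro h
  have := congrArg Complex.re h
  simp [zt] at this

theorem norm_zt_ge (i : Ix) : (4:ℝ)^i.1 ≤ ‖zt i‖ := by
  have := Complex.abs_re_le_norm (zt i)
  rwa [show (zt i).re = (4:ℝ)^i.1 from rfl, abs_of_pos (by positivity)] at this

theorem norm_W_le (i : Ix) : ‖W i‖ ≤ ((4:ℝ)^i.1)⁻¹ := by
  unfold W
  rw [norm_inv]
  exact inv_anti₀ (by positivity) (norm_zt_ge i)

theorem W_summable : Summable (fun i => ‖W i‖) := by
  refine Summable.of_nonneg_of_le (fun i => norm_nonneg _) norm_W_le ?_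
  rw [summable_sigma_of_nonneg (fun i => by positivity)]
  refine ⟨fun k => Summable.of_finite, ?_⟩
  have : (fun k : ℕ => ∑' y : Fin (2^k), ((4:ℝ)^(⟨k, y⟩ : Ix).1)⁻¹) = fun k => ((1:ℝ)/2)^k := by
    funext k
    rw [tsum_fintype]
    simp only [Finset.sum_const, Finset.card_univ, Fintype.card_fin, nsmul_eq_mul]
    push_cast
    rw [← inv_pow, ← mul_pow]
    norm_num
  rw [this]
  exact summable_geometric_of_lt_one (by norm_num) (by norm_num)

theorem W_im (i : Ix) : 0 < (W i).im := by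
  unfold W
  rw [Complex.inv_im]
  have h1 : 0 < Complex.normSq (zt i) := Complex.normSq_pos.2 (zt_ne i)
  have h2 := bb_pos i
  rw [show (zt i).im = -bb i from rfl, neg_neg]
  positivity

theorem factor_eq (i : Ix) (z : ℂ) : ‖1 + -(z * W i)‖ = ‖zt i - z‖ / ‖zt i‖ := by
  have h := zt_ne i
  have : 1 + -(z * W i) = (zt i - z) / zt i := by unfold W; field_simp; ring
  rw [this, norm_div]

theorem norm_sq_zt (i : Ix) (x y : ℝ) :
    ‖zt i - (x + y * I)‖ ^ 2 = ((4:ℝ)^i.1 - x)^2 + (bb i + y)^2 := by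
  rw [← Complex.normSq_eq_norm_sq, Complex.normSq_apply]
  simp [zt]
  ring

theorem norm_sq_zt' (i : Ix) (x : ℝ) :
    ‖zt i - x‖ ^ 2 = ((4:ℝ)^i.1 - x)^2 + (bb i)^2 := by
  have := norm_sq_zt i x 0
  simpa using this

/-- block sums -/
theorem sumA (N : ℕ) : ∑ n ∈ Finset.range N, 1 / ((n:ℝ) + 1/2)^2 ≤ 6 - 3 / ((N:ℝ) + 1/2) := by
  induction N with
  | zero => norm_num
  | succ N ih =>
    rw [Finset.sum_range_succ]
    push_cast
    have h1 : 1 / ((N:ℝ) + 1/2)^2 ≤ 3 / ((N:ℝ) + 1/2) - 3 / ((N:ℝ) + 1 + 1/2) := by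
      rw [div_sub_div _ _ (by positivity) (by positivity), div_le_div_iff₀ (by positivity) (by positivity)]
      have : (0:ℝ) ≤ N := by positivity
      nlinarith [mul_nonneg this this, mul_nonneg (mul_nonneg this this) this]
    linarith

theorem sumB (v : ℝ) (hv : 0 < v) (N : ℕ) :
    ∑ n ∈ Finset.range N, v / (v^2 + ((n:ℝ) + 1/2)^2) ≤ 2 - 2 * v / (v + N) := by
  induction N with
  | zero => simp; field_simp; norm_num
  | succ N ih =>
    rw [Finset.sum_range_succ]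
    push_cast
    have hN : (0:ℝ) ≤ N := by positivity
    have h1 : v / (v^2 + ((N:ℝ) + 1/2)^2) ≤ 2 * v / (v + N) - 2 * v / (v + (N + 1)) := by
      rw [div_sub_div _ _ (by positivity) (by positivity), div_le_div_iff₀ (by positivity) (by positivity)]
      have : (v + N) * (v + (N + 1)) ≤ 2 * (v^2 + ((N:ℝ) + 1/2)^2) := by
        nlinarith [sq_nonneg (v - (N + 1/2))]
      nlinarith
    linarith

noncomputable def hh (t : ℝ) (i : Ix) : ℝ := (1 + |(4:ℝ)^i.1 - t|) / (((4:ℝ)^i.1 - t)^2 + (bb i)^2)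

theorem hh_nonneg (t : ℝ) (i : Ix) : 0 ≤ hh t i := by unfold hh; positivity

theorem block_le (t : ℝ) (k : ℕ) : ∑ n : Fin (2^k), hh t ⟨k, n⟩ ≤ 8 := by
  have h0 : ∑ n : Fin (2^k), hh t ⟨k, n⟩ =
      ∑ n ∈ Finset.range (2^k), (1 + |(4:ℝ)^k - t|) / (((4:ℝ)^k - t)^2 + ((n:ℝ) + 1/2)^2) :=
    Fin.sum_univ_eq_sum_range (fun n => (1 + |(4:ℝ)^k - t|) / (((4:ℝ)^k - t)^2 + ((n:ℝ) + 1/2)^2)) _
  rw [h0]
  set u := (4:ℝ)^k - t
  have h1 : ∀ n ∈ Finset.range (2^k), (1 + |u|) / (u^2 + ((n:ℝ) + 1/2)^2) ≤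
      1 / ((n:ℝ) + 1/2)^2 + |u| / (|u|^2 + ((n:ℝ) + 1/2)^2) := by
    intro n _
    rw [add_div, sq_abs]
    gcongr
    nlinarith [sq_nonneg u]
  refine (Finset.sum_le_sum h1).trans ?_
  rw [Finset.sum_add_distrib]
  have h2 := sumA (2^k)
  have h3 : (0:ℝ) ≤ 3 / (((2^k : ℕ):ℝ) + 1/2) := by positivity
  rcases (abs_nonneg u).eq_or_lt with h4 | h4
  · rw [← h4]; simp only [zero_div, Finset.sum_const_zero]
    linarith
  · have h5 := sumB |u| h4 (2^k)
    have h6 : (0:ℝ) ≤ 2 * |u| / (|u| + ((2^k : ℕ):ℝ)) := by positivity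
    linarith

theorem block_le' (t : ℝ) (k : ℕ) (hk : 3/8 * (4:ℝ)^k ≤ |(4:ℝ)^k - t|) :
    ∑ n : Fin (2^k), hh t ⟨k, n⟩ ≤ 10 * ((1:ℝ)/2)^k := by
  have h4 : (1:ℝ) ≤ 4^k := one_le_pow₀ (by norm_num)
  have h1 : ∀ n ∈ (Finset.univ : Finset (Fin (2^k))), hh t ⟨k, n⟩ ≤ 10 / (4:ℝ)^k := by
    intro n _
    unfold hh
    simp only
    set u := (4:ℝ)^k - t
    have hb : 0 ≤ (bb ⟨k, n⟩)^2 := sq_nonneg _
    have hu : 0 < |u| := by linarith
    have hD : 0 < u^2 + (bb ⟨k, n⟩)^2 := by have := bb_pos ⟨k, n⟩; positivity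
    rw [div_le_div_iff₀ hD (by positivity)]
    have e : u^2 = |u|^2 := (sq_abs u).symm
    rw [e]
    nlinarith
  refine (Finset.sum_le_sum h1).trans (le_of_eq ?_)
  rw [Finset.sum_const, Finset.card_univ, Fintype.card_fin, nsmul_eq_mul]
  push_cast
  rw [div_eq_mul_inv, ← inv_pow, mul_left_comm, ← mul_pow]
  norm_num

theorem hh_sum (t : ℝ) (s : Finset Ix) : ∑ i ∈ s, hh t i ≤ 28 := by
  set K := s.sup (fun i => i.1) + 1 with hK
  have hsub : s ⊆ (Finset.range K).sigma (fun k => (Finset.univ : Finset (Fin (2^k)))) := by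
    intro i hi
    rw [Finset.mem_sigma]
    refine ⟨Finset.mem_range.2 ?_, Finset.mem_univ _⟩
    have : i.1 ≤ s.sup (fun i => i.1) := Finset.le_sup (f := fun i : Ix => i.1) hi
    omega
  refine (Finset.sum_le_sum_of_subset_of_nonneg hsub (fun i _ _ => hh_nonneg t i)).trans ?_
  rw [Finset.sum_sigma]
  classical
  have h1 : ∀ k ∈ Finset.range K, ∑ n : Fin (2^k), hh t ⟨k, n⟩ ≤
      10 * ((1:ℝ)/2)^k + (if |(4:ℝ)^k - t| < 3/8 * (4:ℝ)^k then 8 else 0) := by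
    intro k _
    split_ifs with h
    · have := block_le t k
      have : (0:ℝ) ≤ 10 * ((1:ℝ)/2)^k := by positivity
      linarith
    · rw [add_zero]; exact block_le' t k (not_lt.1 h)
  refine (Finset.sum_le_sum h1).trans ?_
  rw [Finset.sum_add_distrib, ← Finset.mul_sum, ← Finset.sum_filter, Finset.sum_const, nsmul_eq_mul]
  have h2 : ∑ k ∈ Finset.range K, ((1:ℝ)/2)^k ≤ 2 := by
    have := Summable.sum_le_tsum (Finset.range K) (fun k _ => by positivity)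
      (summable_geometric_of_lt_one (by norm_num : (0:ℝ) ≤ 1/2) (by norm_num))
    rw [tsum_geometric_of_lt_one (by norm_num) (by norm_num)] at this
    norm_num at this ⊢
    exact this
  have h3 : ((Finset.range K).filter (fun k => |(4:ℝ)^k - t| < 3/8 * (4:ℝ)^k)).card ≤ 1 := by
    rw [Finset.card_le_one]
    intro a ha b hb
    have ha' := (Finset.mem_filter.1 ha).2
    have hb' := (Finset.mem_filter.1 hb).2
    rw [abs_lt] at ha' hb'
    by_contra hab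
    rcases lt_or_gt_of_ne hab with h | h
    · have : (4:ℝ)^(a+1) ≤ 4^b := pow_le_pow_right₀ (by norm_num) (by omega)
      rw [pow_succ] at this
      have : (0:ℝ) < 4^a := by positivity
      linarith [ha'.1, ha'.2, hb'.1, hb'.2]
    · have : (4:ℝ)^(b+1) ≤ 4^a := pow_le_pow_right₀ (by norm_num) (by omega)
      rw [pow_succ] at this
      have : (0:ℝ) < 4^b := by positivity
      linarith [ha'.1, ha'.2, hb'.1, hb'.2]
  have h4 : ((((Finset.range K).filter (fun k => |(4:ℝ)^k - t| < 3/8 * (4:ℝ)^k)).card : ℕ) : ℝ) ≤ 1 := by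
    exact_mod_cast h3
  linarith

theorem shift_factor (x t : ℝ) (i : Ix) :
    ‖1 + -(((t + x : ℝ) : ℂ) * W i)‖ ≤
      Real.exp ((x^2 + 2 * |x|) * hh t i) * ‖1 + -((t : ℂ) * W i)‖ := by
  rw [factor_eq, factor_eq, mul_div_assoc']
  refine div_le_div_of_nonneg_right ?_ (norm_nonneg _)
  apply le_of_sq_le_sq _ (by positivity)
  rw [mul_pow, norm_sq_zt', norm_sq_zt', ← Real.exp_nat_mul]
  set u := (4:ℝ)^i.1 - t with hu
  have hb := bb_pos i
  have hD : 0 < u^2 + (bb i)^2 := by positivity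
  have e1 : (4:ℝ)^i.1 - (t + x) = u - x := by rw [hu]; ring
  rw [e1]
  have h1 : (u - x)^2 + (bb i)^2 = (u^2 + (bb i)^2) * (1 + (x^2 - 2 * u * x) / (u^2 + (bb i)^2)) := by
    field_simp; ring
  rw [h1, mul_comm]
  refine mul_le_mul_of_nonneg_right ?_ hD.le
  have h2 : (x^2 - 2 * u * x) / (u^2 + (bb i)^2) ≤ ((2:ℕ):ℝ) * ((x^2 + 2 * |x|) * hh t i) := by
    unfold hh
    rw [← hu, mul_div_assoc', mul_div_assoc']
    refine div_le_div_of_nonneg_right ?_ hD.le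
    have h3 : -(2 * u * x) ≤ 2 * |u| * |x| := by
      have := neg_abs_le (u * x)
      rw [abs_mul] at this
      linarith
    have := abs_nonneg u
    have := abs_nonneg x
    have := mul_nonneg (abs_nonneg u) (abs_nonneg x)
    have := mul_nonneg (sq_nonneg x) (abs_nonneg u)
    push_cast
    nlinarith [sq_nonneg x]
  calc 1 + (x^2 - 2 * u * x) / (u^2 + (bb i)^2) ≤ Real.exp ((x^2 - 2 * u * x) / (u^2 + (bb i)^2)) := by
        rw [add_comm]; exact Real.add_one_le_exp _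
    _ ≤ _ := Real.exp_le_exp.2 h2

theorem shift_bound (x : ℝ) : ∃ C : ℝ, ∀ t : ℝ, ‖Pr W ((t + x : ℝ) : ℂ)‖ ≤ C * ‖Pr W (t : ℂ)‖ := by
  refine ⟨Real.exp ((x^2 + 2 * |x|) * 28), fun t => ?_⟩
  apply Pr_le W_summable
  intro s
  calc ∏ i ∈ s, ‖1 + -(((t + x : ℝ) : ℂ) * W i)‖ ≤
      ∏ i ∈ s, (Real.exp ((x^2 + 2 * |x|) * hh t i) * ‖1 + -((t : ℂ) * W i)‖) :=
        Finset.prod_le_prod (fun i _ => norm_nonneg _) (fun i _ => shift_factor x t i)
    _ = Real.exp ((x^2 + 2 * |x|) * ∑ i ∈ s, hh t i) * ∏ i ∈ s, ‖1 + -((t : ℂ) * W i)‖ := by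
        rw [Finset.prod_mul_distrib, ← Real.exp_sum, Finset.mul_sum]
    _ ≤ _ := by
        refine mul_le_mul_of_nonneg_right (Real.exp_le_exp.2 ?_) (Finset.prod_nonneg fun i _ => norm_nonneg _)
        exact mul_le_mul_of_nonneg_left (hh_sum t s) (by positivity)

/-- growth when moving up by `i` near `4^k` -/
theorem up_factor (t : ℝ) (i : Ix) : ‖1 + -((t : ℂ) * W i)‖ ≤ ‖1 + -(((t : ℂ) + I) * W i)‖ := by
  rw [factor_eq, factor_eq]
  refine div_le_div_of_nonneg_right ?_ (norm_nonneg _)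
  apply le_of_sq_le_sq _ (by positivity)
  have h := norm_sq_zt i t 1
  rw [norm_sq_zt', show (t : ℂ) + I = t + ((1:ℝ):ℂ) * I by simp, h]
  have := bb_pos i
  nlinarith

theorem up_bound (k : ℕ) (t : ℝ) (ht : |(4:ℝ)^k - t| ≤ 1/2) :
    (2:ℝ)^k * ‖Pr W (t : ℂ)‖ ≤ ‖Pr W ((t : ℂ) + I)‖ := by
  classical
  set s0 : Finset Ix := (Finset.univ : Finset (Fin (2^k))).map ⟨fun n => (⟨k, n⟩ : Ix), fun a b h => by
    simpa using h⟩ with hs0
  apply Pr_ge W_summable _ _ _ s0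
  intro s hs
  rw [← Finset.prod_sdiff hs, ← Finset.prod_sdiff hs]
  have h1 : ∏ i ∈ s \ s0, ‖1 + -((t : ℂ) * W i)‖ ≤ ∏ i ∈ s \ s0, ‖1 + -(((t : ℂ) + I) * W i)‖ :=
    Finset.prod_le_prod (fun i _ => norm_nonneg _) (fun i _ => up_factor t i)
  have h2 : (2:ℝ)^k * ∏ i ∈ s0, ‖1 + -((t : ℂ) * W i)‖ ≤ ∏ i ∈ s0, ‖1 + -(((t : ℂ) + I) * W i)‖ := by
    rw [hs0, Finset.prod_map, Finset.prod_map]
    simp only [Function.Embedding.coeFn_mk]
    simp only [factor_eq, Finset.prod_div_distrib]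
    rw [mul_div_assoc']
    refine div_le_div_of_nonneg_right ?_ (Finset.prod_nonneg fun i _ => norm_nonneg _)
    set u := (4:ℝ)^k - t with hu
    set A : ℕ → ℝ := fun n => Real.sqrt (u^2 + ((n:ℝ) + 1/2)^2) with hA
    have hApos : ∀ n, 0 < A n := fun n => Real.sqrt_pos.2 (by positivity)
    have e1 : ∀ n : Fin (2^k), ‖zt ⟨k, n⟩ - (t:ℂ)‖ = A n := by
      intro n
      rw [hA]
      simp only
      rw [eq_comm, Real.sqrt_eq_iff_mul_self_eq (by positivity) (norm_nonneg _), ← pow_two, norm_sq_zt']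
      rfl
    have e2 : ∀ n : Fin (2^k), ‖zt ⟨k, n⟩ - ((t:ℂ) + I)‖ = A (n+1) := by
      intro n
      rw [hA]
      simp only
      rw [eq_comm, Real.sqrt_eq_iff_mul_self_eq (by positivity) (norm_nonneg _), ← pow_two,
        show (t : ℂ) + I = t + ((1:ℝ):ℂ) * I by simp, norm_sq_zt]
      unfold bb
      push_cast
      ring
    simp only [e1, e2]
    rw [Fin.prod_univ_eq_prod_range (fun n => A n) (2^k), Fin.prod_univ_eq_prod_range (fun n => A (n+1)) (2^k)]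
    have e3 : (∏ n ∈ Finset.range (2^k), A (n+1)) * A 0 = (∏ n ∈ Finset.range (2^k), A n) * A (2^k) := by
      rw [← Finset.prod_range_succ' , ← Finset.prod_range_succ]
    have e4 : (2:ℝ)^k * A 0 ≤ A (2^k) := by
      have h0 : A 0 ≤ 1 := by
        rw [hA]; simp only
        rw [Real.sqrt_le_one]
        have : u^2 ≤ (1/2)^2 := by rw [← sq_abs]; exact pow_le_pow_left₀ (abs_nonneg _) ht 2
        push_cast
        nlinarith
      have h3 : (2:ℝ)^k ≤ A (2^k) := by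
        rw [hA]; simp only
        apply Real.le_sqrt_of_sq_le
        push_cast
        have : (0:ℝ) < 2^k := by positivity
        nlinarith [sq_nonneg u]
      have : (0:ℝ) < 2^k := by positivity
      nlinarith [hApos 0]
    have hP : 0 ≤ ∏ n ∈ Finset.range (2^k), A n := Finset.prod_nonneg fun n _ => (hApos n).le
    have h5 : ((2:ℝ)^k * ∏ n ∈ Finset.range (2^k), A n) * A 0 ≤ (∏ n ∈ Finset.range (2^k), A (n+1)) * A 0 := by
      rw [e3]
      nlinarith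
    exact le_of_mul_le_mul_right h5 (hApos 0)
  have h3 : 0 ≤ ∏ i ∈ s \ s0, ‖1 + -((t : ℂ) * W i)‖ := Finset.prod_nonneg fun i _ => norm_nonneg _
  have h4 : 0 ≤ ∏ i ∈ s0, ‖1 + -((t : ℂ) * W i)‖ := Finset.prod_nonneg fun i _ => norm_nonneg _
  calc (2:ℝ)^k * ((∏ i ∈ s \ s0, ‖1 + -((t : ℂ) * W i)‖) * ∏ i ∈ s0, ‖1 + -((t : ℂ) * W i)‖) =
      (∏ i ∈ s \ s0, ‖1 + -((t : ℂ) * W i)‖) * ((2:ℝ)^k * ∏ i ∈ s0, ‖1 + -((t : ℂ) * W i)‖) := by ring
    _ ≤ _ := by
        apply mul_le_mul h1 h2 (by positivity) (Finset.prod_nonneg fun i _ => norm_nonneg _)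

end Pool.Agent.Helper17.DB
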