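import Mathlib

set_option autoImplicit false
open Filter Topology Complex
open scoped ComplexConjugate

namespace Pool.Agent.Helper17.DB

variable {ι : Type*}

/-- `∏ (1 - z W_i)` -/
noncomputable def Pr (W : ι → ℂ) (z : ℂ) : ℂ := ∏' i, (1 + -(z * W i))

theorem summ {W : ι → ℂ} (hW : Summable (fun i => ‖W i‖)) (z : ℂ) :
    Summable (fun i => ‖-(z * W i)‖) := by
  simp only [norm_neg, norm_mul]
  exact hW.mul_left _

theorem hasProd {W : ι → ℂ} (hW : Summable (fun i => ‖W i‖)) (z : ℂ) :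
    HasProd (fun i => 1 + -(z * W i)) (Pr W z) :=
  (multipliable_one_add_of_summable (summ hW z)).hasProd

theorem tend {W : ι → ℂ} (hW : Summable (fun i => ‖W i‖)) (z : ℂ) :
    Tendsto (fun s : Finset ι => ∏ i ∈ s, ‖1 + -(z * W i)‖) atTop (𝓝 ‖Pr W z‖) := by
  have h := (hasProd hW z)
  have h2 : Tendsto (fun s : Finset ι => ∏ i ∈ s, (1 + -(z * W i))) atTop (𝓝 (Pr W z)) := h
  have h3 := h2.norm
  simpa only [norm_prod] using h3

theorem Pr_diff {W : ι → ℂ} (hW : Summable (fun i => ‖W i‖)) : Differentiable ℂ (Pr W) := by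
  intro z
  have hR : (0:ℝ) < ‖z‖ + 1 := by positivity
  have h := Summable.hasProdLocallyUniformlyOn_one_add (f := fun i (z:ℂ) => -(z * W i))
    (K := Metric.ball 0 (‖z‖+1)) (u := fun i => (‖z‖+1) * ‖W i‖) Metric.isOpen_ball
    (hW.mul_left _) (Eventually.of_forall fun i x hx => by
      rw [norm_neg, norm_mul]
      rw [mem_ball_zero_iff] at hx
      gcongr) (fun i => by fun_prop)
  have h2 : TendstoLocallyUniformlyOn (fun (s : Finset ι) (z : ℂ) => ∏ i ∈ s, (1 + -(z * W i)))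
      (Pr W) atTop (Metric.ball 0 (‖z‖+1)) := h
  have h3 := h2.differentiableOn (Eventually.of_forall fun s => by fun_prop) Metric.isOpen_ball
  exact h3.differentiableAt (Metric.isOpen_ball.mem_nhds (by rw [mem_ball_zero_iff]; linarith))

theorem Pr_ne {W : ι → ℂ} (hW : Summable (fun i => ‖W i‖)) (z : ℂ) (h : ∀ i, 1 + -(z * W i) ≠ 0) :
    Pr W z ≠ 0 := tprod_one_add_ne_zero_of_summable h (summ hW z)

theorem Pr_le {W : ι → ℂ} (hW : Summable (fun i => ‖W i‖)) (z z' : ℂ) (C : ℝ)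
    (h : ∀ s : Finset ι, ∏ i ∈ s, ‖1 + -(z * W i)‖ ≤ C * ∏ i ∈ s, ‖1 + -(z' * W i)‖) :
    ‖Pr W z‖ ≤ C * ‖Pr W z'‖ :=
  le_of_tendsto_of_tendsto' (tend hW z) ((tend hW z').const_mul C) h

theorem Pr_ge {W : ι → ℂ} (hW : Summable (fun i => ‖W i‖)) (z z' : ℂ) (C : ℝ) (s0 : Finset ι)
    (h : ∀ s : Finset ι, s0 ⊆ s → C * ∏ i ∈ s, ‖1 + -(z' * W i)‖ ≤ ∏ i ∈ s, ‖1 + -(z * W i)‖) :
    C * ‖Pr W z'‖ ≤ ‖Pr W z‖ :=
  le_of_tendsto_of_tendsto ((tend hW z').const_mul C) (tend hW z)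
    ((eventually_ge_atTop s0).mono h)

theorem Pr_exp {W : ι → ℂ} (hW : Summable (fun i => ‖W i‖)) (z : ℂ) :
    ‖Pr W z‖ ≤ Real.exp ((∑' i, ‖W i‖) * ‖z‖) := by
  refine le_of_tendsto' (tend hW z) (fun s => ?_)
  calc ∏ i ∈ s, ‖1 + -(z * W i)‖ ≤ ∏ i ∈ s, Real.exp (‖z‖ * ‖W i‖) := by
        apply Finset.prod_le_prod (fun i _ => norm_nonneg _)
        intro i _
        calc ‖1 + -(z * W i)‖ ≤ ‖(1:ℂ)‖ + ‖-(z * W i)‖ := norm_add_le _ _
          _ = ‖z‖ * ‖W i‖ + 1 := by rw [norm_one, norm_neg, norm_mul]; ring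
          _ ≤ _ := Real.add_one_le_exp _
    _ = Real.exp (∑ i ∈ s, ‖z‖ * ‖W i‖) := (Real.exp_sum _ _).symm
    _ ≤ _ := by
        apply Real.exp_le_exp.2
        rw [← Finset.mul_sum, mul_comm]
        exact mul_le_mul_of_nonneg_right (hW.sum_le_tsum s (fun i _ => norm_nonneg _)) (norm_nonneg _)

theorem normSq_diff (z w : ℂ) : ‖1 + -(z * w)‖ ^ 2 - ‖1 + -(conj z * w)‖ ^ 2 = 4 * z.im * w.im := by
  rw [← Complex.normSq_eq_norm_sq, ← Complex.normSq_eq_norm_sq, Complex.normSq_apply, Complex.normSq_apply]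
  simp
  ring

theorem factor_le {z w : ℂ} (hz : 0 ≤ z.im) (hw : 0 ≤ w.im) :
    ‖1 + -(conj z * w)‖ ≤ ‖1 + -(z * w)‖ := by
  have h := normSq_diff z w
  have h2 : 0 ≤ 4 * z.im * w.im := by positivity
  exact le_of_sq_le_sq (by linarith) (norm_nonneg _)

theorem factor_lt {z w : ℂ} (hz : 0 < z.im) (hw : 0 < w.im) :
    ‖1 + -(conj z * w)‖ < ‖1 + -(z * w)‖ := by
  have h := normSq_diff z w
  have h2 : 0 < 4 * z.im * w.im := by positivity
  exact lt_of_pow_lt_pow_left₀ 2 (norm_nonneg _) (by linarith)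

theorem factor_ne {z w : ℂ} (hz : 0 ≤ z.im) (hw : w = 0 ∨ 0 < w.im) : 1 + -(z * w) ≠ 0 := by
  rcases hw with rfl | hw
  · simp
  · intro h
    have h1 : z * w = 1 := by linear_combination -h
    have h2 : z = w⁻¹ := eq_inv_of_mul_eq_one_left h1
    rw [h2, Complex.inv_im] at hz
    have hw0 : w ≠ 0 := by rintro rfl; simp at hw
    have h3 : 0 < Complex.normSq w := Complex.normSq_pos.2 hw0
    have : -w.im / Complex.normSq w < 0 := div_neg_of_neg_of_pos (by linarith) h3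
    linarith

theorem Pr_conj_le {W : ι → ℂ} (hW : Summable (fun i => ‖W i‖)) (hI : ∀ i, 0 ≤ (W i).im) (z : ℂ)
    (hz : 0 ≤ z.im) : ‖Pr W (conj z)‖ ≤ ‖Pr W z‖ := by
  have := Pr_le hW (conj z) z 1 (fun s => by
    rw [one_mul]
    exact Finset.prod_le_prod (fun i _ => norm_nonneg _) (fun i _ => factor_le hz (hI i)))
  rwa [one_mul] at this

end Pool.Agent.Helper17.DB
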