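import Mathlib

set_option autoImplicit false

namespace Pool.Agent.Helper17.EbAux

def ES : Finset (Sym2 (Fin 6)) := Finset.univ.filter (fun e => ¬ e.IsDiag)

def wgt (V' : Finset (Fin 6)) (e : Sym2 (Fin 6)) : ℤ :=
  if ∀ v : Fin 6, v ∈ e → v ∈ V' then 4 else if ∃ v : Fin 6, v ∈ e ∧ v ∈ V' then 1 else 0

def xv (e : Sym2 (Fin 6)) : ℤ := if e = s(0, 1) then -1 else 2

lemma key : ∀ V' : Finset (Fin 6),
    (12 * ((V'.card ^ 2 / 4 : ℕ) : ℤ)) ≤ ∑ e ∈ ES, wgt V' e * xv e := by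
  decide +kernel

lemma mantel (V' : Finset (Fin 6)) (H : SimpleGraph (Fin 6)) [DecidableRel H.Adj]
    (hs : ∀ u v, H.Adj u v → u ∈ V' ∧ v ∈ V') (hc : H.CliqueFree 3) :
    H.edgeFinset.card ≤ V'.card ^ 2 / 4 := by
  classical
  have h1 : H.support ⊆ (↑V' : Set (Fin 6)) := by
    intro u hu
    obtain ⟨v, hv⟩ := hu
    exact (hs u v hv).1
  have h2 := SimpleGraph.card_edgeFinset_induce_of_support_subset (G := H) (s := (↑V' : Set (Fin 6))) h1
  have h3 : (H.induce (↑V' : Set (Fin 6))).CliqueFree (2 + 1) :=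
    SimpleGraph.CliqueFree.comap ⟨(SimpleGraph.Embedding.induce _).toCopy⟩ hc
  have h4 := h3.card_edgeFinset_le
  simp only at h4
  have h5 : Fintype.card (↑V' : Set (Fin 6)) = V'.card := by simp
  rw [h5] at h4
  have h6 : H.edgeFinset.card ≤ (V'.card ^ 2 - (V'.card % 2) ^ 2) * (2 - 1) / (2 * 2) + (V'.card % 2).choose 2 := by
    rw [← h2]
    convert h4
  have h7 : (V'.card % 2).choose 2 = 0 := Nat.choose_eq_zero_of_lt (Nat.mod_lt _ (by norm_num))
  rw [h7, add_zero] at h6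
  refine h6.trans ?_
  apply Nat.div_le_div_right
  simp

end Pool.Agent.Helper17.EbAux
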