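import Mathlib

/-!
Plane geometry of the flat four-bar linkage with sides `3, 2, 1, 2`.
-/

namespace Pool.Agent.Helper17.FourBar

open Real

/-- The function `g(σ) = √(3 (1 - σ) / (4 - 3 σ))`. -/
noncomputable def g (x : ℝ) : ℝ := √(3 * (1 - x) / (4 - 3 * x))

theorem g_pos {x : ℝ} (hx : x < 1) : 0 < g x := by
  unfold g
  apply sqrt_pos.2
  apply div_pos <;> linarith

theorem g_sq {x : ℝ} (hx : x < 1) : g x ^ 2 = 3 * (1 - x) / (4 - 3 * x) := by
  unfold g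
  rw [sq_sqrt]
  apply div_nonneg <;> linarith

theorem g_sq_mul {x : ℝ} (hx : x < 1) : g x ^ 2 * (4 - 3 * x) = 3 * (1 - x) := by
  rw [g_sq hx]
  have : 4 - 3 * x ≠ 0 := by linarith
  field_simp

theorem g_le_one {x : ℝ} (hx : x < 1) : g x ≤ 1 := by
  have h := g_sq_mul hx
  have hp := g_pos hx
  by_contra hcon
  push Not at hcon
  have h1 : 1 < g x ^ 2 := by nlinarith
  have h2 : 0 < 4 - 3 * x := by linarith
  nlinarith

theorem g_antitone {x y : ℝ} (hxy : x ≤ y) (hy : y < 1) : g y ≤ g x := by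
  unfold g
  apply sqrt_le_sqrt
  rw [div_le_div_iff₀ (by linarith) (by linarith)]
  nlinarith

/-- `s(τ)`. -/
noncomputable def sF (τ : ℝ) : ℝ := (|τ| + τ * g |τ|) / 2

/-- `t(τ)`. -/
noncomputable def tF (τ : ℝ) : ℝ := (|τ| - τ * g |τ|) / 2

theorem sF_add_tF (τ : ℝ) : sF τ + tF τ = |τ| := by unfold sF tF; ring

theorem sF_sub_tF (τ : ℝ) : sF τ - tF τ = τ * g |τ| := by unfold sF tF; ring

theorem abs_mul_g_le {τ : ℝ} (h : |τ| < 1) : |τ * g (|τ|)| ≤ |τ| := by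
  rw [abs_mul, abs_of_pos (g_pos h)]
  have := g_le_one h
  nlinarith [abs_nonneg τ]

theorem sF_nonneg {τ : ℝ} (h : |τ| < 1) : 0 ≤ sF τ := by
  have := abs_le.1 (abs_mul_g_le h)
  unfold sF; linarith [this.1]

theorem tF_nonneg {τ : ℝ} (h : |τ| < 1) : 0 ≤ tF τ := by
  have := abs_le.1 (abs_mul_g_le h)
  unfold tF; linarith [this.2]

theorem sF_le {τ : ℝ} (h : |τ| < 1) : sF τ ≤ 1 := by
  have := tF_nonneg h
  have := sF_add_tF τ
  linarith

theorem tF_le {τ : ℝ} (h : |τ| < 1) : tF τ ≤ 1 := by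
  have := sF_nonneg h
  have := sF_add_tF τ
  linarith

/-- The basic relation. -/
theorem relation {τ : ℝ} (h : |τ| < 1) :
    sF τ * (2 - sF τ) * (tF τ * (2 - tF τ)) = ((sF τ + tF τ + 2 * (sF τ * tF τ)) / 2) ^ 2 := by
  have h1 := sF_add_tF τ
  have h2 := sF_sub_tF τ
  have h3 := g_sq_mul h
  set s := sF τ
  set t := tF τ
  -- `(s - t)^2 (4 - 3 (s + t)) = 3 (s + t)^2 (1 - (s + t))`
  have h4 : (s - t) ^ 2 * (4 - 3 * (s + t)) = 3 * (s + t) ^ 2 * (1 - (s + t)) := by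
    rw [h1, h2, mul_pow]
    calc τ ^ 2 * g |τ| ^ 2 * (4 - 3 * |τ|) = τ ^ 2 * (g |τ| ^ 2 * (4 - 3 * |τ|)) := by ring
      _ = 3 * |τ| ^ 2 * (1 - |τ|) := by rw [h3, sq_abs]; ring
  nlinarith [h4]

/-- The placement `Q(τ)` in the complex plane. -/
noncomputable def Qc (τ : ℝ) : Fin 4 → ℂ :=
  ![0, 3, ⟨1 + 2 * sF τ, 2 * √(sF τ * (2 - sF τ))⟩, ⟨2 - 2 * tF τ, 2 * √(tF τ * (2 - tF τ))⟩]

theorem Qc0 (τ : ℝ) : Qc τ 0 = 0 := rfl
theorem Qc1 (τ : ℝ) : Qc τ 1 = 3 := rfl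
theorem Qc2 (τ : ℝ) : Qc τ 2 = ⟨1 + 2 * sF τ, 2 * √(sF τ * (2 - sF τ))⟩ := rfl
theorem Qc3 (τ : ℝ) : Qc τ 3 = ⟨2 - 2 * tF τ, 2 * √(tF τ * (2 - tF τ))⟩ := rfl

theorem Qc_zero : Qc 0 = ![0, 3, 1, 2] := by
  have h1 : sF 0 = 0 := by simp [sF]
  have h2 : tF 0 = 0 := by simp [tF]
  funext i
  fin_cases i
  · rfl
  · rfl
  · simp [Qc, h1, Complex.ext_iff]
  · simp [Qc, h2, Complex.ext_iff]

theorem continuous_sF : ContinuousOn sF {τ | |τ| < 1} := by
  unfold sF g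
  apply ContinuousOn.div_const
  apply ContinuousOn.add continuous_abs.continuousOn
  apply ContinuousOn.mul continuousOn_id
  apply ContinuousOn.sqrt
  apply ContinuousOn.div
  · fun_prop
  · fun_prop
  · intro x hx
    have : |x| < 1 := hx
    linarith

theorem continuous_tF : ContinuousOn tF {τ | |τ| < 1} := by
  have h : tF = fun τ => |τ| - sF τ := by
    funext τ; linarith [sF_add_tF τ]
  rw [h]
  exact continuous_abs.continuousOn.sub continuous_sF

theorem continuous_Qc : ContinuousOn Qc {τ | |τ| < 1} := by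
  have hs := continuous_sF
  have ht := continuous_tF
  rw [continuousOn_pi]
  intro i
  have e1 : ContinuousOn (fun τ => ((1 + 2 * sF τ : ℝ) : ℂ)
      + ((2 * √(sF τ * (2 - sF τ)) : ℝ) : ℂ) * Complex.I) {τ | |τ| < 1} := by
    apply ContinuousOn.add
    · exact Complex.continuous_ofReal.comp_continuousOn
        (continuousOn_const.add (continuousOn_const.mul hs))
    · apply ContinuousOn.mul _ continuousOn_const
      exact Complex.continuous_ofReal.comp_continuousOn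
        (continuousOn_const.mul (hs.mul (continuousOn_const.sub hs)).sqrt)
  have e2 : ContinuousOn (fun τ => ((2 - 2 * tF τ : ℝ) : ℂ)
      + ((2 * √(tF τ * (2 - tF τ)) : ℝ) : ℂ) * Complex.I) {τ | |τ| < 1} := by
    apply ContinuousOn.add
    · exact Complex.continuous_ofReal.comp_continuousOn
        (continuousOn_const.sub (continuousOn_const.mul ht))
    · apply ContinuousOn.mul _ continuousOn_const
      exact Complex.continuous_ofReal.comp_continuousOn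
        (continuousOn_const.mul (ht.mul (continuousOn_const.sub ht)).sqrt)
  fin_cases i
  · exact continuousOn_const
  · exact continuousOn_const
  · refine e1.congr fun τ _ => ?_
    change Qc τ 2 = _
    rw [Qc2]
    apply Complex.ext <;> simp
  · refine e2.congr fun τ _ => ?_
    change Qc τ 3 = _
    rw [Qc3]
    apply Complex.ext <;> simp

theorem sq_sqrt_s {τ : ℝ} (h : |τ| < 1) :
    √(sF τ * (2 - sF τ)) ^ 2 = sF τ * (2 - sF τ) :=
  sq_sqrt (mul_nonneg (sF_nonneg h) (by linarith [sF_le h]))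

theorem sq_sqrt_t {τ : ℝ} (h : |τ| < 1) :
    √(tF τ * (2 - tF τ)) ^ 2 = tF τ * (2 - tF τ) :=
  sq_sqrt (mul_nonneg (tF_nonneg h) (by linarith [tF_le h]))

theorem sqrt_mul_sqrt' {τ : ℝ} (h : |τ| < 1) :
    √(sF τ * (2 - sF τ)) * √(tF τ * (2 - tF τ)) = (sF τ + tF τ + 2 * (sF τ * tF τ)) / 2 := by
  rw [← sqrt_mul (mul_nonneg (sF_nonneg h) (by linarith [sF_le h])), relation h]
  apply sqrt_sq
  have := sF_nonneg h
  have := tF_nonneg h
  positivity

theorem dist01 (τ : ℝ) : dist (Qc τ 0) (Qc τ 1) = 3 := by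
  rw [Qc0, Qc1]; simp

theorem dist12 {τ : ℝ} (h : |τ| < 1) : dist (Qc τ 1) (Qc τ 2) = 2 := by
  rw [Qc1, Qc2, Complex.dist_eq_re_im]
  have h1 : ((3 : ℂ).re - (1 + 2 * sF τ)) ^ 2 + ((3 : ℂ).im - 2 * √(sF τ * (2 - sF τ))) ^ 2
      = 2 ^ 2 := by
    have := sq_sqrt_s h
    simp only [Complex.re_ofNat, Complex.im_ofNat]
    nlinarith
  simp only
  rw [h1]
  exact sqrt_sq (by norm_num)

theorem dist23 {τ : ℝ} (h : |τ| < 1) : dist (Qc τ 2) (Qc τ 3) = 1 := by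
  rw [Qc2, Qc3, Complex.dist_eq_re_im]
  simp only
  have h1 : (1 + 2 * sF τ - (2 - 2 * tF τ)) ^ 2
      + (2 * √(sF τ * (2 - sF τ)) - 2 * √(tF τ * (2 - tF τ))) ^ 2 = 1 := by
    have e1 := sq_sqrt_s h
    have e2 := sq_sqrt_t h
    have e3 := sqrt_mul_sqrt' h
    nlinarith
  rw [h1, sqrt_one]

theorem dist30 {τ : ℝ} (h : |τ| < 1) : dist (Qc τ 3) (Qc τ 0) = 2 := by
  rw [Qc3, Qc0, Complex.dist_eq_re_im]
  simp only [Complex.zero_re, Complex.zero_im, sub_zero]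
  have h1 : (2 - 2 * tF τ) ^ 2 + (2 * √(tF τ * (2 - tF τ))) ^ 2 = 2 ^ 2 := by
    have e2 := sq_sqrt_t h
    nlinarith
  rw [h1]
  exact sqrt_sq (by norm_num)

theorem dist02 {τ : ℝ} (h : |τ| < 1) : dist (Qc τ 0) (Qc τ 2) = √(1 + 12 * sF τ) := by
  rw [Qc2, Qc0, Complex.dist_eq_re_im]
  simp only [Complex.zero_re, Complex.zero_im, zero_sub]
  congr 1
  have e2 := sq_sqrt_s h
  nlinarith

theorem dist13 {τ : ℝ} (h : |τ| < 1) : dist (Qc τ 1) (Qc τ 3) = √(1 + 12 * tF τ) := by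
  rw [Qc3, Qc1, Complex.dist_eq_re_im]
  simp only [Complex.re_ofNat, Complex.im_ofNat, zero_sub]
  congr 1
  have e2 := sq_sqrt_t h
  nlinarith

/-- `s` is monotone on `[0, 1/2]`. -/
theorem sF_mono {x y : ℝ} (hx : 0 ≤ x) (hxy : x ≤ y) (hy : y ≤ 1 / 2) : sF x ≤ sF y := by
  have hx1 : x < 1 := by linarith
  have hy1 : y < 1 := by linarith
  have hy0 : 0 ≤ y := hx.trans hxy
  unfold sF
  rw [abs_of_nonneg hx, abs_of_nonneg hy0]
  have hw : x * g x ≤ y * g y := by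
    have hgx := g_pos hx1
    have hgy := g_pos hy1
    apply le_of_sq_le_sq _ (by positivity)
    rw [mul_pow, mul_pow, g_sq hx1, g_sq hy1]
    rw [← mul_div_assoc, ← mul_div_assoc, div_le_div_iff₀ (by linarith) (by linarith)]
    -- polynomial inequality
    have key : 0 ≤ (y - x) * (4 * (x + y) - 4 * (x ^ 2 + x * y + y ^ 2) - 3 * (x * y)
        + 3 * (x * y) * (x + y)) := by
      apply mul_nonneg (by linarith)
      nlinarith [mul_nonneg hx hy0, mul_nonneg hx (sub_nonneg.2 hy),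
        mul_nonneg hy0 (sub_nonneg.2 hy), mul_nonneg hx (sub_nonneg.2 (hxy.trans hy)),
        mul_nonneg (mul_nonneg hx hy0) (add_nonneg hx hy0)]
    nlinarith [key]
  linarith

/-- `t` is monotone on `[0, 1/2]`. -/
theorem tF_mono {x y : ℝ} (hx : 0 ≤ x) (hxy : x ≤ y) (hy : y ≤ 1 / 2) : tF x ≤ tF y := by
  have hx1 : x < 1 := by linarith
  have hy1 : y < 1 := by linarith
  have hy0 : 0 ≤ y := hx.trans hxy
  unfold tF
  rw [abs_of_nonneg hx, abs_of_nonneg hy0]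
  have h1 := g_antitone hxy hy1
  have h2 := g_le_one hx1
  have h3 := g_pos hy1
  nlinarith

/-- Normal form: real version. -/
theorem normal_form {a b c d : ℝ} (h1 : (3 - a) ^ 2 + b ^ 2 = 4)
    (h2 : (a - c) ^ 2 + (b - d) ^ 2 = 1) (h3 : c ^ 2 + d ^ 2 = 4)
    {s t : ℝ} (hs : a ^ 2 + b ^ 2 = 1 + 12 * s) (ht : (3 - c) ^ 2 + d ^ 2 = 1 + 12 * t)
    (hst : s + t < 1 / 2) :
    a = 1 + 2 * s ∧ c = 2 - 2 * t ∧ b ^ 2 = 4 * (s * (2 - s)) ∧ d ^ 2 = 4 * (t * (2 - t)) ∧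
    0 ≤ s ∧ 0 ≤ t ∧ 0 ≤ b * d ∧ |(s - t) / g (s + t)| = s + t ∧
    sF ((s - t) / g (s + t)) = s ∧ tF ((s - t) / g (s + t)) = t := by
  have ha : a = 1 + 2 * s := by nlinarith
  have hc : c = 2 - 2 * t := by nlinarith
  subst ha hc
  have hb : b ^ 2 = 4 * (s * (2 - s)) := by nlinarith
  have hd : d ^ 2 = 4 * (t * (2 - t)) := by nlinarith
  have hs0 : 0 ≤ s := by
    by_contra h
    push Not at h
    nlinarith [sq_nonneg b]
  have ht0 : 0 ≤ t := by
    by_contra h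
    push Not at h
    nlinarith [sq_nonneg d]
  have hbd : b * d = 2 * (s + t) + 4 * (s * t) := by nlinarith
  have hrel : (s - t) ^ 2 * (4 - 3 * (s + t)) = 3 * (s + t) ^ 2 * (1 - (s + t)) := by
    have e : (b * d) ^ 2 = 16 * (s * (2 - s)) * (t * (2 - t)) := by
      rw [mul_pow, hb, hd]; ring
    rw [hbd] at e
    nlinarith
  have hlt : s + t < 1 := by linarith
  have hg := g_pos hlt
  have habs : |(s - t) / g (s + t)| = s + t := by
    rw [abs_div, abs_of_pos hg, div_eq_iff hg.ne']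
    have h4 : 4 - 3 * (s + t) ≠ 0 := by linarith
    have hsq : (s - t) ^ 2 = ((s + t) * g (s + t)) ^ 2 := by
      rw [mul_pow, g_sq hlt, ← mul_div_assoc, eq_div_iff h4]
      linarith [hrel]
    have := (sq_eq_sq_iff_abs_eq_abs _ _).1 hsq
    rw [this]
    exact abs_of_nonneg (by positivity)
  refine ⟨rfl, rfl, hb, hd, hs0, ht0, by rw [hbd]; positivity, habs, ?_, ?_⟩
  · unfold sF
    rw [habs, div_mul_cancel₀ _ hg.ne']; ring
  · unfold tF
    rw [habs, div_mul_cancel₀ _ hg.ne']; ring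

/-- Normal form: every placement with side lengths `3, 2, 1, 2` close to the flat one is congruent
to some `Q(τ)`. -/
theorem exists_isometry {q : Fin 4 → ℂ} (h01 : dist (q 0) (q 1) = 3) (h12 : dist (q 1) (q 2) = 2)
    (h23 : dist (q 2) (q 3) = 1) (h30 : dist (q 3) (q 0) = 2) {s t : ℝ}
    (hs : dist (q 0) (q 2) ^ 2 = 1 + 12 * s) (ht : dist (q 1) (q 3) ^ 2 = 1 + 12 * t)
    (hst : s + t < 1 / 2) :
    |(s - t) / g (s + t)| = s + t ∧ 0 ≤ s ∧ 0 ≤ t ∧
      ∃ T : ℂ ≃ᵢ ℂ, ∀ i, T (q i) = Qc ((s - t) / g (s + t)) i := by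
  -- the first isometry
  have hu : ‖(starRingEnd ℂ) (q 1 - q 0) / 3‖ = 1 := by
    rw [norm_div, RCLike.norm_conj, ← dist_eq_norm, dist_comm, h01]
    simp
  let u : Circle := ⟨(starRingEnd ℂ) (q 1 - q 0) / 3, by
    exact mem_sphere_zero_iff_norm.2 hu⟩
  let T1 : ℂ ≃ᵢ ℂ := (IsometryEquiv.subRight (q 0)).trans (rotation u).toIsometryEquiv
  have hT1 : ∀ z, T1 z = (starRingEnd ℂ) (q 1 - q 0) / 3 * (z - q 0) := fun z => rfl
  have e0 : T1 (q 0) = 0 := by rw [hT1]; simp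
  have e1 : T1 (q 1) = 3 := by
    rw [hT1]
    have h : (starRingEnd ℂ) (q 1 - q 0) * (q 1 - q 0) = 9 := by
      rw [mul_comm, Complex.mul_conj, Complex.normSq_eq_norm_sq, ← dist_eq_norm, dist_comm, h01]
      norm_num
    linear_combination h / 3
  have d12 : dist (T1 (q 1)) (T1 (q 2)) = 2 := by rw [T1.dist_eq, h12]
  have d23 : dist (T1 (q 2)) (T1 (q 3)) = 1 := by rw [T1.dist_eq, h23]
  have d30 : dist (T1 (q 3)) (T1 (q 0)) = 2 := by rw [T1.dist_eq, h30]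
  have d02 : dist (T1 (q 0)) (T1 (q 2)) ^ 2 = 1 + 12 * s := by rw [T1.dist_eq, hs]
  have d13 : dist (T1 (q 1)) (T1 (q 3)) ^ 2 = 1 + 12 * t := by rw [T1.dist_eq, ht]
  rw [e1] at d12 d13
  rw [e0] at d30 d02
  set c := T1 (q 2) with hc
  set d := T1 (q 3) with hd
  have sq_dist : ∀ z w : ℂ, dist z w ^ 2 = (z.re - w.re) ^ 2 + (z.im - w.im) ^ 2 := by
    intro z w
    rw [Complex.dist_eq_re_im, sq_sqrt (by positivity)]
  have r1 : (3 - c.re) ^ 2 + c.im ^ 2 = 4 := by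
    have := sq_dist 3 c
    rw [d12] at this
    simp at this
    linarith
  have r2 : (c.re - d.re) ^ 2 + (c.im - d.im) ^ 2 = 1 := by
    have := sq_dist c d
    rw [d23] at this
    linarith
  have r3 : d.re ^ 2 + d.im ^ 2 = 4 := by
    have := sq_dist d 0
    rw [d30] at this
    simp at this
    linarith
  have r4 : c.re ^ 2 + c.im ^ 2 = 1 + 12 * s := by
    have := sq_dist 0 c
    rw [d02] at this
    simp at this
    linarith
  have r5 : (3 - d.re) ^ 2 + d.im ^ 2 = 1 + 12 * t := by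
    have := sq_dist 3 d
    rw [d13] at this
    simp at this
    linarith
  obtain ⟨n1, n2, n3, n4, n5, n6, n7, n8, n9, n10⟩ := normal_form r1 r2 r3 r4 r5 hst
  refine ⟨n8, n5, n6, ?_⟩
  set τ := (s - t) / g (s + t) with hτ
  have key : ∀ c' d' : ℂ, c'.re = 1 + 2 * s → d'.re = 2 - 2 * t → c'.im ^ 2 = 4 * (s * (2 - s)) →
      d'.im ^ 2 = 4 * (t * (2 - t)) → 0 ≤ c'.im → 0 ≤ d'.im → c' = Qc τ 2 ∧ d' = Qc τ 3 := by
    intro c' d' k1 k2 k3 k4 k5 k6
    have j1 : c'.im = 2 * √(s * (2 - s)) := by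
      rw [← sqrt_sq k5, k3, sqrt_mul (by norm_num)]
      congr 1
      rw [show (4 : ℝ) = 2 ^ 2 by norm_num]
      exact sqrt_sq (by norm_num)
    have j2 : d'.im = 2 * √(t * (2 - t)) := by
      rw [← sqrt_sq k6, k4, sqrt_mul (by norm_num)]
      congr 1
      rw [show (4 : ℝ) = 2 ^ 2 by norm_num]
      exact sqrt_sq (by norm_num)
    rw [Qc2, Qc3, n9, n10]
    exact ⟨Complex.ext k1 j1, Complex.ext k2 j2⟩
  rcases mul_nonneg_iff.1 n7 with ⟨p1, p2⟩ | ⟨p1, p2⟩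
  · obtain ⟨k1, k2⟩ := key c d n1 n2 n3 n4 p1 p2
    refine ⟨T1, fun i => ?_⟩
    fin_cases i
    · exact e0
    · exact e1
    · exact k1
    · exact k2
  · obtain ⟨k1, k2⟩ := key ((starRingEnd ℂ) c) ((starRingEnd ℂ) d) (by simpa using n1)
      (by simpa using n2) (by simpa using n3) (by simpa using n4) (by simpa using p1)
      (by simpa using p2)
    refine ⟨T1.trans Complex.conjLIE.toIsometryEquiv, fun i => ?_⟩
    fin_cases i
    · change (starRingEnd ℂ) (T1 (q 0)) = _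
      rw [e0]; simp [Qc]
    · change (starRingEnd ℂ) (T1 (q 1)) = _
      rw [e1]
      change (starRingEnd ℂ) 3 = 3
      exact Complex.conj_ofNat 3
    · exact k1
    · exact k2

end Pool.Agent.Helper17.FourBar
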