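import Mathlib

set_option autoImplicit false
open Set Finset

namespace Pool.Agent.Helper17.FunEq

/-! ### Pascal arrays -/

theorem pascal_sum (μ : ℕ → ℕ → ℝ) (n : ℕ) : ∀ p q : ℕ,
    (∀ i j, i + j < n → μ (p+i) (q+j) = μ (p+i+1) (q+j) + μ (p+i) (q+j+1)) →
    μ p q = ∑ ij ∈ antidiagonal n, (n.choose ij.1 : ℝ) * μ (p + ij.1) (q + ij.2) := by
  induction n with
  | zero => intro p q _; simp
  | succ n ih =>
    intro p q h
    have h0 := h 0 0 (by omega)
    simp only [add_zero] at h0
    rw [h0, Finset.sum_antidiagonal_choose_succ_mul (fun i j => μ (p+i) (q+j)) n, add_comm]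
    congr 1
    · rw [ih p (q+1)]
      · apply Finset.sum_congr rfl
        intro ij _
        congr 2
        omega
      · intro i j hij
        have := h i (j+1) (by omega)
        rw [show q + (j+1) = q + 1 + j by omega] at this
        exact this
    · rw [ih (p+1) q]
      · apply Finset.sum_congr rfl
        intro ij hij
        rw [Finset.HasAntidiagonal.mem_antidiagonal] at hij
        rw [Nat.choose_symm_of_eq_add (n := n) (a := ij.1) (b := ij.2) (by omega)]
        congr 2
        omega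
      · intro i j hij
        have := h (i+1) j (by omega)
        rw [show p + (i+1) = p + 1 + i by omega] at this
        exact this

theorem term_ineq (A t u N : ℝ) (hA : 0 ≤ A) (hN : 0 < N) :
    -A / (4 * N) ≤ t^2 * A - 2 * t * (A * u) + A * (u * (u - (1 - u) / N)) := by
  have h1 : t^2 * A - 2 * t * (A * u) + A * (u * (u - (1 - u) / N)) + A / (4 * N) =
      A * ((t - u)^2 + (u - 1/2)^2 / N) := by
    field_simp
    ring
  have h2 : 0 ≤ A * ((t - u)^2 + (u - 1/2)^2 / N) := by positivity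
  rw [neg_div]
  linarith

theorem LCN (μ : ℕ → ℕ → ℝ) (m : ℕ)
    (hrel : ∀ p q, p + q < m + 2 → μ p q = μ (p+1) q + μ p (q+1))
    (hpos : ∀ p q, p + q = m + 2 → 0 ≤ μ p q) (t : ℝ) :
    -(μ 0 0) / (4 * (m + 1)) ≤ t^2 * μ 0 0 - 2 * t * μ 1 0 + μ 2 0 := by
  have e0 := pascal_sum μ (m+2) 0 0 (by
    intro i j hij; simpa using hrel i j (by omega))
  have e1 := pascal_sum μ (m+1) 1 0 (by
    intro i j hij
    have := hrel (1+i) j (by omega)
    simpa using this)
  have e2 := pascal_sum μ m 2 0 (by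
    intro i j hij
    have := hrel (2+i) j (by omega)
    simpa using this)
  simp only [zero_add] at e0 e1 e2
  rw [Finset.Nat.sum_antidiagonal_succ, Finset.Nat.sum_antidiagonal_succ] at e0
  rw [Finset.Nat.sum_antidiagonal_succ] at e1
  simp only [Nat.choose_zero_right, Nat.cast_one, one_mul, add_zero, zero_add] at e0 e1
  have hX : 0 ≤ μ 0 (m + 1 + 1) := hpos _ _ (by omega)
  have hY : 0 ≤ μ 1 (m + 1) := hpos _ _ (by omega)
  have hm : (0:ℝ) < m + 1 := by positivity
  have hm2 : (0:ℝ) < m + 2 := by positivity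
  have key : ∀ ij ∈ antidiagonal m,
      -(((m+1+1).choose (ij.1+1+1) : ℝ) * μ (ij.1+1+1) ij.2) / (4 * (m+1)) ≤
      t^2 * (((m+1+1).choose (ij.1+1+1) : ℝ) * μ (ij.1+1+1) ij.2)
        - 2 * t * (((m+1).choose (ij.1+1) : ℝ) * μ (1 + (ij.1 + 1)) ij.2)
        + ((m.choose ij.1 : ℝ) * μ (2 + ij.1) ij.2) := by
    intro ij hij
    rw [Finset.HasAntidiagonal.mem_antidiagonal] at hij
    have hL : 0 ≤ μ (ij.1+1+1) ij.2 := hpos _ _ (by omega)
    rw [show 1 + (ij.1 + 1) = ij.1 + 1 + 1 by ring, show 2 + ij.1 = ij.1 + 1 + 1 by ring]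
    have c1 : ((m:ℝ) + 1 + 1) * ((m+1).choose (ij.1+1) : ℝ) =
        ((m+1+1).choose (ij.1+1+1) : ℝ) * ((ij.1:ℝ)+1+1) := by
      have := Nat.add_one_mul_choose_eq (m+1) (ij.1+1)
      exact_mod_cast this
    have c2 : ((m:ℝ) + 1) * (m.choose ij.1 : ℝ) = ((m+1).choose (ij.1+1) : ℝ) * ((ij.1:ℝ)+1) := by
      have := Nat.add_one_mul_choose_eq m ij.1
      exact_mod_cast this
    set L := μ (ij.1+1+1) ij.2
    set A := ((m+1+1).choose (ij.1+1+1) : ℝ)
    set B := ((m+1).choose (ij.1+1) : ℝ)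
    set C := (m.choose ij.1 : ℝ)
    have hA : 0 ≤ A := by positivity
    have hB : B = A * (((ij.1:ℝ)+2)/(m+2)) := by
      field_simp; linarith
    have hC : C = A * ((((ij.1:ℝ)+2)/(m+2)) * ((((ij.1:ℝ)+2)/(m+2)) - (1 - (((ij.1:ℝ)+2)/(m+2))) / (m+1))) := by
      have : C = B * ((ij.1:ℝ)+1)/(m+1) := by field_simp; linarith
      rw [this, hB]
      field_simp
      ring
    have := term_ineq (A * L) t (((ij.1:ℝ)+2)/(m+2)) (m+1) (mul_nonneg hA hL) hm
    rw [hC, hB]
    calc -(A * L) / (4 * (m+1)) ≤ _ := this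
      _ = _ := by ring
  have hsum := Finset.sum_le_sum key
  rw [Finset.sum_add_distrib, Finset.sum_sub_distrib, ← Finset.sum_div, ← Finset.mul_sum,
    ← Finset.mul_sum, Finset.sum_neg_distrib] at hsum
  set S0 := ∑ ij ∈ antidiagonal m, ((m+1+1).choose (ij.1+1+1) : ℝ) * μ (ij.1+1+1) ij.2
  set S1 := ∑ ij ∈ antidiagonal m, ((m+1).choose (ij.1+1) : ℝ) * μ (1 + (ij.1+1)) ij.2
  set S2 := ∑ ij ∈ antidiagonal m, (m.choose ij.1 : ℝ) * μ (2 + ij.1) ij.2
  have hch : ((m+1+1).choose 1 : ℝ) = m + 2 := by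
    rw [Nat.choose_one_right]; push_cast; ring
  rw [hch] at e0
  rw [e0, e1, e2]
  set X := μ 0 (m+1+1)
  set Y := μ 1 (m+1)
  have hX2 : -X / (4 * (m+1)) ≤ t^2 * X := by
    have := term_ineq X t 0 (m+1) hX hm
    simpa using this
  have hY2 : -((m+2) * Y) / (4 * (m+1)) ≤ t^2 * ((m+2) * Y) - 2 * t * Y := by
    have := term_ineq ((m+2) * Y) t (1/(m+2)) (m+1) (by positivity) hm
    refine this.trans (le_of_eq ?_)
    field_simp
    ring
  have : -(X + ((m+2) * Y + S0)) / (4 * ((m:ℝ)+1)) =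
      -X / (4 * (m+1)) + -((m+2) * Y) / (4 * (m+1)) + -S0 / (4 * (m+1)) := by ring
  rw [this]
  linarith

theorem limit_ineq (c w : ℝ) (h : ∀ m : ℕ, -c / (4 * ((m:ℝ) + 1)) ≤ w) : 0 ≤ w := by
  by_contra hw
  push Not at hw
  obtain ⟨m, hm⟩ := exists_nat_gt (|c| / (-w))
  have h1 := h m
  have hw2 : 0 < -w := by linarith
  rw [div_lt_iff₀ hw2] at hm
  rw [div_le_iff₀ (by positivity)] at h1
  have := le_abs_self c
  have hm0 : (0:ℝ) ≤ m := by positivity
  nlinarith


/-! ### expanding region -/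

abbrev gg (f : ℝ → ℝ) : ℝ → ℝ := fun x => x + f x

structure Exp (f : ℝ → ℝ) (z : ℝ) : Prop where
  cont : Continuous f
  zero : f 0 = 0
  pos : ∀ x, 0 ≤ x → x ≤ z → f x ≤ -x
  neg : ∀ x, -z ≤ x → x ≤ 0 → -x ≤ f x
  comm : ∀ x, |x| ≤ z → f (x + f x) = f x + f (f x)

theorem comm_symm {f : ℝ → ℝ} {x : ℝ} (h : f (-x + f (-x)) = f (-x) + f (f (-x))) :
    (fun x => -f (-x)) (x + (fun x => -f (-x)) x) =
      (fun x => -f (-x)) x + (fun x => -f (-x)) ((fun x => -f (-x)) x) := by
  simp only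
  rw [show -(x + -f (-x)) = -x + f (-x) by ring, h, neg_neg]
  ring

theorem Exp.symm {f : ℝ → ℝ} {z : ℝ} (h : Exp f z) : Exp (fun x => -f (-x)) z where
  cont := by have := h.cont; fun_prop
  zero := by simp [h.zero]
  pos := by
    intro x h0 h1
    have := h.neg (-x) (by linarith) (by linarith)
    linarith
  neg := by
    intro x h0 h1
    have := h.pos (-x) (by linarith) (by linarith)
    linarith
  comm := by
    intro x hx
    exact comm_symm (h.comm (-x) (by rwa [abs_neg]))

theorem Exp.sgn {f : ℝ → ℝ} {z : ℝ} (h : Exp f z) (τ u : ℝ) (hτ : τ = 1 ∨ τ = -1) (hu : |u| ≤ z)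
    (h0 : 0 ≤ τ * u) : τ * u ≤ -(τ * f u) := by
  rw [abs_le] at hu
  rcases hτ with rfl | rfl
  · have := h.pos u (by linarith) hu.2
    linarith
  · have := h.neg u hu.1 (by linarith)
    linarith

theorem Exp.pre {f : ℝ → ℝ} {z : ℝ} (h : Exp f z) (x : ℝ) (hx : |x| ≤ z) :
    ∃ x', f x' = x ∧ |x'| ≤ |x| := by
  rw [abs_le] at hx
  rcases le_total 0 x with h0 | h0
  · have h1 := h.neg (-x) (by linarith) (by linarith)
    have h2 : x ∈ Icc (f 0) (f (-x)) := ⟨by rw [h.zero]; exact h0, by linarith⟩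
    obtain ⟨x', hx', e⟩ := intermediate_value_Icc' (by linarith : -x ≤ 0) h.cont.continuousOn h2
    refine ⟨x', e, ?_⟩
    rw [abs_le, abs_of_nonneg h0]
    exact ⟨hx'.1, by linarith [hx'.2]⟩
  · have h1 := h.pos (-x) (by linarith) (by linarith)
    have h2 : x ∈ Icc (f (-x)) (f 0) := ⟨by linarith, by rw [h.zero]; exact h0⟩
    obtain ⟨x', hx', e⟩ := intermediate_value_Icc' (by linarith : 0 ≤ -x) h.cont.continuousOn h2
    refine ⟨x', e, ?_⟩
    rw [abs_le, abs_of_nonpos h0]
    exact ⟨by linarith [hx'.1], hx'.2⟩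

theorem Exp.orbit {f : ℝ → ℝ} {z : ℝ} (h : Exp f z) (m : ℕ) : ∀ x, |x| ≤ z →
    ∃ y, f^[m] y = x ∧ ∀ k ≤ m, |f^[k] y| ≤ |x| := by
  induction m with
  | zero =>
    intro x _
    refine ⟨x, rfl, ?_⟩
    intro k hk
    have : k = 0 := by omega
    subst this; simp
  | succ m ih =>
    intro x hx
    obtain ⟨x', e, hx'⟩ := h.pre x hx
    obtain ⟨y, hy, hk⟩ := ih x' (hx'.trans hx)
    have e2 : f^[m+1] y = x := by rw [Function.iterate_succ_apply', hy, e]
    refine ⟨y, e2, ?_⟩
    intro k hk2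
    rcases Nat.lt_or_ge k (m+1) with h1 | h1
    · exact (hk k (by omega)).trans hx'
    · have : k = m + 1 := by omega
      subst this; rw [e2]

theorem Exp.comm_iter {f : ℝ → ℝ} {z : ℝ} (h : Exp f z) (v : ℝ) (i : ℕ)
    (hv : ∀ k < i, |f^[k] v| ≤ z) : gg f (f^[i] v) = f^[i] (gg f v) := by
  induction i with
  | zero => rfl
  | succ i ih =>
    have h1 := ih (fun k hk => hv k (by omega))
    rw [Function.iterate_succ_apply', Function.iterate_succ_apply', ← h1]
    have := h.comm (f^[i] v) (hv i (by omega))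
    simp only [gg]
    exact this.symm

theorem Exp.g_le {f : ℝ → ℝ} {z : ℝ} (h : Exp f z) (v : ℝ) (hv : |v| ≤ z) : |gg f v| ≤ |f v| := by
  rcases le_total 0 v with h0 | h0
  · have := h.pos v h0 ((le_abs_self v).trans hv)
    have h1 : f v ≤ 0 := by linarith
    rw [abs_of_nonpos h1, abs_of_nonpos (show gg f v ≤ 0 by simp only [gg]; linarith)]
    simp only [gg]; linarith
  · have := h.neg v (by have := neg_abs_le v; linarith) h0
    have h1 : 0 ≤ f v := by linarith
    rw [abs_of_nonneg h1, abs_of_nonneg (show 0 ≤ gg f v by simp only [gg]; linarith)]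
    simp only [gg]; linarith

theorem Exp.LC {f : ℝ → ℝ} {z : ℝ} (h : Exp f z) (x : ℝ) (hx0 : x ≠ 0) (hx : |x| ≤ z)
    (hfx : |f x| ≤ z) : f x ^ 2 ≤ x * f (f x) := by
  have key : ∀ (t : ℝ) (m : ℕ), -(x * f (f x)) / (4 * ((m:ℝ) + 1)) ≤
      t ^ 2 * (x * f (f x)) + 2 * t * (x * f x) + x ^ 2 := by
    intro t m
    obtain ⟨y, hy, hk⟩ := h.orbit m x hx
    have hfy : f^[m+1] y = f x := by rw [Function.iterate_succ_apply', hy]
    have hffy : f^[m+2] y = f (f x) := by rw [Function.iterate_succ_apply', hfy]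
    have hz : ∀ k ≤ m + 1, |f^[k] y| ≤ z := by
      intro k hk1
      rcases Nat.lt_or_ge k (m+1) with h1 | h1
      · exact (hk k (by omega)).trans hx
      · have : k = m + 1 := by omega
        subst this; rw [hfy]; exact hfx
    obtain ⟨s, hs, hsy⟩ : ∃ s : ℝ, (s = 1 ∨ s = -1) ∧ 0 ≤ s * y := by
      rcases le_total 0 y with h0 | h0
      · exact ⟨1, Or.inl rfl, by linarith⟩
      · exact ⟨-1, Or.inr rfl, by linarith⟩
    have hA : ∀ j i, i + j ≤ m + 1 → |f^[i] ((gg f)^[j] y)| ≤ |f^[i+j] y| := by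
      intro j
      induction j with
      | zero => intro i _; simp
      | succ j ih =>
        intro i hij
        have hc : ∀ k < i, |f^[k] ((gg f)^[j] y)| ≤ z := fun k hk =>
          (ih k (by omega)).trans (hz _ (by omega))
        rw [Function.iterate_succ_apply', ← h.comm_iter _ i hc]
        refine (h.g_le _ ((ih i (by omega)).trans (hz _ (by omega)))).trans ?_
        rw [← Function.iterate_succ_apply' f i]
        refine (ih (i+1) (by omega)).trans (le_of_eq ?_)
        congr 2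
        omega
    have hg : ∀ j i, i + j ≤ m + 1 →
        f^[i] ((gg f)^[j+1] y) = gg f (f^[i] ((gg f)^[j] y)) := by
      intro j i hij
      rw [Function.iterate_succ_apply']
      exact (h.comm_iter _ i (fun k hk => (hA j k (by omega)).trans (hz _ (by omega)))).symm
    have hS : ∀ n i j, i + j = n → n ≤ m + 2 → 0 ≤ ((-1)^n * s) * f^[i] ((gg f)^[j] y) := by
      intro n
      induction n with
      | zero =>
        intro i j hij _
        have h1 : i = 0 := by omega
        have h2 : j = 0 := by omega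
        subst h1; subst h2
        simpa using hsy
      | succ n ih =>
        intro i j hij hn
        have hτ : ((-1:ℝ)^n * s = 1 ∨ (-1:ℝ)^n * s = -1) := by
          rcases neg_one_pow_eq_or ℝ n with e | e <;> rcases hs with e2 | e2 <;> rw [e, e2] <;> simp
        rcases Nat.eq_zero_or_pos i with hi | hi
        · subst hi
          obtain ⟨j, rfl⟩ : ∃ j', j = j' + 1 := ⟨j - 1, by omega⟩
          have h1 := ih 0 j (by omega) (by omega)
          have h2 : |f^[0] ((gg f)^[j] y)| ≤ z := (hA j 0 (by omega)).trans (hz _ (by omega))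
          have h3 := h.sgn _ _ hτ h2 h1
          rw [hg j 0 (by omega)]
          simp only [gg] at h3 ⊢
          rw [pow_succ]
          nlinarith
        · obtain ⟨i, rfl⟩ : ∃ i', i = i' + 1 := ⟨i - 1, by omega⟩
          have h1 := ih i j (by omega) (by omega)
          have h2 : |f^[i] ((gg f)^[j] y)| ≤ z := (hA j i (by omega)).trans (hz _ (by omega))
          have h3 := h.sgn _ _ hτ h2 h1
          rw [Function.iterate_succ_apply', pow_succ]
          nlinarith
    have hL := LCN (fun p q => ((-1)^(m+p) * s) * f^[m+2-p-q] ((gg f)^[q] y)) m (by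
      intro p q hpq
      obtain ⟨i, hi⟩ : ∃ i, m + 2 - p - q = i + 1 := ⟨m + 1 - p - q, by omega⟩
      rw [hi, show m + 2 - (p+1) - q = i by omega, show m + 2 - p - (q+1) = i by omega,
        hg q i (by omega), Function.iterate_succ_apply', show m + (p+1) = (m+p) + 1 by ring, pow_succ]
      simp only [gg]
      ring) (by
      intro p q hpq
      rw [show m + 2 - p - q = 0 by omega]
      have h1 := hS q 0 q (by omega) (by omega)
      have h2 : ((-1:ℝ))^(m+p) = (-1)^q := by
        have : ((-1:ℝ))^(m+p+2) = (-1)^(2*p+q) := by congr 1; omega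
        rw [pow_add, pow_add (-1:ℝ) (2*p) q, pow_mul] at this
        norm_num at this
        exact this
      rw [h2]; exact h1) t
    simp only [Nat.sub_zero, add_zero, Function.iterate_zero, id] at hL
    have p1 : (-1:ℝ)^(m+1) = -((-1)^m) := by rw [pow_succ]; ring
    have p2 : (-1:ℝ)^(m+2) = (-1)^m := by rw [pow_add]; norm_num
    rw [show m + 2 - 1 = m + 1 by omega, show m + 2 - 2 = m by omega, hffy, hfy, hy, p1, p2] at hL
    have hτx := hS m m 0 (by omega) (by omega)
    simp only [Function.iterate_zero, id] at hτx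
    rw [hy] at hτx
    set τ := (-1:ℝ)^m * s with hτdef
    have hτ2 : τ * τ = 1 := by
      have hτ : (τ = 1 ∨ τ = -1) := by
        rw [hτdef]
        rcases neg_one_pow_eq_or ℝ m with e | e <;> rcases hs with e2 | e2 <;> rw [e, e2] <;> simp
      rcases hτ with e | e <;> rw [e] <;> norm_num
    have hL2 := mul_le_mul_of_nonneg_right hL hτx
    have e1 : -(τ * f (f x)) / (4 * ((m:ℝ) + 1)) * (τ * x) = (τ * τ) * (-(x * f (f x)) / (4 * ((m:ℝ) + 1))) := by ring
    have e2 : (t ^ 2 * (τ * f (f x)) - 2 * t * (-(-1) ^ m * s * f x) + τ * x) * (τ * x) =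
        (τ * τ) * (t ^ 2 * (x * f (f x)) + 2 * t * (x * f x) + x ^ 2) := by
      rw [hτdef]; ring
    rw [e1, e2, hτ2, one_mul, one_mul] at hL2
    exact hL2
  have key2 : ∀ t : ℝ, 0 ≤ t ^ 2 * (x * f (f x)) + 2 * t * (x * f x) + x ^ 2 :=
    fun t => limit_ineq _ _ (key t)
  have hx2 : 0 < x ^ 2 := by positivity
  have hP : 0 < x * f (f x) := by
    rcases lt_or_gt_of_ne hx0 with h0 | h0
    · have h1 := h.neg x (by have := neg_abs_le x; linarith) h0.le
      have h2 := h.pos (f x) (by linarith) ((le_abs_self _).trans hfx)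
      nlinarith
    · have h1 := h.pos x h0.le ((le_abs_self _).trans hx)
      have h2 := h.neg (f x) (by have := neg_abs_le (f x); linarith) (by linarith)
      nlinarith
  have h3 := key2 (-(x * f x) / (x * f (f x)))
  have h4 : (-(x * f x) / (x * f (f x))) ^ 2 * (x * f (f x)) + 2 * (-(x * f x) / (x * f (f x))) * (x * f x) + x ^ 2
      = x ^ 2 - (x * f x)^2 / (x * f (f x)) := by
    field_simp
    ring
  rw [h4, sub_nonneg, div_le_iff₀ hP] at h3
  have h5 : x ^ 2 * f x ^ 2 ≤ x ^ 2 * (x * f (f x)) := by nlinarith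
  exact le_of_mul_le_mul_left h5 hx2


/-! ### slopes -/

noncomputable def sl (f : ℝ → ℝ) (x : ℝ) : ℝ := f x / x

theorem sl_le_iff {f : ℝ → ℝ} {x c : ℝ} (hx : x ≠ 0) : sl f x ≤ c ↔ x * f x ≤ c * x ^ 2 := by
  have h2 : 0 < x ^ 2 := by positivity
  have : sl f x = (x * f x) / x ^ 2 := by unfold sl; field_simp
  rw [this, div_le_iff₀ h2]

theorem le_sl_iff {f : ℝ → ℝ} {x c : ℝ} (hx : x ≠ 0) : c ≤ sl f x ↔ c * x ^ 2 ≤ x * f x := by
  have h2 : 0 < x ^ 2 := by positivity
  have : sl f x = (x * f x) / x ^ 2 := by unfold sl; field_simp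
  rw [this, le_div_iff₀ h2]

theorem sl_mul {f : ℝ → ℝ} {x : ℝ} (hx : x ≠ 0) : sl f x * x = f x := by
  unfold sl; field_simp

theorem sl_eq {f : ℝ → ℝ} {x b : ℝ} (hx : x ≠ 0) : sl f x = b ↔ f x = b * x := by
  unfold sl; rw [div_eq_iff hx]

theorem sl_symm (f : ℝ → ℝ) (x : ℝ) : sl (fun x => -f (-x)) x = sl f (-x) := by
  unfold sl; rw [div_neg, neg_div]

theorem sl_f {f : ℝ → ℝ} {x : ℝ} (hneg : x * f x < 0) (hLC : f x ^ 2 ≤ x * f (f x)) :
    sl f (f x) ≤ sl f x := by
  have hx : x ≠ 0 := by rintro rfl; simp at hneg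
  have hf : f x ≠ 0 := by intro h; rw [h] at hneg; simp at hneg
  have : sl f (f x) - sl f x = (x * f (f x) - f x ^ 2) / (x * f x) := by
    unfold sl; field_simp
  have h2 : (x * f (f x) - f x ^ 2) / (x * f x) ≤ 0 :=
    div_nonpos_of_nonneg_of_nonpos (by linarith) hneg.le
  linarith

theorem sl_g {f : ℝ → ℝ} {x : ℝ} (hpos : 0 < x * (x + f x)) (hLC : f x ^ 2 ≤ x * f (f x))
    (hc : f (x + f x) = f x + f (f x)) : sl f x ≤ sl f (x + f x) := by
  have hx : x ≠ 0 := by rintro rfl; simp at hpos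
  have hf : x + f x ≠ 0 := by intro h; rw [h] at hpos; simp at hpos
  have : sl f (x + f x) - sl f x = (x * f (f x) - f x ^ 2) / (x * (x + f x)) := by
    unfold sl; rw [hc]; field_simp; ring
  have h2 : 0 ≤ (x * f (f x) - f x ^ 2) / (x * (x + f x)) :=
    div_nonneg (by linarith) hpos.le
  linarith

theorem exMax {T : Set ℝ} (hT : IsClosed T) (R : ℝ) (hR : ∀ t ∈ T, |t| ≤ R) (hne : T.Nonempty) :
    ∃ t ∈ T, ∀ t' ∈ T, |t'| ≤ |t| := by
  have hc : IsCompact T := by
    apply IsCompact.of_isClosed_subset (isCompact_Icc (a := -R) (b := R)) hT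
    intro t ht
    exact abs_le.1 (hR t ht)
  obtain ⟨t, ht, h⟩ := hc.exists_isMaxOn hne (continuous_abs.continuousOn)
  exact ⟨t, ht, fun t' ht' => h ht'⟩

theorem exMin {T : Set ℝ} (hT : IsClosed T) (R : ℝ) (hR : ∀ t ∈ T, |t| ≤ R) (hne : T.Nonempty) :
    ∃ t ∈ T, ∀ t' ∈ T, |t| ≤ |t'| := by
  have hc : IsCompact T := by
    apply IsCompact.of_isClosed_subset (isCompact_Icc (a := -R) (b := R)) hT
    intro t ht
    exact abs_le.1 (hR t ht)
  obtain ⟨t, ht, h⟩ := hc.exists_isMinOn hne (continuous_abs.continuousOn)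
  exact ⟨t, ht, fun t' ht' => h ht'⟩

/-- minimum of the slope over an annulus -/
theorem ex_min_slope {f : ℝ → ℝ} (hf : Continuous f) (κ ρ : ℝ) (hκ : 0 < κ) (hκρ : κ ≤ ρ) :
    ∃ p, κ ≤ |p| ∧ |p| ≤ ρ ∧ ∀ q, κ ≤ |q| → |q| ≤ ρ → sl f p ≤ sl f q := by
  set K : Set ℝ := {x | κ ≤ |x| ∧ |x| ≤ ρ} with hK
  have hclosed : IsClosed K :=
    (isClosed_le continuous_const continuous_abs).inter (isClosed_le continuous_abs continuous_const)
  have hc : IsCompact K := by
    apply IsCompact.of_isClosed_subset (isCompact_Icc (a := -ρ) (b := ρ)) hclosed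
    intro t ht
    exact abs_le.1 ht.2
  have hcont : ContinuousOn (sl f) K := by
    apply ContinuousOn.div hf.continuousOn continuousOn_id
    intro x hx h0
    simp only [id] at h0
    rw [h0] at hx
    have := hx.1
    rw [abs_zero] at this
    linarith
  obtain ⟨p, hp, h⟩ := hc.exists_isMinOn ⟨ρ, by
    rw [hK]; simp only [mem_ofPred_eq]
    rw [abs_of_pos (by linarith)]; exact ⟨hκρ, le_rfl⟩⟩ hcont
  exact ⟨p, hp.1, hp.2, fun q h1 h2 => h ⟨h1, h2⟩⟩

theorem closed_le {f : ℝ → ℝ} (hf : Continuous f) (c : ℝ) : IsClosed {t : ℝ | t * f t ≤ c * t ^ 2} :=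
  isClosed_le (by fun_prop) (by fun_prop)
theorem closed_ge {f : ℝ → ℝ} (hf : Continuous f) (c : ℝ) : IsClosed {t : ℝ | c * t ^ 2 ≤ t * f t} :=
  isClosed_le (by fun_prop) (by fun_prop)

/-! ### contracting region -/

structure Con (f : ℝ → ℝ) (ρ : ℝ) : Prop where
  cont : Continuous f
  zero : f 0 = 0
  pos : ∀ x, 0 < x → x ≤ ρ → -x < f x ∧ f x < 0
  neg : ∀ x, -ρ ≤ x → x < 0 → 0 < f x ∧ f x < -x
  comm : ∀ x, f (x + f x) = f x + f (f x)

theorem Con.symm {f : ℝ → ℝ} {z : ℝ} (h : Con f z) : Con (fun x => -f (-x)) z where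
  cont := by have := h.cont; fun_prop
  zero := by simp [h.zero]
  pos := by
    intro x h0 h1
    have := h.neg (-x) (by linarith) (by linarith)
    constructor <;> linarith
  neg := by
    intro x h0 h1
    have := h.pos (-x) (by linarith) (by linarith)
    constructor <;> linarith
  comm := fun x => comm_symm (h.comm (-x))

theorem Con.sgn {f : ℝ → ℝ} {z : ℝ} (h : Con f z) (τ u : ℝ) (hτ : τ = 1 ∨ τ = -1) (hu : |u| ≤ z)
    (h0 : 0 ≤ τ * u) : 0 ≤ -(τ * f u) ∧ -(τ * f u) ≤ τ * u := by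
  rw [abs_le] at hu
  rcases hτ with rfl | rfl
  · rcases (by linarith : 0 ≤ u).eq_or_lt with e | e
    · rw [← e, h.zero]; simp
    · have := h.pos u e hu.2
      constructor <;> linarith
  · rcases (by linarith : u ≤ 0).eq_or_lt with e | e
    · rw [e, h.zero]; simp
    · have := h.neg u hu.1 e
      constructor <;> linarith

theorem Con.f_le {f : ℝ → ℝ} {z : ℝ} (h : Con f z) (u : ℝ) (hu : |u| ≤ z) :
    |f u| ≤ |u| ∧ |gg f u| ≤ |u| := by
  rcases le_total 0 u with h0 | h0
  · have := h.sgn 1 u (Or.inl rfl) hu (by linarith)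
    simp only [gg]
    rw [abs_of_nonneg h0, abs_le, abs_le]
    refine ⟨⟨?_, ?_⟩, ⟨?_, ?_⟩⟩ <;> linarith
  · have := h.sgn (-1) u (Or.inr rfl) hu (by linarith)
    simp only [gg]
    rw [abs_of_nonpos h0, abs_le, abs_le]
    refine ⟨⟨?_, ?_⟩, ⟨?_, ?_⟩⟩ <;> linarith

theorem comm_iter {f : ℝ → ℝ} (h : ∀ x, f (x + f x) = f x + f (f x)) (v : ℝ) (i : ℕ) :
    gg f (f^[i] v) = f^[i] (gg f v) := by
  induction i with
  | zero => rfl
  | succ i ih =>
    rw [Function.iterate_succ_apply', Function.iterate_succ_apply', ← ih]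
    simp only [gg]
    exact (h _).symm

theorem Con.LC {f : ℝ → ℝ} {z : ℝ} (h : Con f z) (x : ℝ) (hx0 : x ≠ 0) (hx : |x| ≤ z) :
    f x ^ 2 ≤ x * f (f x) := by
  obtain ⟨s, hs, hsy⟩ : ∃ s : ℝ, (s = 1 ∨ s = -1) ∧ 0 ≤ s * x := by
    rcases le_total 0 x with h0 | h0
    · exact ⟨1, Or.inl rfl, by linarith⟩
    · exact ⟨-1, Or.inr rfl, by linarith⟩
  have hss : s * s = 1 := by rcases hs with rfl | rfl <;> norm_num
  have hG : ∀ q, |(gg f)^[q] x| ≤ z ∧ 0 ≤ s * (gg f)^[q] x := by
    intro q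
    induction q with
    | zero => exact ⟨hx, hsy⟩
    | succ q ih =>
      rw [Function.iterate_succ_apply']
      refine ⟨(h.f_le _ ih.1).2.trans ih.1, ?_⟩
      have := h.sgn s _ hs ih.1 ih.2
      simp only [gg] at this ⊢
      linarith
  have hF : ∀ p q, |f^[p] ((gg f)^[q] x)| ≤ z ∧ 0 ≤ ((-1)^p * s) * f^[p] ((gg f)^[q] x) := by
    intro p q
    induction p with
    | zero => simpa using hG q
    | succ p ih =>
      rw [Function.iterate_succ_apply']
      have hτ : ((-1:ℝ)^p * s = 1 ∨ (-1:ℝ)^p * s = -1) := by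
        rcases neg_one_pow_eq_or ℝ p with e | e <;> rcases hs with e2 | e2 <;> rw [e, e2] <;> simp
      refine ⟨(h.f_le _ ih.1).1.trans ih.1, ?_⟩
      have := h.sgn _ _ hτ ih.1 ih.2
      rw [pow_succ]
      linarith
  have key : ∀ (t : ℝ) (m : ℕ), -(x ^ 2) / (4 * ((m:ℝ) + 1)) ≤
      t ^ 2 * x ^ 2 + 2 * t * (x * f x) + x * f (f x) := by
    intro t m
    have hL := LCN (fun p q => ((-1)^p * s) * f^[p] ((gg f)^[q] x)) m (by
      intro p q _
      have h1 : f^[p] ((gg f)^[q+1] x) = gg f (f^[p] ((gg f)^[q] x)) := by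
        rw [Function.iterate_succ_apply', comm_iter h.comm]
      rw [h1, Function.iterate_succ_apply', pow_succ]
      simp only [gg]
      ring) (fun p q _ => (hF p q).2) t
    have e1 : f^[1] ((gg f)^[0] x) = f x := rfl
    have e2 : f^[2] ((gg f)^[0] x) = f (f x) := rfl
    simp only [e1, e2] at hL
    simp only [Function.iterate_zero, id] at hL
    have hL2 := mul_le_mul_of_nonneg_right hL hsy
    have e3 : -((-1) ^ 0 * s * x) / (4 * ((m:ℝ) + 1)) * (s * x) = (s * s) * (-(x^2) / (4 * ((m:ℝ) + 1))) := by ring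
    have e4 : (t ^ 2 * ((-1) ^ 0 * s * x) - 2 * t * ((-1) ^ 1 * s * f x) + (-1) ^ 2 * s * f (f x)) * (s * x) =
        (s * s) * (t ^ 2 * x ^ 2 + 2 * t * (x * f x) + x * f (f x)) := by ring
    rw [e3, e4, hss, one_mul, one_mul] at hL2
    exact hL2
  have h3 := limit_ineq _ _ (key (-(f x) / x))
  have h4 : (-(f x) / x) ^ 2 * x ^ 2 + 2 * (-(f x) / x) * (x * f x) + x * f (f x) = x * f (f x) - f x ^ 2 := by
    field_simp
    ring
  rw [h4] at h3
  linarith

theorem Con.side {f : ℝ → ℝ} {ρ : ℝ} (h : Con f ρ) (b : ℝ) (hb1 : -1 < b) (hb0 : b < 0)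
    (hmin : ∀ y, 0 < |y| → |y| ≤ ρ → b ≤ sl f y) (q : ℝ) (hq : 0 < q) (hqρ : q ≤ ρ)
    (hfq : f q = b * q) : ∀ y, 0 < y → y ≤ ρ → f y = b * y := by
  have hg : ∀ y, 0 < y → y ≤ ρ → 0 < y + f y ∧ y + f y < y ∧ sl f y ≤ sl f (y + f y) := by
    intro y h0 h1
    have h2 := h.pos y h0 h1
    refine ⟨by linarith, by linarith, ?_⟩
    exact sl_g (mul_pos h0 (by linarith)) (h.LC y h0.ne' (by rwa [abs_of_pos h0])) (h.comm y)
  have hgb : ∀ q, f q = b * q → 0 < q → q ≤ ρ → f ((1+b) * q) = b * ((1+b) * q) := by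
    intro q e h0 h1
    have h2 := h.comm q
    have hq0 : f q < 0 := (h.pos q h0 h1).2
    have h3 : sl f (f q) ≤ sl f q :=
      sl_f (mul_neg_of_pos_of_neg h0 hq0) (h.LC q h0.ne' (by rwa [abs_of_pos h0]))
    have h4 := hmin (f q) (abs_pos.2 hq0.ne) ((h.f_le q (by rwa [abs_of_pos h0])).1.trans (by rwa [abs_of_pos h0]))
    rw [(sl_eq h0.ne').2 e] at h3
    have h5 := (sl_eq hq0.ne).1 (le_antisymm h3 h4)
    rw [h5, e] at h2
    rw [show (1+b)*q = q + b * q by ring, h2]; ring
  have hbar : ∀ q, f q = b * q → 0 < q → q ≤ ρ → ∀ y, 0 < y → y ≤ q → y + f y ≤ (1+b)*q := by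
    intro q e h0 h1 y hy hyq
    by_contra hcon
    push Not at hcon
    have hyq' : y < q := by
      rcases hyq.lt_or_eq with h2 | h2
      · exact h2
      · rw [h2, e] at hcon; linarith
    have hc : ContinuousOn (fun t => t + f t) (Icc 0 y) := by
      have := h.cont; fun_prop
    have hmem : (1+b)*q ∈ Icc (0 + f 0) (y + f y) := by
      rw [h.zero]; constructor
      · have : 0 < (1+b)*q := mul_pos (by linarith) h0
        linarith
      · exact hcon.le
    obtain ⟨y', hy', e'⟩ := intermediate_value_Icc hy.le hc hmem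
    simp only at e'
    have hy'0 : 0 < y' := by
      rcases hy'.1.lt_or_eq with h2 | h2
      · exact h2
      · rw [← h2, h.zero] at e'
        have : 0 < (1+b)*q := mul_pos (by linarith) h0
        linarith
    have hy'ρ : y' ≤ ρ := by linarith [hy'.2]
    have h3 := (hg y' hy'0 hy'ρ).2.2
    rw [e', (sl_eq (mul_pos (by linarith) h0).ne').2 (hgb q e h0 h1)] at h3
    have h4 := hmin y' (abs_pos.2 hy'0.ne') (by rwa [abs_of_pos hy'0])
    have h5 := (sl_eq hy'0.ne').1 (le_antisymm h3 h4)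
    rw [h5] at e'
    have h6 : (1+b) * (y' - q) = 0 := by linarith
    rcases mul_eq_zero.1 h6 with h7 | h7
    · linarith
    · linarith [hy'.2]
  have hclaim : ∀ n : ℕ, ∀ q, f q = b * q → 0 < q → q ≤ ρ → ∀ y, 0 < y → y ≤ q →
      (1 + sl f y) ^ n * y ≤ (1 + b) ^ n * q := by
    intro n
    induction n with
    | zero => intro q _ _ _ y _ h2; simpa using h2
    | succ n ih =>
      intro q e h0 h1 y hy hyq
      have h2 := hg y hy (hyq.trans h1)
      have h3 := ih ((1+b)*q) (hgb q e h0 h1) (mul_pos (by linarith) h0)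
        (by nlinarith) (y + f y) h2.1 (hbar q e h0 h1 y hy hyq)
      have h4 : y + f y = (1 + sl f y) * y := by rw [add_mul, sl_mul hy.ne']; ring
      have h5 : 0 < 1 + sl f y := by
        have : 0 < (1 + sl f y) * y := by rw [← h4]; exact h2.1
        exact pos_of_mul_pos_left this hy.le
      have h6 : (1 + sl f y) ^ n * (y + f y) ≤ (1 + sl f (y + f y)) ^ n * (y + f y) := by
        apply mul_le_mul_of_nonneg_right _ h2.1.le
        apply pow_le_pow_left₀ h5.le
        linarith [h2.2.2]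
      calc (1 + sl f y) ^ (n+1) * y = (1 + sl f y) ^ n * (y + f y) := by rw [h4]; ring
        _ ≤ _ := h6
        _ ≤ _ := h3
        _ = _ := by ring
  have hsmall : ∀ y, 0 < y → y ≤ q → f y = b * y := by
    intro y hy hyq
    have h1 := hmin y (abs_pos.2 hy.ne') (by rw [abs_of_pos hy]; linarith)
    rw [← sl_eq hy.ne']
    refine le_antisymm ?_ h1
    by_contra hcon
    push Not at hcon
    have hb : 0 < 1 + b := by linarith
    have hr : 1 < (1 + sl f y) / (1 + b) := by rw [one_lt_div hb]; linarith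
    obtain ⟨n, hn⟩ := pow_unbounded_of_one_lt (q / y) hr
    have h2 := hclaim n q hfq hq hqρ y hy hyq
    rw [div_pow, div_lt_div_iff₀ hy (by positivity)] at hn
    linarith
  intro y hy hyρ
  rcases le_or_gt y q with h1 | h1
  · exact hsmall y hy h1
  · rw [← sl_eq hy.ne']
    refine le_antisymm ?_ (hmin y (abs_pos.2 hy.ne') (by rwa [abs_of_pos hy]))
    set T : Set ℝ := {t | q ≤ t ∧ t ≤ ρ ∧ sl f y * t ^ 2 ≤ t * f t} with hT
    have hTc : IsClosed T :=
      (isClosed_le continuous_const continuous_id).inter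
        ((isClosed_le continuous_id continuous_const).inter (closed_ge h.cont _))
    obtain ⟨t, ht, hmin'⟩ := exMin hTc ρ (by
      intro t ht; rw [abs_of_pos (by linarith [ht.1])]; exact ht.2.1)
      ⟨y, h1.le, hyρ, by rw [← le_sl_iff hy.ne']⟩
    have ht0 : 0 < t := by linarith [ht.1]
    have h2 := hg t ht0 ht.2.1
    have h3 : sl f y ≤ sl f t := (le_sl_iff ht0.ne').2 ht.2.2
    rcases le_or_gt q (t + f t) with h4 | h4
    · have h5 : t + f t ∈ T := ⟨h4, by linarith [ht.2.1], by
        rw [← le_sl_iff h2.1.ne']; linarith [h2.2.2]⟩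
      have h6 := hmin' _ h5
      rw [abs_of_pos ht0, abs_of_pos h2.1] at h6
      linarith
    · have h5 := (sl_eq h2.1.ne').2 (hsmall (t + f t) h2.1 h4.le)
      linarith [h2.2.2]

theorem Con.linear {f : ℝ → ℝ} {ρ : ℝ} (h : Con f ρ) (hρ : 0 < ρ) :
    ∃ b, -1 < b ∧ b < 0 ∧ ∀ x, |x| ≤ ρ → f x = b * x := by
  have hp := h.pos ρ hρ le_rfl
  have hn := h.neg (-ρ) le_rfl (by linarith)
  set κ := min (ρ + f ρ) (ρ - f (-ρ)) with hκ
  have hκ0 : 0 < κ := lt_min (by linarith) (by linarith)
  have hκρ : κ ≤ ρ := (min_le_left _ _).trans (by linarith)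
  obtain ⟨p, hp1, hp2, hp3⟩ := ex_min_slope h.cont κ ρ hκ0 hκρ
  have hcg : Continuous (fun t => t + f t) := by have := h.cont; fun_prop
  have hslg : ∀ t, t ≠ 0 → |t| ≤ ρ → sl f t ≤ sl f (t + f t) ∧ |t + f t| < |t| := by
    intro t h0 h1
    rcases lt_or_gt_of_ne h0 with h2 | h2
    · have h3 := h.neg t (by have := neg_abs_le t; linarith) h2
      refine ⟨sl_g (mul_pos_of_neg_of_neg h2 (by linarith)) (h.LC t h0 h1) (h.comm t), ?_⟩
      rw [abs_of_neg h2, abs_of_neg (by linarith)]; linarith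
    · have h3 := h.pos t h2 ((le_abs_self t).trans h1)
      refine ⟨sl_g (mul_pos h2 (by linarith)) (h.LC t h0 h1) (h.comm t), ?_⟩
      rw [abs_of_pos h2, abs_of_pos (by linarith)]; linarith
  have hmin : ∀ y, 0 < |y| → |y| ≤ ρ → sl f p ≤ sl f y := by
    intro y h0 h1
    set T : Set ℝ := {t | |y| ≤ |t| ∧ |t| ≤ ρ ∧ t * f t ≤ sl f y * t ^ 2} with hT
    have hTc : IsClosed T :=
      (isClosed_le continuous_const continuous_abs).inter
        ((isClosed_le continuous_abs continuous_const).inter (closed_le h.cont _))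
    obtain ⟨t, ht, hmax⟩ := exMax hTc ρ (fun t ht => ht.2.1)
      ⟨y, le_rfl, h1, by rw [← sl_le_iff (abs_pos.1 h0)]⟩
    have ht0 : t ≠ 0 := abs_pos.1 (h0.trans_le ht.1)
    have h3 : sl f t ≤ sl f y := (sl_le_iff ht0).2 ht.2.2
    rcases le_or_gt κ |t| with h4 | h4
    · exact (hp3 t h4 ht.2.1).trans h3
    · exfalso
      obtain ⟨t', e, hρ'⟩ : ∃ t', t' + f t' = t ∧ |t'| ≤ ρ := by
        rcases lt_or_gt_of_ne ht0 with h5 | h5
        · rw [abs_of_neg h5] at h4
          have h6 := h4.trans_le (min_le_right _ _)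
          obtain ⟨t', ht', e⟩ := intermediate_value_Icc (by linarith : -ρ ≤ 0) hcg.continuousOn
            (show t ∈ Icc (-ρ + f (-ρ)) (0 + f 0) by rw [h.zero]; constructor <;> linarith)
          exact ⟨t', e, abs_le.2 ⟨ht'.1, by linarith [ht'.2]⟩⟩
        · rw [abs_of_pos h5] at h4
          have h6 := h4.trans_le (min_le_left _ _)
          obtain ⟨t', ht', e⟩ := intermediate_value_Icc (by linarith : 0 ≤ ρ) hcg.continuousOn
            (show t ∈ Icc (0 + f 0) (ρ + f ρ) by rw [h.zero]; constructor <;> linarith)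
          exact ⟨t', e, abs_le.2 ⟨by linarith [ht'.1], ht'.2⟩⟩
      have ht'0 : t' ≠ 0 := by
        rintro rfl
        rw [h.zero] at e; apply ht0; linarith
      have h5 := hslg t' ht'0 hρ'
      rw [e] at h5
      have h6 : t' ∈ T := ⟨by linarith [ht.1, h5.2], hρ', by
        rw [← sl_le_iff ht'0]; linarith [h5.1]⟩
      have h7 := hmax t' h6
      linarith [h5.2]
  have hp0 : p ≠ 0 := abs_pos.1 (hκ0.trans_le hp1)
  set b := sl f p with hb
  have hfp : f p = b * p := (sl_eq hp0).1 rfl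
  have hb01 : -1 < b ∧ b < 0 := by
    rcases lt_or_gt_of_ne hp0 with h5 | h5
    · have h6 := h.neg p (by have := neg_abs_le p; linarith) h5
      rw [hfp] at h6
      constructor <;> nlinarith
    · have h6 := h.pos p h5 ((le_abs_self p).trans hp2)
      rw [hfp] at h6
      constructor <;> nlinarith
  -- slope-b point on the other side
  have hfp0 : p * f p < 0 := by
    rw [hfp]; have : 0 < p^2 := by positivity
    nlinarith [hb01.2]
  have hfp1 : f p ≠ 0 := by intro h; rw [h] at hfp0; simp at hfp0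
  have hfpρ : |f p| ≤ ρ := (h.f_le p hp2).1.trans hp2
  have hffp : f (f p) = b * f p := by
    rw [← sl_eq hfp1]
    exact le_antisymm (sl_f hfp0 (h.LC p hp0 hp2)) (hmin _ (abs_pos.2 hfp1) hfpρ)
  have hmin' : ∀ y, 0 < |y| → |y| ≤ ρ → b ≤ sl (fun x => -f (-x)) y := by
    intro y h0 h1
    rw [sl_symm]
    exact hmin (-y) (by rwa [abs_neg]) (by rwa [abs_neg])
  have hboth : ∃ q1 q2, 0 < q1 ∧ q1 ≤ ρ ∧ f q1 = b * q1 ∧ 0 < q2 ∧ q2 ≤ ρ ∧ f (-q2) = b * (-q2) := by
    rcases lt_or_gt_of_ne hp0 with h5 | h5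
    · refine ⟨f p, -p, ?_, (le_abs_self _).trans hfpρ, hffp, by linarith, ?_, by rw [neg_neg, hfp]⟩
      · nlinarith
      · rwa [abs_of_neg h5] at hp2
    · have h6 : f p < 0 := by nlinarith
      refine ⟨p, -f p, h5, (le_abs_self _).trans hp2, hfp, by linarith, ?_, by rw [neg_neg, hffp]⟩
      rwa [abs_of_neg h6] at hfpρ
  obtain ⟨q1, q2, a1, a2, a3, a4, a5, a6⟩ := hboth
  have hs1 := h.side b hb01.1 hb01.2 hmin q1 a1 a2 a3
  have hs2 := h.symm.side b hb01.1 hb01.2 hmin' q2 a4 a5 (by show -f (-q2) = b * q2; rw [a6]; ring)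
  refine ⟨b, hb01.1, hb01.2, ?_⟩
  intro x hx
  rcases lt_trichotomy x 0 with h5 | h5 | h5
  · have := hs2 (-x) (by linarith) (by rwa [abs_of_neg h5] at hx)
    simp only [neg_neg] at this
    linarith
  · rw [h5, h.zero]; ring
  · exact hs1 x h5 (by rwa [abs_of_pos h5] at hx)


/-! ### global expanding case -/

structure Big (f : ℝ → ℝ) : Prop where
  cont : Continuous f
  zero : f 0 = 0
  pos : ∀ x, 0 < x → f x < -x
  neg : ∀ x, x < 0 → -x < f x
  comm : ∀ x, f (x + f x) = f x + f (f x)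

theorem Big.symm {f : ℝ → ℝ} (h : Big f) : Big (fun x => -f (-x)) where
  cont := by have := h.cont; fun_prop
  zero := by simp [h.zero]
  pos := by
    intro x h0
    have := h.neg (-x) (by linarith)
    linarith
  neg := by
    intro x h0
    have := h.pos (-x) (by linarith)
    linarith
  comm := fun x => comm_symm (h.comm (-x))

theorem Big.exp {f : ℝ → ℝ} (h : Big f) (z : ℝ) : Exp f z where
  cont := h.cont
  zero := h.zero
  pos := by
    intro x h0 _
    rcases h0.eq_or_lt with e | e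
    · rw [← e, h.zero]; simp
    · exact (h.pos x e).le
  neg := by
    intro x _ h0
    rcases h0.eq_or_lt with e | e
    · rw [e, h.zero]; simp
    · exact (h.neg x e).le
  comm := fun x _ => h.comm x

theorem Big.LC {f : ℝ → ℝ} (h : Big f) (x : ℝ) (hx : x ≠ 0) : f x ^ 2 ≤ x * f (f x) :=
  (h.exp (max |x| |f x|)).LC x hx (le_max_left _ _) (le_max_right _ _)

theorem Big.lt {f : ℝ → ℝ} (h : Big f) (x : ℝ) (hx : x ≠ 0) : x * f x < 0 ∧ |x| < |f x| := by
  rcases lt_or_gt_of_ne hx with h0 | h0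
  · have h1 := h.neg x h0
    refine ⟨mul_neg_of_neg_of_pos h0 (by linarith), ?_⟩
    rw [abs_of_neg h0, abs_of_pos (by linarith)]; exact h1
  · have h1 := h.pos x h0
    refine ⟨mul_neg_of_pos_of_neg h0 (by linarith), ?_⟩
    rw [abs_of_pos h0, abs_of_neg (by linarith)]; linarith

theorem Big.sl_f {f : ℝ → ℝ} (h : Big f) (x : ℝ) (hx : x ≠ 0) : sl f (f x) ≤ sl f x :=
  FunEq.sl_f (h.lt x hx).1 (h.LC x hx)

theorem Big.sl_lt {f : ℝ → ℝ} (h : Big f) (x : ℝ) (hx : x ≠ 0) : sl f x < -1 := by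
  have h1 := sl_mul (f := f) hx
  rcases lt_or_gt_of_ne hx with h0 | h0
  · have h2 := h.neg x h0
    rw [← h1] at h2
    nlinarith
  · have h2 := h.pos x h0
    rw [← h1] at h2
    nlinarith

/-- barrier, one side -/
theorem Big.bar1 {f : ℝ → ℝ} (h : Big f) (b : ℝ) (hb : b < -1) (q : ℝ) (hq : q < 0)
    (huniq : ∀ y, f y = q → f y = b * y) (x y : ℝ) (hx : x < 0) (hxq : |x| ≤ |q|) (hy : f y = x) :
    |y| ≤ |q / b| := by
  rw [abs_of_neg hx, abs_of_neg hq] at hxq
  have hy0 : y ≠ 0 := by rintro rfl; rw [h.zero] at hy; linarith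
  have hypos : 0 < y := by
    have := (h.lt y hy0).1
    rw [hy] at this
    nlinarith
  have hqb : 0 < q / b := div_pos_of_neg_of_neg hq (by linarith)
  rw [abs_of_pos hypos, abs_of_pos hqb]
  by_contra hcon
  push Not at hcon
  have h1 := (h.lt y hy0).2
  rw [hy, abs_of_pos hypos, abs_of_neg hx] at h1
  have h2 := h.pos (-q) (by linarith)
  obtain ⟨t, ht, e⟩ := intermediate_value_Icc' (by linarith : y ≤ -q) h.cont.continuousOn
    (show q ∈ Icc (f (-q)) (f y) by rw [hy]; constructor <;> linarith)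
  have h3 := huniq t e
  rw [e] at h3
  have h4 : t = q / b := by
    have hb0 : b ≠ 0 := (by linarith : b < 0).ne
    rw [h3]; field_simp
  linarith [ht.1]

theorem Big.linear_on {f : ℝ → ℝ} (h : Big f) (ρ : ℝ) (hρ : 0 < ρ) :
    ∃ b, ∀ x, |x| ≤ ρ → f x = b * x := by
  obtain ⟨κ0, hκ0, hκ⟩ : ∃ κ > 0, ∀ x, |x| < κ → |f x| ≤ ρ := by
    have := Metric.continuous_iff.1 h.cont 0 ρ hρ
    obtain ⟨δ, hδ, h1⟩ := this
    refine ⟨δ, hδ, fun x hx => ?_⟩
    have := h1 x (by rwa [Real.dist_eq, sub_zero])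
    rw [h.zero, Real.dist_eq, sub_zero] at this
    exact this.le
  set κ := min κ0 ρ with hκdef
  have hκpos : 0 < κ := lt_min hκ0 hρ
  obtain ⟨p, hp1, hp2, hp3⟩ := ex_min_slope h.cont κ ρ hκpos (min_le_right _ _)
  have hp0 : p ≠ 0 := abs_pos.1 (hκpos.trans_le hp1)
  have hmin : ∀ y, y ≠ 0 → |y| ≤ ρ → sl f p ≤ sl f y := by
    intro y h0 h1
    have h0' := abs_pos.2 h0
    set T : Set ℝ := {t | |y| ≤ |t| ∧ |t| ≤ ρ ∧ t * f t ≤ sl f y * t ^ 2} with hT
    have hTc : IsClosed T :=
      (isClosed_le continuous_const continuous_abs).inter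
        ((isClosed_le continuous_abs continuous_const).inter (closed_le h.cont _))
    obtain ⟨t, ht, hmax⟩ := exMax hTc ρ (fun t ht => ht.2.1)
      ⟨y, le_rfl, h1, by rw [← sl_le_iff h0]⟩
    have ht0 : t ≠ 0 := abs_pos.1 (h0'.trans_le ht.1)
    have h3 : sl f t ≤ sl f y := (sl_le_iff ht0).2 ht.2.2
    rcases le_or_gt κ |t| with h4 | h4
    · exact (hp3 t h4 ht.2.1).trans h3
    · exfalso
      have h5 := h.lt t ht0
      have h6 : f t ≠ 0 := by intro e; rw [e] at h5; simp at h5
      have h7 : f t ∈ T := ⟨by linarith [ht.1, h5.2], hκ t (h4.trans_le (min_le_left _ _)), by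
        rw [← sl_le_iff h6]; exact (h.sl_f t ht0).trans h3⟩
      have h8 := hmax _ h7
      linarith [h5.2]
  set b := sl f p with hb
  have hb1 : b < -1 := h.sl_lt p hp0
  have hfp : f p = b * p := (sl_eq hp0).1 rfl
  -- preimages of slope-b points are slope-b points
  have hpre : ∀ q, q ≠ 0 → |q| ≤ ρ → f q = b * q → ∀ y, f y = q → f y = b * y := by
    intro q hq0 hqρ hq y hy
    have hy0 : y ≠ 0 := by rintro rfl; rw [h.zero] at hy; exact hq0 hy.symm
    have hyq := (h.lt y hy0).2
    rw [hy] at hyq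
    rw [← sl_eq hy0]
    refine le_antisymm ?_ (hmin y hy0 (by linarith))
    have hgy0 : y + f y ≠ 0 := by
      intro e
      have : f y = -y := by linarith
      have h2 := (h.lt y hy0).2
      rw [this, abs_neg] at h2
      exact lt_irrefl _ h2
    have hgy : |y + f y| ≤ ρ := by
      have := (h.exp |y|).g_le y le_rfl
      simp only [gg] at this
      rw [hy] at this ⊢
      exact this.trans hqρ
    have h1 := hmin _ hgy0 hgy
    have h2 := h.comm y
    rw [hy, hq] at h2
    have ha := h.sl_lt y hy0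
    have hqa : q = sl f y * y := by rw [sl_mul hy0, hy]
    set a := sl f y
    have h3 : y + q = (1 + a) * y := by rw [hqa]; ring
    have h4 : sl f (y + f y) = (1 + b) * a / (1 + a) := by
      unfold sl
      rw [hy, h2, h3]
      have : q + b * q = (1 + b) * a * y := by rw [hqa]; ring
      rw [this]
      have h5 : 1 + a ≠ 0 := by linarith
      field_simp
    rw [h4, le_div_iff_of_neg (by linarith)] at h1
    linarith
  have hback : ∀ q, q ≠ 0 → |q| ≤ ρ → f q = b * q → f (q / b) = b * (q / b) ∧ |q / b| < |q| ∧ q / b ≠ 0 := by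
    intro q hq0 hqρ hq
    obtain ⟨y, hy, hy'⟩ := (h.exp |q|).pre q le_rfl
    have h1 := hpre q hq0 hqρ hq y hy
    have hy0 : y ≠ 0 := by rintro rfl; rw [h.zero] at hy; exact hq0 hy.symm
    have h2 : y = q / b := by
      have hb0 : b ≠ 0 := (by linarith : b < 0).ne
      rw [← hy, h1]; field_simp
    rw [← h2]
    refine ⟨h1, ?_, hy0⟩
    have := (h.lt y hy0).2
    rwa [hy] at this
  have hbar : ∀ q, q ≠ 0 → |q| ≤ ρ → f q = b * q → ∀ x y, 0 < x * q → |x| ≤ |q| → f y = x →
      |y| ≤ |q / b| := by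
    intro q hq0 hqρ hq x y hxq hle hy
    rcases lt_or_gt_of_ne hq0 with h5 | h5
    · exact h.bar1 b hb1 q h5 (hpre q hq0 hqρ hq) x y (by nlinarith) hle hy
    · have := h.symm.bar1 b hb1 (-q) (by linarith) (by
        intro y' hy'
        have h6 := hpre q hq0 hqρ hq (-y') (by
          have : -f (-y') = -q := hy'
          linarith)
        show -f (-y') = b * y'
        rw [h6]; ring) (-x) (-y) (by nlinarith) (by rwa [abs_neg, abs_neg]) (by
          show -f (- -y) = -x
          rw [neg_neg, hy])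
      rwa [abs_neg, neg_div, abs_neg] at this
  have habsb : |b| = -b := abs_of_neg (by linarith)
  have hclaim : ∀ n : ℕ, ∀ q, q ≠ 0 → |q| ≤ ρ → f q = b * q → ∀ x, 0 < x * q → |x| ≤ |q| →
      |x| * |b| ^ n ≤ |sl f x| ^ n * |q| := by
    intro n
    induction n with
    | zero => intro q _ _ _ x _ h2; simpa using h2
    | succ n ih =>
      intro q hq0 hqρ hq x hxq hle
      obtain ⟨y, hy, -⟩ := (h.exp |x|).pre x le_rfl
      have hx0 : x ≠ 0 := by rintro rfl; simp at hxq
      have hy0 : y ≠ 0 := by rintro rfl; rw [h.zero] at hy; exact hx0 hy.symm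
      obtain ⟨g1, g2, g3⟩ := hback q hq0 hqρ hq
      have h1 := hbar q hq0 hqρ hq x y hxq hle hy
      have h2 := (h.lt y hy0).1
      rw [hy] at h2
      have h3 : 0 < y * (q / b) := by
        have : y * (q / b) = ((y * x) * (x * q)) / (x ^ 2 * b) := by field_simp
        rw [this]
        apply div_pos_of_neg_of_neg (mul_neg_of_neg_of_pos h2 hxq)
        have : 0 < x ^ 2 := by positivity
        nlinarith
      have h4 := ih (q / b) g3 (by linarith) g1 y h3 h1
      have h5 : |x| = |sl f y| * |y| := by rw [← abs_mul, sl_mul hy0, hy]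
      have h6 : sl f x ≤ sl f y := by rw [← hy]; exact h.sl_f y hy0
      have h7 : |sl f y| ≤ |sl f x| := by
        have e1 := h.sl_lt y hy0
        have e2 := h.sl_lt x hx0
        rw [abs_of_neg (by linarith), abs_of_neg (by linarith)]; linarith
      have h8 : |q / b| * |b| = |q| := by
        rw [abs_div]; have : |b| ≠ 0 := abs_ne_zero.2 (by linarith)
        field_simp
      calc |x| * |b| ^ (n+1) = |sl f y| * (|y| * |b| ^ n) * |b| := by rw [h5]; ring
        _ ≤ |sl f y| * (|sl f y| ^ n * |q / b|) * |b| := by gcongr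
        _ = |sl f y| ^ (n+1) * (|q / b| * |b|) := by ring
        _ = |sl f y| ^ (n+1) * |q| := by rw [h8]
        _ ≤ |sl f x| ^ (n+1) * |q| := by gcongr
  have hnear : ∀ q, q ≠ 0 → |q| ≤ ρ → f q = b * q → ∀ x, 0 < x * q → |x| ≤ |q| → f x = b * x := by
    intro q hq0 hqρ hq x hxq hle
    have hx0 : x ≠ 0 := by rintro rfl; simp at hxq
    rw [← sl_eq hx0]
    refine le_antisymm ?_ (hmin x hx0 (by linarith))
    by_contra hcon
    push Not at hcon
    have e2 := h.sl_lt x hx0
    have h7 : |sl f x| < |b| := by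
      rw [abs_of_neg (by linarith), abs_of_neg (by linarith)]; linarith
    have hs : 0 < |sl f x| := abs_pos.2 (by linarith)
    have hr : 1 < |b| / |sl f x| := by rwa [one_lt_div hs]
    obtain ⟨n, hn⟩ := pow_unbounded_of_one_lt (|q| / |x|) hr
    have h2 := hclaim n q hq0 hqρ hq x hxq hle
    rw [div_pow, div_lt_div_iff₀ (abs_pos.2 hx0) (by positivity)] at hn
    linarith
  obtain ⟨g1, g2, g3⟩ := hback p hp0 hp2 hfp
  set r := |p / b| with hr
  have hr0 : 0 < r := abs_pos.2 g3
  have hsmall : ∀ x, x ≠ 0 → |x| ≤ r → f x = b * x := by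
    intro x hx0 hxr
    rcases lt_or_gt_of_ne (mul_ne_zero hx0 hp0) with h5 | h5
    · refine hnear (p / b) g3 (by linarith) g1 x ?_ hxr
      rw [mul_div_assoc']
      exact div_pos_of_neg_of_neg h5 (by linarith)
    · exact hnear p hp0 hp2 hfp x h5 (by linarith)
  refine ⟨b, ?_⟩
  intro x hx
  rcases eq_or_ne x 0 with h0 | h0
  · rw [h0, h.zero]; ring
  · rw [← sl_eq h0]
    refine le_antisymm ?_ (hmin x h0 hx)
    rcases le_or_gt |x| r with hxr | hxr
    · exact ((sl_eq h0).2 (hsmall x h0 hxr)).le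
    set T : Set ℝ := {t | r ≤ |t| ∧ |t| ≤ |x| ∧ sl f x * t ^ 2 ≤ t * f t} with hT
    have hTc : IsClosed T :=
      (isClosed_le continuous_const continuous_abs).inter
        ((isClosed_le continuous_abs continuous_const).inter (closed_ge h.cont _))
    obtain ⟨t, ht, hmin'⟩ := exMin hTc |x| (fun t ht => ht.2.1)
      ⟨x, hxr.le, le_rfl, by rw [← le_sl_iff h0]⟩
    have ht0 : t ≠ 0 := abs_pos.1 (hr0.trans_le ht.1)
    have h3 : sl f x ≤ sl f t := (le_sl_iff ht0).2 ht.2.2
    obtain ⟨y, hy, -⟩ := (h.exp |t|).pre t le_rfl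
    have hy0 : y ≠ 0 := by rintro rfl; rw [h.zero] at hy; exact ht0 hy.symm
    have h4 : sl f t ≤ sl f y := by rw [← hy]; exact h.sl_f y hy0
    have h5 := (h.lt y hy0).2
    rw [hy] at h5
    rcases le_or_gt r |y| with h6 | h6
    · have h7 : y ∈ T := ⟨h6, by linarith [ht.2.1], by rw [← le_sl_iff hy0]; linarith⟩
      have := hmin' y h7
      linarith
    · have := (sl_eq hy0).2 (hsmall y hy0 h6.le)
      linarith

theorem linear_of_local {f : ℝ → ℝ} (h : ∀ ρ > 0, ∃ b, ∀ x, |x| ≤ ρ → f x = b * x) :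
    ∀ x, f x = f 1 * x := by
  intro x
  obtain ⟨b, hb⟩ := h (max |x| 1) (lt_max_of_lt_right one_pos)
  have h1 := hb 1 (by rw [abs_one]; exact le_max_right _ _)
  rw [hb x (le_max_left _ _), h1, mul_one]

/-! ### the closed region lemma -/

theorem Exp.bound1 {f : ℝ → ℝ} {z : ℝ} (h : Exp f z) (hz : 0 < z) (h1 : f z = -z)
    (h2 : f (-z) = z) (x : ℝ) (hx0 : 0 ≤ x) (hx : x ≤ z) : |f x| ≤ z := by
  have h3 := h.pos x hx0 hx
  rw [abs_of_nonpos (by linarith)]
  by_contra hcon
  push Not at hcon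
  have hxz : x < z := by
    rcases hx.lt_or_eq with e | e
    · exact e
    · rw [e, h1] at hcon; linarith
  have hx0' : 0 < x := by
    rcases hx0.lt_or_eq with e | e
    · exact e
    · rw [← e, h.zero] at hcon; linarith
  have hcl : IsClosed {v : ℝ | v ^ 2 ≤ x * f v} := by
    have := h.cont
    exact isClosed_le (by fun_prop) (by fun_prop)
  have hsub : Ioo (-z) 0 ⊆ {v : ℝ | v ^ 2 ≤ x * f v} := by
    intro v hv
    obtain ⟨u, hu, e⟩ := intermediate_value_Icc' hx0 h.cont.continuousOn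
      (show v ∈ Icc (f x) (f 0) by rw [h.zero]; exact ⟨by linarith [hv.1], hv.2.le⟩)
    have hu0 : u ≠ 0 := by rintro rfl; rw [h.zero] at e; linarith [hv.2]
    have hLC := h.LC u hu0 (by rw [abs_of_nonneg hu.1]; linarith [hu.2])
      (by rw [e, abs_of_neg hv.2]; linarith [hv.1])
    rw [e] at hLC
    have h5 := h.neg v hv.1.le hv.2.le
    have h6 : 0 < f v := by linarith [hv.2]
    show v ^ 2 ≤ x * f v
    nlinarith [hu.2]
  have hmem : -z ∈ closure (Ioo (-z) 0) := by
    rw [closure_Ioo (by linarith)]; exact ⟨le_rfl, by linarith⟩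
  have h7 := closure_minimal hsub hcl hmem
  have h8 : (-z)^2 ≤ x * f (-z) := h7
  rw [h2] at h8
  nlinarith

theorem Exp.closed {f : ℝ → ℝ} {z : ℝ} (h : Exp f z) (hz : 0 < z) (h1 : f z = -z)
    (h2 : f (-z) = z) : ∀ x, |x| ≤ z → f x = -x := by
  have hb : ∀ x, |x| ≤ z → |f x| ≤ z := by
    intro x hx
    rcases le_total 0 x with h0 | h0
    · exact h.bound1 hz h1 h2 x h0 (by rwa [abs_of_nonneg h0] at hx)
    · have := h.symm.bound1 hz (by show -f (-z) = -z; rw [h2]) (by show -f (- -z) = z; rw [neg_neg, h1, neg_neg])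
        (-x) (by linarith) (by rwa [abs_of_nonpos h0] at hx)
      simp only [neg_neg, abs_neg] at this
      exact this
  have hrel : ∀ x, x ≠ 0 → |x| ≤ z → x * f x < 0 ∧ |x| ≤ |f x| := by
    intro x h0 hx
    rcases lt_or_gt_of_ne h0 with h5 | h5
    · have h6 := h.neg x (by have := neg_abs_le x; linarith) h5.le
      refine ⟨mul_neg_of_neg_of_pos h5 (by linarith), ?_⟩
      rw [abs_of_neg h5, abs_of_pos (by linarith)]; exact h6
    · have h6 := h.pos x h5.le ((le_abs_self _).trans hx)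
      refine ⟨mul_neg_of_pos_of_neg h5 (by linarith), ?_⟩
      rw [abs_of_pos h5, abs_of_neg (by linarith)]; linarith
  intro x hx
  by_contra hcon
  have hx0 : x ≠ 0 := by rintro rfl; rw [h.zero] at hcon; simp at hcon
  have hs : sl f x < -1 := by
    have h3 : sl f x ≤ -1 := by
      rw [sl_le_iff hx0]
      rcases lt_or_gt_of_ne hx0 with h5 | h5
      · have h6 := h.neg x (by have := neg_abs_le x; linarith) h5.le
        nlinarith
      · have h6 := h.pos x h5.le ((le_abs_self _).trans hx)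
        nlinarith
    rcases h3.lt_or_eq with e | e
    · exact e
    · exfalso; apply hcon; rw [(sl_eq hx0).1 e]; ring
  set T : Set ℝ := {t | |x| ≤ |t| ∧ |t| ≤ z ∧ t * f t ≤ sl f x * t ^ 2} with hT
  have hTc : IsClosed T :=
    (isClosed_le continuous_const continuous_abs).inter
      ((isClosed_le continuous_abs continuous_const).inter (closed_le h.cont _))
  obtain ⟨t, ht, hmax⟩ := exMax hTc z (fun t ht => ht.2.1)
    ⟨x, le_rfl, hx, by rw [← sl_le_iff hx0]⟩
  have ht0 : t ≠ 0 := abs_pos.1 ((abs_pos.2 hx0).trans_le ht.1)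
  have h3 : sl f t ≤ sl f x := (sl_le_iff ht0).2 ht.2.2
  have h4 : |t| < |f t| := by
    have h5 : |f t| = |sl f t| * |t| := by rw [← abs_mul, sl_mul ht0]
    have h6 : 1 < |sl f t| := by rw [abs_of_neg (by linarith)]; linarith
    rw [h5]
    have := abs_pos.2 ht0
    nlinarith
  have hft0 : f t ≠ 0 := abs_pos.1 ((abs_pos.2 ht0).trans h4)
  have h7 : f t ∈ T := ⟨by linarith [ht.1], hb t ht.2.1, by
    rw [← sl_le_iff hft0]
    exact (FunEq.sl_f (hrel t ht0 ht.2.1).1 (h.LC t ht0 ht.2.1 (hb t ht.2.1))).trans h3⟩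
  have := hmax _ h7
  linarith


/-! ### sign reversing solutions -/

structure Rev (f : ℝ → ℝ) : Prop where
  cont : Continuous f
  zero : f 0 = 0
  pos : ∀ x, 0 < x → f x < 0
  neg : ∀ x, x < 0 → 0 < f x
  comm : ∀ x, f (x + f x) = f x + f (f x)

theorem Rev.symm {f : ℝ → ℝ} (h : Rev f) : Rev (fun x => -f (-x)) where
  cont := by have := h.cont; fun_prop
  zero := by simp [h.zero]
  pos := by
    intro x h0
    have := h.neg (-x) (by linarith)
    linarith
  neg := by
    intro x h0
    have := h.pos (-x) (by linarith)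
    linarith
  comm := fun x => comm_symm (h.comm (-x))

theorem Rev.refl0 {f : ℝ → ℝ} (h : Rev f) (w : ℝ) (hw : f w = -w) : f (-w) = w := by
  have := h.comm w
  rw [hw, add_neg_cancel, h.zero] at this
  linarith

theorem Rev.caseA {f : ℝ → ℝ} (h : Rev f) (hacc : ∀ ε > 0, ∃ w, 0 < w ∧ w < ε ∧ f w = -w) :
    ∀ x, 0 < x → f x = -x := by
  intro x1 hx1
  by_contra hcon
  set G := x1 + f x1 with hG
  have hG0 : G ≠ 0 := by intro e; apply hcon; linarith
  have hGa := abs_pos.2 hG0
  have hcg : Continuous (fun t => t + f t) := by have := h.cont; fun_prop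
  obtain ⟨δ, hδ, hδ'⟩ := Metric.continuous_iff.1 hcg x1 (|G|/2) (by positivity)
  obtain ⟨w, hw0, hw1, hw⟩ := hacc (min (|G|/2) (δ/3)) (lt_min (by positivity) (by positivity))
  have hwG : w < |G|/2 := hw1.trans_le (min_le_left _ _)
  have hwδ : w < δ/3 := hw1.trans_le (min_le_right _ _)
  have hw' := h.refl0 w hw
  obtain ⟨e, he, hfe, hfe', x, hx, hgx⟩ : ∃ e : ℝ, (e = w ∨ e = -w) ∧ f e = -e ∧ f (-e) = e ∧
      ∃ x ∈ Icc 0 x1, x + f x = e := by
    rcases lt_or_gt_of_ne hG0 with h5 | h5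
    · rw [abs_of_neg h5] at hwG
      obtain ⟨x, hx, e⟩ := intermediate_value_Icc' hx1.le hcg.continuousOn
        (show -w ∈ Icc (x1 + f x1) (0 + f 0) by rw [h.zero]; constructor <;> linarith)
      exact ⟨-w, Or.inr rfl, by rw [hw']; ring, by rw [neg_neg, hw], x, hx, e⟩
    · rw [abs_of_pos h5] at hwG
      obtain ⟨x, hx, e⟩ := intermediate_value_Icc hx1.le hcg.continuousOn
        (show w ∈ Icc (0 + f 0) (x1 + f x1) by rw [h.zero]; constructor <;> linarith)
      exact ⟨w, Or.inl rfl, hw, hw', x, hx, e⟩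
  have he0 : e ≠ 0 := by rcases he with rfl | rfl <;> simp [hw0.ne']
  have hx0 : 0 < x := by
    rcases hx.1.lt_or_eq with h5 | h5
    · exact h5
    · exfalso; rw [← h5, h.zero] at hgx; apply he0; linarith
  have hfk : ∀ k : ℕ, f^[k] e = (-1)^k * e := by
    intro k
    induction k with
    | zero => simp
    | succ k ih =>
      rw [Function.iterate_succ_apply', ih, pow_succ]
      rcases neg_one_pow_eq_or ℝ k with e1 | e1 <;> rw [e1]
      · rw [one_mul, hfe]; ring
      · rw [neg_one_mul, hfe']; ring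
  have hgk : ∀ k : ℕ, f^[k] x + f (f^[k] x) = (-1)^k * e := by
    intro k
    have := comm_iter h.comm x k
    simp only [gg] at this
    rw [this, hgx, hfk]
  have hxk : ∀ k : ℕ, f^[k] x = (-1)^k * (x - k * e) := by
    intro k
    induction k with
    | zero => simp
    | succ k ih =>
      have := hgk k
      rw [Function.iterate_succ_apply', pow_succ]
      push_cast
      rw [ih] at this ⊢
      linarith
  have hsk : ∀ k : ℕ, 0 < (-1)^k * f^[k] x := by
    intro k
    induction k with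
    | zero => simpa using hx0
    | succ k ih =>
      rw [Function.iterate_succ_apply', pow_succ]
      rcases neg_one_pow_eq_or ℝ k with e1 | e1 <;> rw [e1] at ih ⊢
      · have := h.pos _ (by linarith : 0 < f^[k] x)
        linarith
      · have := h.neg _ (by linarith : f^[k] x < 0)
        linarith
  have hpos : ∀ k : ℕ, 0 < x - k * e := by
    intro k
    have := hsk k
    rw [hxk k, ← mul_assoc, ← mul_pow] at this
    norm_num at this
    linarith
  rcases he with rfl | rfl
  · obtain ⟨n, hn⟩ := exists_nat_gt (x / e)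
    rw [div_lt_iff₀ hw0] at hn
    have := hpos n
    linarith
  · -- dense grid
    set j := ⌊(x1 - x) / (2 * w)⌋₊ with hj
    have hxx : 0 ≤ (x1 - x) / (2 * w) := div_nonneg (by linarith [hx.2]) (by positivity)
    have h1 : (j:ℝ) ≤ (x1 - x) / (2 * w) := Nat.floor_le hxx
    have h2 : (x1 - x) / (2 * w) < j + 1 := Nat.lt_floor_add_one _
    rw [le_div_iff₀ (by positivity)] at h1
    rw [div_lt_iff₀ (by positivity)] at h2
    have h3 := hxk (2 * j)
    have h4 := hgk (2 * j)
    rw [h3, pow_mul] at h4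
    push_cast at h4
    norm_num at h4
    set t := x + 2 * j * w with ht
    have h5 : t + f t = -w := by rw [ht]; exact h4
    have h6 := hδ' t (by
      rw [Real.dist_eq, abs_lt]
      constructor
      · rw [ht]; nlinarith
      · rw [ht]; nlinarith)
    rw [Real.dist_eq] at h6
    rw [h5, ← hG] at h6
    have h7 : |G| ≤ |-w - G| + w := by
      have := abs_sub_abs_le_abs_sub G (-w)
      rw [abs_neg, abs_of_pos hw0, abs_sub_comm] at this
      linarith
    linarith

theorem sign_const {g : ℝ → ℝ} (hg : Continuous g) (a b : ℝ)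
    (hne : ∀ t, a < t → t < b → g t ≠ 0) :
    (∀ t, a < t → t < b → 0 < g t) ∨ (∀ t, a < t → t < b → g t < 0) := by
  by_contra hcon
  push Not at hcon
  obtain ⟨⟨t, h1, h2, h3⟩, ⟨s, h4, h5, h6⟩⟩ := hcon
  have h3' : g t < 0 := lt_of_le_of_ne h3 (hne t h1 h2)
  have h6' : 0 < g s := lt_of_le_of_ne h6 (hne s h4 h5).symm
  rcases le_total t s with h | h
  · obtain ⟨u, hu, e⟩ := intermediate_value_Icc h hg.continuousOn (show (0:ℝ) ∈ Icc (g t) (g s) from ⟨h3'.le, h6'.le⟩)
    exact hne u (by linarith [hu.1]) (by linarith [hu.2]) e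
  · obtain ⟨u, hu, e⟩ := intermediate_value_Icc' h hg.continuousOn (show (0:ℝ) ∈ Icc (g t) (g s) from ⟨h3'.le, h6'.le⟩)
    exact hne u (by linarith [hu.1]) (by linarith [hu.2]) e

/-- sign pattern of `g` around `0` -/
theorem Rev.signs {f : ℝ → ℝ} (h : Rev f) (W : ℝ) (hW : 0 < W)
    (hne : ∀ t, 0 < t → t < W → f t ≠ -t) :
    ((∀ t, 0 < t → t < W → 0 < t + f t) ∧ (∀ t, -W < t → t < 0 → t + f t < 0)) ∨
    ((∀ t, 0 < t → t < W → t + f t < 0) ∧ (∀ t, -W < t → t < 0 → 0 < t + f t)) := by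
  have hcg : Continuous (fun t => t + f t) := by have := h.cont; fun_prop
  have hne1 : ∀ t, 0 < t → t < W → t + f t ≠ 0 := fun t h1 h2 e => hne t h1 h2 (by linarith)
  have hne2 : ∀ t, -W < t → t < 0 → t + f t ≠ 0 := by
    intro t h1 h2 e
    have h3 := h.refl0 t (by linarith)
    exact hne (-t) (by linarith) (by linarith) (by rw [h3]; ring)
  -- a small test point
  obtain ⟨x, hx0, hxW, hfx⟩ : ∃ x, 0 < x ∧ x < W ∧ -W < f x := by
    obtain ⟨δ, hδ, hδ'⟩ := Metric.continuous_iff.1 h.cont 0 W hW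
    refine ⟨min (δ/2) (W/2), lt_min (by positivity) (by positivity), ?_, ?_⟩
    · exact (min_le_right _ _).trans_lt (by linarith)
    · have := hδ' (min (δ/2) (W/2)) (by
        rw [Real.dist_eq, sub_zero, abs_of_pos (lt_min (by positivity) (by positivity))]
        exact (min_le_left _ _).trans_lt (by linarith))
      rw [h.zero, Real.dist_eq, sub_zero, abs_lt] at this
      exact this.1
  have hfx0 := h.pos x hx0
  have hc := h.comm x
  rcases sign_const hcg 0 W hne1 with h1 | h1 <;> rcases sign_const hcg (-W) 0 hne2 with h2 | h2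
  · exfalso
    have h3 := h.pos _ (h1 x hx0 hxW)
    have h4 := h2 (f x) hfx hfx0
    linarith
  · exact Or.inl ⟨h1, h2⟩
  · exact Or.inr ⟨h1, h2⟩
  · exfalso
    have h3 := h.neg _ (h1 x hx0 hxW)
    have h4 := h2 (f x) hfx hfx0
    linarith

theorem Rev.linear {f : ℝ → ℝ} (h : Rev f) : ∃ a, ∀ x, f x = a * x := by
  have hcg : Continuous (fun t => t + f t) := by have := h.cont; fun_prop
  by_cases hacc : ∀ ε > 0, ∃ w, 0 < w ∧ w < ε ∧ f w = -w
  · refine ⟨-1, fun x => ?_⟩
    rcases lt_trichotomy x 0 with h5 | h5 | h5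
    · have := h.refl0 (-x) (h.caseA hacc (-x) (by linarith))
      rw [neg_neg] at this
      rw [this]; ring
    · rw [h5, h.zero]; ring
    · rw [h.caseA hacc x h5]; ring
  · push Not at hacc
    obtain ⟨ε, hε, hacc⟩ := hacc
    by_cases hz : ∃ x, 0 < x ∧ f x = -x
    · exfalso
      obtain ⟨x, hx, hfx⟩ := hz
      set T : Set ℝ := {t | ε ≤ t ∧ t ≤ x ∧ t + f t = 0} with hT
      have hTc : IsClosed T :=
        (isClosed_le continuous_const continuous_id).inter
          ((isClosed_le continuous_id continuous_const).inter (isClosed_eq hcg continuous_const))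
      have hεx : ε ≤ x := by
        by_contra hlt
        push Not at hlt
        exact hacc x hx hlt hfx
      obtain ⟨w, hw, hmin⟩ := exMin hTc x (by
        intro t ht; rw [abs_of_pos (by linarith [ht.1])]; exact ht.2.1)
        ⟨x, hεx, le_rfl, by rw [hfx]; ring⟩
      have hw0 : 0 < w := by linarith [hw.1]
      have hfw : f w = -w := by linarith [hw.2.2]
      have hfw' := h.refl0 w hfw
      have hne : ∀ t, 0 < t → t < w → f t ≠ -t := by
        intro t h1 h2 h3
        rcases lt_or_ge t ε with h4 | h4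
        · exact hacc t h1 h4 h3
        · have := hmin t ⟨h4, by linarith [hw.2.1], by rw [h3]; ring⟩
          rw [abs_of_pos hw0, abs_of_pos h1] at this
          linarith
      rcases h.signs w hw0 hne with ⟨h1, h2⟩ | ⟨h1, h2⟩
      · have hcon : ∀ ρ, 0 < ρ → ρ < w → Con f ρ := by
          intro ρ _ hρ
          refine ⟨h.cont, h.zero, ?_, ?_, h.comm⟩
          · intro t h3 h4
            exact ⟨by linarith [h1 t h3 (by linarith)], h.pos t h3⟩
          · intro t h3 h4
            exact ⟨h.neg t h4, by linarith [h2 t (by linarith) h4]⟩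
        obtain ⟨b, hb1, hb0, hb⟩ := (hcon (w/2) (by positivity) (by linarith)).linear (by positivity)
        have hall : ∀ t, 0 < t → t < w → f t = b * t := by
          intro t h3 h4
          obtain ⟨b', _, _, hb'⟩ := (hcon (max t (w/2)) (lt_max_of_lt_left h3)
            (max_lt h4 (by linarith))).linear (lt_max_of_lt_left h3)
          have e1 := hb (w/2) (by rw [abs_of_pos (by positivity)])
          have e2 := hb' (w/2) (by rw [abs_of_pos (by positivity)]; exact le_max_right _ _)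
          have e3 : b' = b := by
            have : (b' - b) * (w/2) = 0 := by rw [sub_mul, ← e1, ← e2]; ring
            rcases mul_eq_zero.1 this with h | h
            · linarith
            · linarith
          rw [hb' t (by rw [abs_of_pos h3]; exact le_max_left _ _), e3]
        have hcl : IsClosed {t : ℝ | f t = b * t} := by
          have := h.cont
          exact isClosed_eq (by fun_prop) (by fun_prop)
        have hmem : w ∈ closure (Ioo 0 w) := by
          rw [closure_Ioo hw0.ne]; exact ⟨hw0.le, le_rfl⟩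
        have h7 : f w = b * w :=
          closure_minimal (s := Ioo 0 w) (t := {t : ℝ | f t = b * t}) (fun t ht => hall t ht.1 ht.2) hcl hmem
        nlinarith
      · have hE : Exp f w := by
          refine ⟨h.cont, h.zero, ?_, ?_, fun x _ => h.comm x⟩
          · intro t h3 h4
            rcases h3.eq_or_lt with e | e
            · rw [← e, h.zero]; simp
            · rcases h4.eq_or_lt with e' | e'
              · rw [e', hfw]
              · linarith [h1 t e e']
          · intro t h3 h4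
            rcases h4.eq_or_lt with e | e
            · rw [e, h.zero]; simp
            · rcases h3.eq_or_lt with e' | e'
              · rw [← e', hfw']; simp
              · linarith [h2 t e' e]
        have := hE.closed hw0 hfw hfw' (w/2) (by rw [abs_of_pos (by positivity)]; linarith)
        exact hne (w/2) (by positivity) (by linarith) this
    · push Not at hz
      have hs := fun W hW => h.signs W hW (fun t h1 _ => hz t h1)
      rcases lt_or_gt_of_ne (show 1 + f 1 ≠ 0 from fun e => hz 1 one_pos (by linarith)) with h5 | h5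
      · have hbig : Big f := by
          refine ⟨h.cont, h.zero, ?_, ?_, h.comm⟩
          · intro x hx
            rcases hs (x + 1 + 1) (by linarith) with ⟨h1, _⟩ | ⟨h1, _⟩
            · have := h1 1 one_pos (by linarith)
              linarith
            · have := h1 x hx (by linarith)
              linarith
          · intro x hx
            rcases hs (-x + 1 + 1) (by linarith) with ⟨h1, _⟩ | ⟨_, h1⟩
            · have := h1 1 one_pos (by linarith)
              linarith
            · have := h1 x (by linarith) hx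
              linarith
        exact ⟨f 1, linear_of_local (fun ρ hρ => hbig.linear_on ρ hρ)⟩
      · refine ⟨f 1, linear_of_local (fun ρ hρ => ?_)⟩
        have hC : Con f ρ := by
          rcases hs (ρ + 1 + 1) (by linarith) with ⟨h1, h2⟩ | ⟨h1, _⟩
          · refine ⟨h.cont, h.zero, ?_, ?_, h.comm⟩
            · intro t h3 h4
              exact ⟨by linarith [h1 t h3 (by linarith)], h.pos t h3⟩
            · intro t h3 h4
              exact ⟨h.neg t h4, by linarith [h2 t (by linarith) h4]⟩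
          · exfalso
            have := h1 1 one_pos (by linarith)
            linarith
        obtain ⟨b, _, _, hb⟩ := hC.linear hρ
        exact ⟨b, hb⟩

end Pool.Agent.Helper17.FunEq
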