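import Pool.Agent.Helper17.FunEq

set_option autoImplicit false
open Set

namespace Pool.Agent.Helper17.FunEq

/-! ### odd modification -/

noncomputable def FF (f : ℝ → ℝ) (x : ℝ) : ℝ := -x - (f (max x 0) - f (max (-x) 0))

theorem FF_pos {f : ℝ → ℝ} (h0 : f 0 = 0) {x : ℝ} (hx : 0 ≤ x) : FF f x = -x - f x := by
  unfold FF
  rw [max_eq_left hx, max_eq_right (by linarith), h0, sub_zero]

theorem FF_neg {f : ℝ → ℝ} (h0 : f 0 = 0) {x : ℝ} (hx : x ≤ 0) : FF f x = -x + f (-x) := by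
  unfold FF
  rw [max_eq_right hx, max_eq_left (by linarith), h0]
  ring

theorem FF_cont {f : ℝ → ℝ} (h : Continuous f) : Continuous (FF f) := by
  unfold FF; fun_prop

theorem FF_comm_pos {f : ℝ → ℝ} (h0 : f 0 = 0) {x : ℝ} (hx : 0 ≤ x) (hf : 0 ≤ f x)
    (hc : f (x + f x) = f x + f (f x)) : FF f (x + FF f x) = FF f x + FF f (FF f x) := by
  rw [FF_pos h0 hx, show x + (-x - f x) = -f x by ring, FF_neg h0 (by linarith : -f x ≤ 0),
    FF_neg h0 (by linarith : -x - f x ≤ 0), neg_neg, show -(-x - f x) = x + f x by ring, hc]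
  ring

theorem FF_comm_neg {f : ℝ → ℝ} (h0 : f 0 = 0) {x : ℝ} (hx : x ≤ 0) (hf : 0 ≤ f (-x))
    (hc : f (-x + f (-x)) = f (-x) + f (f (-x))) : FF f (x + FF f x) = FF f x + FF f (FF f x) := by
  rw [FF_neg h0 hx, show x + (-x + f (-x)) = f (-x) by ring, FF_pos h0 hf,
    FF_pos h0 (by linarith : 0 ≤ -x + f (-x)), hc]
  ring

theorem half_line {f : ℝ → ℝ} (hf : Continuous f) (h0 : f 0 = 0) (hpos : ∀ x, 0 ≤ x → 0 ≤ f x)
    (hc : ∀ x, f (x + f x) = f x + f (f x)) : ∃ α, 0 ≤ α ∧ ∀ x, 0 ≤ x → f x = α * x := by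
  have hR : Rev (FF f) := by
    refine ⟨FF_cont hf, ?_, ?_, ?_, ?_⟩
    · rw [FF_pos h0 le_rfl, h0]; ring
    · intro x hx
      rw [FF_pos h0 hx.le]
      have := hpos x hx.le
      linarith
    · intro x hx
      rw [FF_neg h0 hx.le]
      have := hpos (-x) (by linarith)
      linarith
    · intro x
      rcases le_total 0 x with hx | hx
      · exact FF_comm_pos h0 hx (hpos x hx) (hc x)
      · exact FF_comm_neg h0 hx (hpos _ (by linarith)) (hc _)
  obtain ⟨a, ha⟩ := hR.linear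
  have h1 : ∀ x, 0 ≤ x → f x = (-1 - a) * x := by
    intro x hx
    have := ha x
    rw [FF_pos h0 hx] at this
    linarith
  refine ⟨-1 - a, ?_, h1⟩
  have := hpos 1 zero_le_one
  rw [h1 1 zero_le_one] at this
  linarith

theorem lemmaZ {f : ℝ → ℝ} (hf : Continuous f) (h0 : f 0 = 0)
    (hc : ∀ x, f (x + f x) = f x + f (f x)) (z : ℝ) (hz : 0 < z)
    (hpos : ∀ x, 0 ≤ x → x ≤ z → 0 ≤ f x) (hfz : f z = 0) : ∀ x, 0 ≤ x → x ≤ z → f x = 0 := by
  have hE : Exp (FF f) z := by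
    refine ⟨FF_cont hf, ?_, ?_, ?_, ?_⟩
    · rw [FF_pos h0 le_rfl, h0]; ring
    · intro x hx hxz
      rw [FF_pos h0 hx]
      have := hpos x hx hxz
      linarith
    · intro x hxz hx
      rw [FF_neg h0 hx]
      have := hpos (-x) (by linarith) (by linarith)
      linarith
    · intro x hxz
      rw [abs_le] at hxz
      rcases le_total 0 x with hx | hx
      · exact FF_comm_pos h0 hx (hpos x hx hxz.2) (hc x)
      · exact FF_comm_neg h0 hx (hpos _ (by linarith) (by linarith)) (hc _)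
  have h1 := hE.closed hz (by rw [FF_pos h0 hz.le, hfz]; ring)
    (by rw [FF_neg h0 (by linarith), neg_neg, hfz]; ring)
  intro x hx hxz
  have := h1 x (by rwa [abs_of_nonneg hx])
  rw [FF_pos h0 hx] at this
  linarith

theorem lemmaP {f : ℝ → ℝ} (hf : Continuous f) (h0 : f 0 = 0)
    (hc : ∀ x, f (x + f x) = f x + f (f x)) (r : ℝ) (hr : 0 < r)
    (hpos : ∀ x, 0 ≤ x → x ≤ r → 0 ≤ f x) : ∀ x, 0 ≤ x → 0 ≤ f x := by
  by_contra hcon
  push Not at hcon
  obtain ⟨x1, hx1, hfx1⟩ := hcon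
  set B : Set ℝ := {t | 0 ≤ t ∧ f t < 0} with hB
  have hBne : B.Nonempty := ⟨x1, hx1, hfx1⟩
  have hBr : ∀ t ∈ B, r < t := by
    intro t ht
    by_contra h; push Not at h
    exact absurd (hpos t ht.1 h) (not_le.2 ht.2)
  have hBb : BddBelow B := ⟨r, fun t ht => (hBr t ht).le⟩
  set z := sInf B with hz
  have hrz : r ≤ z := le_csInf hBne (fun t ht => (hBr t ht).le)
  have hz0 : 0 < z := by linarith
  have hlt : ∀ t, 0 ≤ t → t < z → 0 ≤ f t := by
    intro t h1 h2
    by_contra h; push Not at h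
    have := csInf_le hBb (show t ∈ B from ⟨h1, h⟩)
    linarith
  have hfz1 : f z ≤ 0 := by
    have hcl : IsClosed {t : ℝ | f t ≤ 0} := isClosed_le hf continuous_const
    have hm : z ∈ closure B := csInf_mem_closure hBne hBb
    exact closure_minimal (fun t ht => ht.2.le) hcl hm
  have hfz2 : 0 ≤ f z := by
    have hcl : IsClosed {t : ℝ | 0 ≤ f t} := isClosed_le continuous_const hf
    have hm : z ∈ closure (Ioo 0 z) := by rw [closure_Ioo hz0.ne]; exact ⟨hz0.le, le_rfl⟩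
    exact closure_minimal (fun t (ht : t ∈ Ioo 0 z) => hlt t ht.1.le ht.2) hcl hm
  have hfz : f z = 0 := le_antisymm hfz1 hfz2
  have hZ := lemmaZ hf h0 hc z hz0 (fun x h1 h2 => by
    rcases h2.lt_or_eq with h | h
    · exact hlt x h1 h
    · rw [h]; exact hfz2) hfz
  have hx1z : z ≤ x1 := csInf_le hBb ⟨hx1, hfx1⟩
  -- choose c
  obtain ⟨δ, hδ, hδ'⟩ := Metric.continuous_iff.1 hf 0 z hz0
  set c := max (f x1) (-(min z δ) / 2) with hcdef
  have hmin0 : 0 < min z δ := lt_min hz0 hδ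
  have hc0 : c < 0 := max_lt hfx1 (by linarith)
  have hcz : -z < c := by
    have := le_max_right (f x1) (-(min z δ) / 2)
    have h2 := min_le_left z δ
    linarith
  have hcδ : -δ < c := by
    have := le_max_right (f x1) (-(min z δ) / 2)
    have h2 := min_le_right z δ
    linarith
  have hcf : f x1 ≤ c := le_max_left _ _
  set S : Set ℝ := {t | z ≤ t ∧ t ≤ x1 ∧ f t = c} with hS
  have hSc : IsClosed S :=
    (isClosed_le continuous_const continuous_id).inter
      ((isClosed_le continuous_id continuous_const).inter (isClosed_eq hf continuous_const))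
  obtain ⟨t, ht, hmin⟩ := exMin hSc x1 (by
    intro t ht; rw [abs_of_pos (by linarith [ht.1])]; exact ht.2.1) (by
    obtain ⟨u, hu, e⟩ := intermediate_value_Icc' hx1z hf.continuousOn
      (show c ∈ Icc (f x1) (f z) by rw [hfz]; exact ⟨hcf, hc0.le⟩)
    exact ⟨u, hu.1, hu.2, e⟩)
  have ht0 : 0 < t := by linarith [ht.1]
  have hft : f t = c := ht.2.2
  have h1 : c < f (t + c) := by
    rcases lt_or_ge (t + c) z with h2 | h2
    · rw [hZ (t + c) (by linarith [ht.1]) h2.le]; exact hc0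
    · by_contra h3
      push Not at h3
      obtain ⟨u, hu, e⟩ := intermediate_value_Icc' h2 hf.continuousOn
        (show c ∈ Icc (f (t+c)) (f z) by rw [hfz]; exact ⟨h3, hc0.le⟩)
      have h4 := hmin u ⟨hu.1, by linarith [hu.2, ht.2.1], e⟩
      rw [abs_of_pos ht0, abs_of_pos (by linarith [hu.1])] at h4
      linarith [hu.2]
  have h2 := hc t
  rw [hft] at h2
  have hd0 : 0 < f c := by linarith
  have hdz : f c ≤ z := by
    have := hδ' c (by rw [Real.dist_eq, sub_zero, abs_of_neg hc0]; linarith)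
    rw [h0, Real.dist_eq, sub_zero] at this
    exact (le_abs_self _).trans this.le
  set d := f c with hd
  have hfd : f d = 0 := hZ d hd0.le hdz
  have hcl : ∀ n : ℕ, c + n * d < 0 ∧ f (c + n * d) = d := by
    intro n
    induction n with
    | zero => simp [hc0, ← hd]
    | succ n ih =>
      have h3 := hc (c + n * d)
      rw [ih.2, hfd, add_zero] at h3
      push_cast
      rw [show c + (n + 1) * d = c + n * d + d by ring]
      refine ⟨?_, h3⟩
      by_contra h4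
      push Not at h4
      rw [hZ _ h4 (by linarith [ih.1])] at h3
      linarith
  obtain ⟨n, hn⟩ := exists_nat_gt (-c / d)
  rw [div_lt_iff₀ hd0] at hn
  linarith [(hcl n).1]

theorem lemmaN {f : ℝ → ℝ} (hc : ∀ x, f (x + f x) = f x + f (f x)) (α : ℝ) (hα : 0 ≤ α)
    (hlin : ∀ x, 0 ≤ x → f x = α * x) : ∀ x, x ≤ 0 → f x ≤ 0 := by
  intro x1 hx1
  by_contra hcon
  push Not at hcon
  set c := f x1 with hcdef
  have hcl : ∀ n : ℕ, ∃ x, x ≤ 0 ∧ c ≤ f x ∧ x1 + n * c ≤ x := by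
    intro n
    induction n with
    | zero => exact ⟨x1, hx1, le_rfl, by simp⟩
    | succ n ih =>
      obtain ⟨x, h1, h2, h3⟩ := ih
      have h4 : 0 < f x := by linarith
      have h5 := hc x
      rw [hlin (f x) h4.le] at h5
      refine ⟨x + f x, ?_, ?_, ?_⟩
      · by_contra h6
        push Not at h6
        rw [hlin _ h6.le] at h5
        nlinarith
      · rw [h5]; nlinarith
      · push_cast; nlinarith
  obtain ⟨n, hn⟩ := exists_nat_gt (-x1 / c)
  rw [div_lt_iff₀ hcon] at hn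
  obtain ⟨x, h1, _, h3⟩ := hcl n
  linarith

theorem noZ {f : ℝ → ℝ} (hf : Continuous f) (hc : ∀ x, f (x + f x) = f x + f (f x))
    (hA : ∀ ε > 0, ∃ x, 0 < x ∧ x < ε ∧ f x < 0)
    (hB : ∀ ε > 0, ∃ x, -ε < x ∧ x < 0 ∧ 0 ≤ f x) : ∀ x, 0 < x → f x < 0 := by
  intro z0 hz0
  by_contra hcon
  push Not at hcon
  obtain ⟨x1, hx1, hx1z, hfx1⟩ := hA z0 hz0
  obtain ⟨δ, hδ, hδ'⟩ := Metric.continuous_iff.1 hf x1 (-(f x1) / 2) (by linarith)
  obtain ⟨c, hc1, hc0, hfc⟩ := hB (min δ (-(f x1) / 2)) (lt_min hδ (by linarith))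
  have hcδ : -δ < c := by have := min_le_left δ (-(f x1) / 2); linarith
  have hcf : f x1 / 2 < c := by have := min_le_right δ (-(f x1) / 2); linarith
  set S : Set ℝ := {t | x1 ≤ t ∧ t ≤ z0 ∧ f t = c} with hS
  have hSc : IsClosed S :=
    (isClosed_le continuous_const continuous_id).inter
      ((isClosed_le continuous_id continuous_const).inter (isClosed_eq hf continuous_const))
  obtain ⟨t, ht, hmin⟩ := exMin hSc z0 (by
    intro t ht; rw [abs_of_pos (by linarith [ht.1])]; exact ht.2.1) (by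
    obtain ⟨u, hu, e⟩ := intermediate_value_Icc hx1z.le hf.continuousOn
      (show c ∈ Icc (f x1) (f z0) from ⟨by linarith, by linarith⟩)
    exact ⟨u, hu.1, hu.2, e⟩)
  have ht0 : 0 < t := by linarith [ht.1]
  have h2 := hc t
  rw [ht.2.2] at h2
  rcases lt_or_ge (t + c) x1 with h3 | h3
  · have h4 := hδ' t (by
      rw [Real.dist_eq, abs_lt]; constructor <;> linarith [ht.1])
    rw [Real.dist_eq, ht.2.2, abs_lt] at h4
    linarith [h4.2]
  · obtain ⟨u, hu, e⟩ := intermediate_value_Icc h3 hf.continuousOn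
      (show c ∈ Icc (f x1) (f (t + c)) from ⟨by linarith, by linarith⟩)
    have h4 := hmin u ⟨hu.1, by linarith [hu.2, ht.2.1], e⟩
    rw [abs_of_pos ht0, abs_of_pos (by linarith [hu.1])] at h4
    linarith [hu.2]

theorem nonneg_case {f : ℝ → ℝ} (hf : Continuous f) (h0 : f 0 = 0)
    (hc : ∀ x, f (x + f x) = f x + f (f x)) (r : ℝ) (hr : 0 < r)
    (hpos : ∀ x, 0 ≤ x → x ≤ r → 0 ≤ f x) :
    ∃ α β : ℝ, 0 ≤ α ∧ 0 ≤ β ∧ (∀ x, 0 ≤ x → f x = α * x) ∧ (∀ x, x ≤ 0 → f x = β * x) := by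
  have h1 := lemmaP hf h0 hc r hr hpos
  obtain ⟨α, hα, h2⟩ := half_line hf h0 h1 hc
  have h3 := lemmaN hc α hα h2
  obtain ⟨β, hβ, h4⟩ := half_line (f := fun x => -f (-x)) (by fun_prop) (by simp [h0])
    (by intro x hx; have := h3 (-x) (by linarith); linarith) (fun x => comm_symm (hc (-x)))
  refine ⟨α, β, hα, hβ, h2, ?_⟩
  intro x hx
  have := h4 (-x) (by linarith)
  simp only [neg_neg] at this
  linarith

theorem main {f : ℝ → ℝ} (hf : Continuous f) (hc : ∀ x, f (x + f x) = f x + f (f x)) :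
    (∃ a : ℝ, ∀ x, f x = a * x) ∨
    ∃ α β : ℝ, 0 ≤ α ∧ 0 ≤ β ∧ (∀ x, 0 ≤ x → f x = α * x) ∧ (∀ x, x ≤ 0 → f x = β * x) := by
  have h0 : f 0 = 0 := by
    have := hc 0
    rw [zero_add] at this
    linarith
  have hc' : ∀ x, (fun x => -f (-x)) (x + (fun x => -f (-x)) x) =
      (fun x => -f (-x)) x + (fun x => -f (-x)) ((fun x => -f (-x)) x) :=
    fun x => comm_symm (hc (-x))
  by_cases hp : ∃ r, 0 < r ∧ ∀ x, 0 ≤ x → x ≤ r → 0 ≤ f x
  · obtain ⟨r, hr, h⟩ := hp
    exact Or.inr (nonneg_case hf h0 hc r hr h)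
  by_cases hn : ∃ r, 0 < r ∧ ∀ x, 0 ≤ x → x ≤ r → f (-x) ≤ 0
  · obtain ⟨r, hr, h⟩ := hn
    obtain ⟨α, β, hα, hβ, h1, h2⟩ := nonneg_case (f := fun x => -f (-x)) (by fun_prop)
      (by simp [h0]) hc' r hr (by intro x h1 h2; have := h x h1 h2; linarith)
    refine Or.inr ⟨β, α, hβ, hα, ?_, ?_⟩
    · intro x hx
      have := h2 (-x) (by linarith)
      simp only [neg_neg] at this
      linarith
    · intro x hx
      have := h1 (-x) (by linarith)
      simp only [neg_neg] at this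
      linarith
  push Not at hp hn
  have hA : ∀ ε > 0, ∃ x, 0 < x ∧ x < ε ∧ f x < 0 := by
    intro ε hε
    obtain ⟨x, h1, h2, h3⟩ := hp (ε/2) (by positivity)
    rcases h1.eq_or_lt with e | e
    · rw [← e, h0] at h3; exact absurd h3 (lt_irrefl _)
    · exact ⟨x, e, by linarith, h3⟩
  have hB : ∀ ε > 0, ∃ x, 0 < x ∧ x < ε ∧ 0 < f (-x) := by
    intro ε hε
    obtain ⟨x, h1, h2, h3⟩ := hn (ε/2) (by positivity)
    rcases h1.eq_or_lt with e | e
    · rw [← e, neg_zero, h0] at h3; exact absurd h3 (lt_irrefl _)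
    · exact ⟨x, e, by linarith, h3⟩
  left
  have hpos := noZ hf hc hA (by
    intro ε hε
    obtain ⟨x, h1, h2, h3⟩ := hB ε hε
    exact ⟨-x, by linarith, by linarith, h3.le⟩)
  have hneg := noZ (f := fun x => -f (-x)) (by fun_prop) hc' (by
    intro ε hε
    obtain ⟨x, h1, h2, h3⟩ := hB ε hε
    exact ⟨x, h1, h2, by linarith⟩) (by
    intro ε hε
    obtain ⟨x, h1, h2, h3⟩ := hA ε hε
    exact ⟨-x, by linarith, by linarith, by simp only [neg_neg]; linarith⟩)
  exact Rev.linear ⟨hf, h0, hpos, by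
    intro x hx
    have := hneg (-x) (by linarith)
    simp only [neg_neg] at this
    linarith, hc⟩

end Pool.Agent.Helper17.FunEq
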