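import Mathlib

set_option autoImplicit false
open MeasureTheory Set Filter Topology
open scoped Interval

namespace Pool.Agent.Helper17.HillEx

noncomputable def r : ℝ := Real.sqrt 3
theorem r_sq : r ^ 2 = 3 := Real.sq_sqrt (by norm_num)
theorem r_pos : 0 < r := Real.sqrt_pos.mpr (by norm_num)
theorem r_lt : r < 2 := by
  have := r_sq; nlinarith [r_pos]

noncomputable def den (x : ℝ) : ℝ := 1 + 3 * Real.cos x ^ 2
theorem den_pos (x : ℝ) : 0 < den x := by unfold den; positivity

noncomputable def th (x : ℝ) : ℝ := Real.arctan (r * Real.cos x)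
noncomputable def th1 (x : ℝ) : ℝ := - r * Real.sin x / den x
noncomputable def th2 (x : ℝ) : ℝ :=
  (-r * Real.cos x * den x - (- r * Real.sin x) * (-6 * Real.cos x * Real.sin x)) / den x ^ 2

theorem th_deriv (x : ℝ) : HasDerivAt th (th1 x) x := by
  have h := ((Real.hasDerivAt_cos x).const_mul r).arctan
  refine HasDerivAt.congr_deriv (f := th) h ?_
  unfold th1 den
  rw [mul_pow, r_sq]
  have := den_pos x
  unfold den at this
  field_simp

theorem den_deriv (x : ℝ) : HasDerivAt den (-6 * Real.cos x * Real.sin x) x := by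
  have h := (((Real.hasDerivAt_cos x).pow 2).const_mul 3).const_add 1
  refine HasDerivAt.congr_deriv (f := den) h ?_
  simp
  ring

theorem th1_deriv (x : ℝ) : HasDerivAt th1 (th2 x) x := by
  have h := ((Real.hasDerivAt_sin x).const_mul (-r)).div (den_deriv x) (den_pos x).ne'
  exact h

/-- cos 2θ, sin 2θ -/
noncomputable def c2 (x : ℝ) : ℝ := (1 - 3 * Real.cos x ^ 2) / den x
noncomputable def s2 (x : ℝ) : ℝ := 2 * r * Real.cos x / den x

theorem cos_two_th (x : ℝ) : Real.cos (2 * th x) = c2 x := by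
  rw [Real.cos_two_mul, th, Real.cos_sq_arctan, c2, den, mul_pow, r_sq]
  have := den_pos x
  unfold den at this
  field_simp
  ring

theorem sin_two_th (x : ℝ) : Real.sin (2 * th x) = s2 x := by
  rw [Real.sin_two_mul]
  unfold th s2 den
  rw [Real.sin_arctan, Real.cos_arctan]
  have h := den_pos x
  unfold den at h
  have h2 : 0 < 1 + (r * Real.cos x) ^ 2 := by positivity
  have h3 : Real.sqrt (1 + (r * Real.cos x) ^ 2) ^ 2 = 1 + 3 * Real.cos x ^ 2 := by
    rw [Real.sq_sqrt h2.le, mul_pow, r_sq]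
  have h4 : Real.sqrt (1 + (r * Real.cos x) ^ 2) ≠ 0 := (Real.sqrt_pos.mpr h2).ne'
  have h5 : (1 + 3 * Real.cos x ^ 2) ≠ 0 := h.ne'
  rw [← h3]
  field_simp

noncomputable def Cc (x : ℝ) : ℝ := - Real.arctan (Real.sin (2 * x) / (3 + Real.cos (2 * x)))
noncomputable def Ss (x : ℝ) : ℝ :=
  (Real.log (1 + r / 2 * Real.sin x) - Real.log (1 - r / 2 * Real.sin x)) / 2

theorem Cc_deriv (x : ℝ) : HasDerivAt Cc (c2 x) x := by
  have h0 : 0 < 3 + Real.cos (2 * x) := by linarith [Real.neg_one_le_cos (2 * x)]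
  have hs : HasDerivAt (fun x : ℝ => Real.sin (2 * x)) (Real.cos (2 * x) * 2) x := by
    have := (hasDerivAt_id x).const_mul (2:ℝ)
    simpa using this.sin
  have hc : HasDerivAt (fun x : ℝ => 3 + Real.cos (2 * x)) (-Real.sin (2 * x) * 2) x := by
    have := (hasDerivAt_id x).const_mul (2:ℝ)
    simpa using this.cos.const_add (3:ℝ)
  have h := ((hs.div hc h0.ne').arctan).neg
  refine HasDerivAt.congr_deriv (f := Cc) h ?_
  symm
  unfold c2 den
  have h1 := Real.sin_sq_add_cos_sq x
  have hD := den_pos x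
  unfold den at hD
  have h2 : 1 + (Real.sin (2 * x) / (3 + Real.cos (2 * x))) ^ 2 ≠ 0 := by positivity
  have e2 : Real.sin (2*x) ^ 2 = 1 - Real.cos (2*x)^2 := by
    have := Real.sin_sq_add_cos_sq (2*x); linarith
  have e3 : Real.cos (2 * x) = 2 * Real.cos x ^ 2 - 1 := Real.cos_two_mul x
  have key : 1 + (Real.sin (2 * x) / (3 + Real.cos (2 * x))) ^ 2 =
      (10 + 6 * Real.cos (2*x)) / (3 + Real.cos (2 * x)) ^ 2 := by
    field_simp
    nlinarith
  simp only [Pi.div_apply]
  rw [key]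
  have h5 : 10 + 6 * Real.cos (2 * x) ≠ 0 := by linarith [Real.neg_one_le_cos (2 * x)] |> fun h : 0 < 10 + 6 * Real.cos (2*x) => h.ne'
  have key2 : (Real.cos (2 * x) * 2 * (3 + Real.cos (2 * x)) - Real.sin (2 * x) * (-Real.sin (2 * x) * 2)) = 6 * Real.cos (2*x) + 2 := by
    nlinarith
  rw [key2]
  field_simp
  rw [e3]
  ring

theorem sin_bd (x : ℝ) : 0 < 1 + r / 2 * Real.sin x ∧ 0 < 1 - r / 2 * Real.sin x := by
  have h1 := Real.neg_one_le_sin x
  have h2 := Real.sin_le_one x
  have h3 := r_pos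
  have h4 := r_lt
  constructor <;> nlinarith

theorem Ss_deriv (x : ℝ) : HasDerivAt Ss (s2 x) x := by
  obtain ⟨h1, h2⟩ := sin_bd x
  have hs := (Real.hasDerivAt_sin x).const_mul (r/2)
  have h := (((hs.const_add 1).log h1.ne').sub ((hs.const_sub 1).log h2.ne')).div_const 2
  refine HasDerivAt.congr_deriv (f := Ss) h ?_
  symm
  unfold s2 den
  have h3 : (1 + r / 2 * Real.sin x) * (1 - r / 2 * Real.sin x) = (1 + 3 * Real.cos x ^ 2) / 4 := by
    have := Real.sin_sq_add_cos_sq x
    have hr := r_sq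
    have : Real.sin x ^ 2 = 1 - Real.cos x ^ 2 := by linarith
    calc (1 + r / 2 * Real.sin x) * (1 - r / 2 * Real.sin x) = 1 - r^2/4 * Real.sin x ^ 2 := by ring
      _ = _ := by rw [hr, this]; ring
  have hD := den_pos x
  unfold den at hD
  have h4 : r / 2 * Real.cos x / (1 + r / 2 * Real.sin x) - -(r / 2 * Real.cos x) / (1 - r / 2 * Real.sin x)
      = (r * Real.cos x) / ((1 + r / 2 * Real.sin x) * (1 - r / 2 * Real.sin x)) := by
    rw [div_sub_div _ _ h1.ne' h2.ne']
    congr 1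
    ring
  rw [h4, h3]
  field_simp
  ring


/-! complex functions -/
open Complex

noncomputable def G (x : ℝ) : ℂ := (Cc x : ℂ) - I * (Ss x : ℂ)
noncomputable def u1 (x : ℝ) : ℂ := Complex.exp (I * (th x : ℂ))
noncomputable def w1 (x : ℝ) : ℂ := Complex.exp (-(I * (th x : ℂ)))
noncomputable def du1 (x : ℝ) : ℂ := I * (th1 x : ℂ) * u1 x
noncomputable def q (x : ℝ) : ℂ := I * (th2 x : ℂ) - (th1 x : ℂ) ^ 2
noncomputable def u2 (x : ℝ) : ℂ := G x * u1 x
noncomputable def du2 (x : ℝ) : ℂ := w1 x + G x * du1 x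

theorem u1_mul_w1 (x : ℝ) : u1 x * w1 x = 1 := by
  unfold u1 w1; rw [← Complex.exp_add]; simp

theorem u1_sq (x : ℝ) : u1 x ^ 2 = (c2 x : ℂ) + I * (s2 x : ℂ) := by
  unfold u1
  rw [← Complex.exp_nat_mul, ← cos_two_th, ← sin_two_th]
  push_cast
  rw [show (2:ℂ) * (I * (th x : ℂ)) = (2 * (th x : ℂ)) * I by ring, Complex.exp_mul_I]
  ring

theorem w1_sq (x : ℝ) : w1 x ^ 2 = (c2 x : ℂ) - I * (s2 x : ℂ) := by
  unfold w1
  rw [← Complex.exp_nat_mul, ← cos_two_th, ← sin_two_th]
  push_cast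
  rw [show (2:ℂ) * (-(I * (th x : ℂ))) = (-(2 * (th x : ℂ))) * I by ring, Complex.exp_mul_I,
    Complex.cos_neg, Complex.sin_neg]
  ring

theorem G_deriv (x : ℝ) : HasDerivAt G (w1 x ^ 2) x := by
  rw [w1_sq]
  exact (Cc_deriv x).ofReal_comp.sub ((Ss_deriv x).ofReal_comp.const_mul I)

theorem u1_deriv (x : ℝ) : HasDerivAt u1 (du1 x) x := by
  have h := ((th_deriv x).ofReal_comp.const_mul I).cexp
  refine HasDerivAt.congr_deriv (f := u1) h ?_
  unfold du1 u1
  ring

theorem w1_deriv (x : ℝ) : HasDerivAt w1 (-(I * (th1 x : ℂ) * w1 x)) x := by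
  have h := ((th_deriv x).ofReal_comp.const_mul I).neg.cexp
  refine HasDerivAt.congr_deriv (f := w1) h ?_
  unfold w1
  simp only [Pi.neg_apply]
  ring

theorem du1_deriv (x : ℝ) : HasDerivAt du1 (q x * u1 x) x := by
  have h := ((th1_deriv x).ofReal_comp.const_mul I).mul (u1_deriv x)
  refine HasDerivAt.congr_deriv (f := du1) h ?_
  unfold q du1
  linear_combination (th1 x : ℂ) ^ 2 * u1 x * I_sq

theorem u2_deriv (x : ℝ) : HasDerivAt u2 (du2 x) x := by
  have h := (G_deriv x).mul (u1_deriv x)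
  refine HasDerivAt.congr_deriv (f := u2) h ?_
  unfold du2
  linear_combination w1 x * u1_mul_w1 x

theorem du2_deriv (x : ℝ) : HasDerivAt du2 (q x * u2 x) x := by
  have h := (w1_deriv x).add ((G_deriv x).mul (du1_deriv x))
  refine HasDerivAt.congr_deriv (f := du2) h ?_
  unfold u2 du1
  linear_combination (I * th1 x * w1 x) * u1_mul_w1 x

theorem wron (x : ℝ) : u1 x * du2 x - u2 x * du1 x = 1 := by
  unfold du2 u2
  linear_combination u1_mul_w1 x

theorem th_per (x : ℝ) : th (x + 2 * Real.pi) = th x := by simp [th]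
theorem th1_per (x : ℝ) : th1 (x + 2 * Real.pi) = th1 x := by simp [th1, den]
theorem th2_per (x : ℝ) : th2 (x + 2 * Real.pi) = th2 x := by simp [th2, den]
theorem s2_per (x : ℝ) : s2 (x + 2 * Real.pi) = s2 x := by simp [s2, den]
theorem Cc_per (x : ℝ) : Cc (x + 2 * Real.pi) = Cc x := by
  unfold Cc
  rw [show 2 * (x + 2 * Real.pi) = 2 * x + 2 * Real.pi + 2 * Real.pi by ring]
  simp only [Real.sin_add_two_pi, Real.cos_add_two_pi]
theorem Ss_per (x : ℝ) : Ss (x + 2 * Real.pi) = Ss x := by simp [Ss]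
theorem G_per (x : ℝ) : G (x + 2 * Real.pi) = G x := by simp only [G, Cc_per, Ss_per]
theorem u1_per (x : ℝ) : u1 (x + 2 * Real.pi) = u1 x := by simp only [u1, th_per]
theorem w1_per (x : ℝ) : w1 (x + 2 * Real.pi) = w1 x := by simp only [w1, th_per]
theorem du1_per (x : ℝ) : du1 (x + 2 * Real.pi) = du1 x := by simp only [du1, th1_per, u1_per]
theorem q_per (x : ℝ) : q (x + 2 * Real.pi) = q x := by simp only [q, th1_per, th2_per]
theorem u2_per (x : ℝ) : u2 (x + 2 * Real.pi) = u2 x := by simp only [u2, G_per, u1_per]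
theorem du2_per (x : ℝ) : du2 (x + 2 * Real.pi) = du2 x := by
  simp only [du2, G_per, w1_per, du1_per]

theorem u1_cont : Continuous u1 := continuous_iff_continuousAt.2 fun x => (u1_deriv x).continuousAt
theorem u2_cont : Continuous u2 := continuous_iff_continuousAt.2 fun x => (u2_deriv x).continuousAt
theorem du1_cont : Continuous du1 := continuous_iff_continuousAt.2 fun x => (du1_deriv x).continuousAt
theorem du2_cont : Continuous du2 := continuous_iff_continuousAt.2 fun x => (du2_deriv x).continuousAt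
theorem Cc_cont : Continuous Cc := continuous_iff_continuousAt.2 fun x => (Cc_deriv x).continuousAt
theorem Ss_cont : Continuous Ss := continuous_iff_continuousAt.2 fun x => (Ss_deriv x).continuousAt
theorem G_cont : Continuous G := continuous_iff_continuousAt.2 fun x => (G_deriv x).continuousAt
theorem den_cont : Continuous den := continuous_iff_continuousAt.2 fun x => (den_deriv x).continuousAt
theorem c2_cont : Continuous c2 := by
  unfold c2
  exact Continuous.div (by fun_prop) den_cont (fun x => (den_pos x).ne')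
theorem s2_cont : Continuous s2 := by
  unfold s2
  exact Continuous.div (by fun_prop) den_cont (fun x => (den_pos x).ne')
theorem th1_cont : Continuous th1 := continuous_iff_continuousAt.2 fun x => (th1_deriv x).continuousAt
theorem th2_cont : Continuous th2 := by
  unfold th2
  have := den_cont
  exact Continuous.div (by fun_prop) (by fun_prop) (fun x => (pow_pos (den_pos x) 2).ne')
theorem q_cont : Continuous q := by
  unfold q
  have h1 := th1_cont
  have h2 := th2_cont
  fun_prop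

/-- first integral -/
theorem int_u1_sq (x : ℝ) : ∫ t in x..(x + 2 * Real.pi), u1 t ^ 2 = 0 := by
  have h : ∀ t ∈ uIcc x (x + 2 * Real.pi),
      HasDerivAt (fun t => (Cc t : ℂ) + I * (Ss t : ℂ)) (u1 t ^ 2) t := by
    intro t _
    rw [u1_sq]
    exact (Cc_deriv t).ofReal_comp.add ((Ss_deriv t).ofReal_comp.const_mul I)
  rw [intervalIntegral.integral_eq_sub_of_hasDerivAt h ((u1_cont.pow 2).intervalIntegrable _ _)]
  simp only [Cc_per, Ss_per]
  ring

theorem G_neg (x : ℝ) : G (-x) = - G x := by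
  unfold G Cc Ss
  rw [mul_neg, Real.sin_neg, Real.cos_neg, Real.sin_neg, neg_div, Real.arctan_neg]
  push_cast
  rw [mul_neg, sub_neg_eq_add, ← sub_eq_add_neg]
  ring

theorem u1_neg (x : ℝ) : u1 (-x) = u1 x := by
  unfold u1 th; rw [Real.cos_neg]

theorem int_u1_u2 : ∫ t in (0:ℝ)..(2 * Real.pi), u1 t * u2 t = 0 := by
  have h := intervalIntegral.integral_comp_sub_left (fun t => u1 t * u2 t) (2 * Real.pi)
    (a := 0) (b := 2 * Real.pi)
  rw [sub_self, sub_zero] at h
  have h2 : ∀ t, u1 (2 * Real.pi - t) * u2 (2 * Real.pi - t) = -(u1 t * u2 t) := by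
    intro t
    have e1 : u1 (2 * Real.pi - t) = u1 t := by
      rw [show 2 * Real.pi - t = -t + 2 * Real.pi by ring, u1_per, u1_neg]
    have e2 : G (2 * Real.pi - t) = - G t := by
      rw [show 2 * Real.pi - t = -t + 2 * Real.pi by ring, G_per, G_neg]
    unfold u2
    rw [e1, e2]; ring
  simp only [h2] at h
  rw [intervalIntegral.integral_neg] at h
  have : (2:ℂ) * ∫ t in (0:ℝ)..(2 * Real.pi), u1 t * u2 t = 0 := by linear_combination -h
  simpa using this

theorem Ss_nonneg (x : ℝ) (h : 0 ≤ Real.sin x) : 0 ≤ Ss x := by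
  obtain ⟨h1, h2⟩ := sin_bd x
  have h3 := r_pos
  have : Real.log (1 - r / 2 * Real.sin x) ≤ Real.log (1 + r / 2 * Real.sin x) :=
    Real.log_le_log h2 (by nlinarith)
  unfold Ss; linarith

theorem Ss_nonpos (x : ℝ) (h : Real.sin x ≤ 0) : Ss x ≤ 0 := by
  obtain ⟨h1, h2⟩ := sin_bd x
  have h3 := r_pos
  have : Real.log (1 + r / 2 * Real.sin x) ≤ Real.log (1 - r / 2 * Real.sin x) :=
    Real.log_le_log h1 (by nlinarith)
  unfold Ss; linarith

theorem Cc_nonpos (x : ℝ) (h : 0 ≤ Real.sin x * Real.cos x) : Cc x ≤ 0 := by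
  have h0 : 0 < 3 + Real.cos (2 * x) := by linarith [Real.neg_one_le_cos (2 * x)]
  have : 0 ≤ Real.arctan (Real.sin (2 * x) / (3 + Real.cos (2 * x))) := by
    rw [Real.arctan_nonneg]
    apply div_nonneg _ h0.le
    rw [Real.sin_two_mul]; linarith
  unfold Cc; linarith

theorem Cc_nonneg (x : ℝ) (h : Real.sin x * Real.cos x ≤ 0) : 0 ≤ Cc x := by
  have h0 : 0 < 3 + Real.cos (2 * x) := by linarith [Real.neg_one_le_cos (2 * x)]
  have : Real.arctan (Real.sin (2 * x) / (3 + Real.cos (2 * x))) ≤ 0 := by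
    refine (Real.arctan_strictMono.monotone ?_).trans_eq Real.arctan_zero
    apply div_nonpos_of_nonpos_of_nonneg _ h0.le
    rw [Real.sin_two_mul]; linarith
  unfold Cc; linarith

theorem s2_nonneg (x : ℝ) (h : 0 ≤ Real.cos x) : 0 ≤ s2 x := by
  have := den_pos x
  have := r_pos
  unfold s2; positivity

theorem s2_nonpos (x : ℝ) (h : Real.cos x ≤ 0) : s2 x ≤ 0 := by
  have h1 := den_pos x
  have := r_pos
  unfold s2
  apply div_nonpos_of_nonpos_of_nonneg _ h1.le
  nlinarith

theorem css_nonpos (x : ℝ) : 0 ≤ -(Cc x * Ss x * s2 x) := by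
  rw [neg_nonneg]
  rcases le_total 0 (Real.sin x) with hs | hs <;> rcases le_total 0 (Real.cos x) with hc | hc
  · exact mul_nonpos_of_nonpos_of_nonneg
      (mul_nonpos_of_nonpos_of_nonneg (Cc_nonpos x (mul_nonneg hs hc)) (Ss_nonneg x hs))
      (s2_nonneg x hc)
  · exact mul_nonpos_of_nonneg_of_nonpos
      (mul_nonneg (Cc_nonneg x (mul_nonpos_of_nonneg_of_nonpos hs hc)) (Ss_nonneg x hs))
      (s2_nonpos x hc)
  · exact mul_nonpos_of_nonpos_of_nonneg
      (mul_nonpos_of_nonneg_of_nonpos (Cc_nonneg x (mul_nonpos_of_nonpos_of_nonneg hs hc))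
        (Ss_nonpos x hs))
      (s2_nonneg x hc)
  · exact mul_nonpos_of_nonneg_of_nonpos
      (mul_nonneg_of_nonpos_of_nonpos (Cc_nonpos x (mul_nonneg_of_nonpos_of_nonpos hs hc)) (Ss_nonpos x hs))
      (s2_nonpos x hc)

theorem css_pos_pt : 0 < -(Cc (Real.pi / 4) * Ss (Real.pi / 4) * s2 (Real.pi / 4)) := by
  have hr := r_pos
  have h1 : 0 < Real.sin (Real.pi / 4) := Real.sin_pos_of_pos_of_lt_pi (by positivity) (by linarith [Real.pi_pos])
  have h2 : 0 < Real.cos (Real.pi / 4) := Real.cos_pos_of_mem_Ioo ⟨by linarith [Real.pi_pos], by linarith [Real.pi_pos]⟩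
  have hC : Cc (Real.pi / 4) < 0 := by
    have h0 : 0 < 3 + Real.cos (2 * (Real.pi / 4)) := by linarith [Real.neg_one_le_cos (2 * (Real.pi / 4))]
    have : 0 < Real.arctan (Real.sin (2 * (Real.pi / 4)) / (3 + Real.cos (2 * (Real.pi / 4)))) := by
      rw [Real.arctan_pos]
      apply div_pos _ h0
      rw [Real.sin_two_mul]; positivity
    unfold Cc; linarith
  have hS : 0 < Ss (Real.pi / 4) := by
    obtain ⟨h3, h4⟩ := sin_bd (Real.pi / 4)
    have : Real.log (1 - r / 2 * Real.sin (Real.pi / 4)) < Real.log (1 + r / 2 * Real.sin (Real.pi / 4)) :=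
      Real.log_lt_log h4 (by nlinarith)
    unfold Ss; linarith
  have hs : 0 < s2 (Real.pi / 4) := by
    have := den_pos (Real.pi / 4)
    unfold s2; positivity
  have := mul_neg_of_neg_of_pos (mul_neg_of_neg_of_pos hC hS) hs
  linarith

theorem css_int : ∫ t in (0:ℝ)..(2 * Real.pi), Cc t * Ss t * s2 t < 0 := by
  have h : 0 < ∫ t in (0:ℝ)..(2 * Real.pi), -(Cc t * Ss t * s2 t) := by
    apply intervalIntegral.integral_pos (by positivity)
    · exact (((Cc_cont.mul Ss_cont).mul s2_cont).neg).continuousOn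
    · intro x _; exact css_nonpos x
    · exact ⟨Real.pi / 4, ⟨by positivity, by linarith [Real.pi_pos]⟩, css_pos_pt⟩
  rw [intervalIntegral.integral_neg] at h
  linarith

noncomputable def K : ℂ := ∫ t in (0:ℝ)..(2 * Real.pi), u2 t * u2 t

theorem K_re : K.re = 4 * ∫ t in (0:ℝ)..(2 * Real.pi), Cc t * Ss t * s2 t := by
  have h1 : K.re = ∫ t in (0:ℝ)..(2 * Real.pi), (u2 t * u2 t).re := by
    have := Complex.reCLM.intervalIntegral_comp_comm (μ := volume) (a := 0) (b := 2 * Real.pi)
      (f := fun t => u2 t * u2 t) ((u2_cont.mul u2_cont).intervalIntegrable _ _)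
    exact this.symm
  have h2 : ∀ t, (u2 t * u2 t).re =
      (c2 t * (Cc t ^ 2 - Ss t ^ 2) - 2 * (Cc t * Ss t * s2 t)) + 4 * (Cc t * Ss t * s2 t) := by
    intro t
    have : u2 t * u2 t = u1 t ^ 2 * G t ^ 2 := by unfold u2; ring
    rw [this, u1_sq, G]
    simp [pow_two]
    ring
  rw [h1]
  simp only [h2]
  have hc := c2_cont
  have hs := s2_cont
  have hC := Cc_cont
  have hS := Ss_cont
  rw [intervalIntegral.integral_add (Continuous.intervalIntegrable (by fun_prop) _ _)
    (Continuous.intervalIntegrable (by fun_prop) _ _), intervalIntegral.integral_const_mul]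
  have h3 : ∀ t ∈ uIcc (0:ℝ) (2 * Real.pi),
      HasDerivAt (fun t => Cc t ^ 3 / 3 - Cc t * Ss t ^ 2)
        (c2 t * (Cc t ^ 2 - Ss t ^ 2) - 2 * (Cc t * Ss t * s2 t)) t := by
    intro t _
    have h := (((Cc_deriv t).pow 3).div_const 3).sub ((Cc_deriv t).mul ((Ss_deriv t).pow 2))
    refine HasDerivAt.congr_deriv (f := fun t => Cc t ^ 3 / 3 - Cc t * Ss t ^ 2) h ?_
    simp
    ring
  rw [intervalIntegral.integral_eq_sub_of_hasDerivAt h3 (Continuous.intervalIntegrable (by fun_prop) _ _)]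
  have e1 : Cc (2 * Real.pi) = Cc 0 := by have := Cc_per 0; rwa [zero_add] at this
  have e2 : Ss (2 * Real.pi) = Ss 0 := by have := Ss_per 0; rwa [zero_add] at this
  rw [e1, e2]
  ring

theorem K_ne : K ≠ 0 := by
  intro h
  have h1 := K_re
  rw [h] at h1
  have := css_int
  simp only [Complex.zero_re] at h1
  linarith

end Pool.Agent.Helper17.HillEx
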