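import Mathlib

/-! Quasi-exactly solvable operators and `gl_{N+1}`: the algebra generated by the `E_ij`. -/

namespace Pool.Agent.Helper17.QES

open MvPolynomial

variable {N : ℕ}

noncomputable abbrev Pol (N : ℕ) := MvPolynomial (Fin N) ℂ
noncomputable abbrev Opr (N : ℕ) := Module.End ℂ (Pol N)

/-- multiplication by a polynomial -/
noncomputable def mu : Pol N →ₐ[ℂ] Opr N := Algebra.lmul ℂ (Pol N)
/-- partial derivative -/
noncomputable def dd (i : Fin N) : Opr N := (pderiv i : Derivation ℂ (Pol N) (Pol N)).toLinearMap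
/-- Euler operator -/
noncomputable def th : Opr N := ∑ j, mu (X j) * dd j
/-- scalars -/
noncomputable def sc (a : ℂ) : Opr N := algebraMap ℂ (Opr N) a

lemma sc_comm (a : ℂ) (T : Opr N) : sc a * T = T * sc a := Algebra.commutes a T
lemma sc_apply (a : ℂ) (p : Pol N) : (sc a : Opr N) p = C a * p := by
  change (algebraMap ℂ (Module.End ℂ (Pol N)) a) p = _
  rw [Module.algebraMap_end_apply, C_mul']
lemma sc_sub (a b : ℂ) : (sc (a - b) : Opr N) = sc a - sc b := map_sub _ _ _
lemma sc_one : (sc 1 : Opr N) = 1 := map_one _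
lemma sc_zero : (sc 0 : Opr N) = 0 := map_zero _

/-- the operators `E_ij`; the index `0` is `none` -/
noncomputable def EE (c : ℂ) : Option (Fin N) → Option (Fin N) → Opr N
  | some i, some j => mu (X i) * dd j
  | none, some j => dd j
  | none, none => -th + sc c
  | some i, none => mu (X i) * (-th + sc c)

lemma mu_apply (p q : Pol N) : mu p q = p * q := rfl
lemma dd_apply (i : Fin N) (p : Pol N) : dd i p = pderiv i p := rfl

lemma dd_mu (j : Fin N) (q : Pol N) : dd j * mu q = mu q * dd j + mu (pderiv j q) := by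
  refine LinearMap.ext fun p => ?_
  change pderiv j (q * p) = q * pderiv j p + pderiv j q * p
  rw [pderiv_mul]; ring

lemma mu_comm (p q : Pol N) : mu p * mu q = mu q * mu p := by
  rw [← map_mul, mul_comm, map_mul]

lemma th_mu (i : Fin N) : th * mu (X i) = mu (X i) * th + mu (X i) := by
  unfold th
  rw [Finset.sum_mul, Finset.mul_sum]
  have h : ∀ j : Fin N, mu (X j) * dd j * mu (X i)
      = mu (X i) * (mu (X j) * dd j) + mu (X j * pderiv j (X i)) := by
    intro j
    rw [mul_assoc, dd_mu, mul_add, ← mul_assoc, mu_comm (X j) (X i), mul_assoc, ← map_mul]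
  rw [Finset.sum_congr rfl (fun j _ => h j), Finset.sum_add_distrib]
  congr 1
  rw [← map_sum]
  congr 1
  rw [Finset.sum_eq_single i]
  · rw [pderiv_X_self, mul_one]
  · intro j _ hj
    rw [pderiv_X_of_ne hj.symm, mul_zero]
  · intro h; exact absurd (Finset.mem_univ i) h

/-- `P_c = ∏_{j<c} (k - j - θ)` -/
noncomputable def PP (k : ℂ) : ℕ → Opr N
  | 0 => 1
  | (c + 1) => PP k c * (sc (k - c) - th)

lemma lin_comm (a b : ℂ) : (sc a - (th : Opr N)) * (sc b - th) = (sc b - th) * (sc a - th) := by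
  simp only [sub_mul, mul_sub]
  rw [sc_comm a th, sc_comm b th, sc_comm a (sc b)]; abel

lemma lin_mu (a : ℂ) (i : Fin N) :
    (sc a - (th : Opr N)) * mu (X i) = mu (X i) * (sc (a - 1) - th) := by
  rw [sub_mul, th_mu, mul_sub, sc_sub, sc_one, mul_sub, mul_one, sc_comm]
  abel

lemma PP_mu (k : ℂ) (i : Fin N) (c : ℕ) :
    PP k c * (mu (X i) * (-th + sc k)) = mu (X i) * PP k (c + 1) := by
  have hk : (-th + (sc k : Opr N)) = sc k - th := by abel
  rw [hk]
  induction c with
  | zero => simp [PP]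
  | succ c ih =>
    rw [PP, mul_assoc, ← mul_assoc _ (mu (X i)), lin_mu, mul_assoc (mu (X i)), lin_comm,
      ← mul_assoc (mu (X i)), ← mul_assoc, ih, PP, mul_assoc]
    congr 2
    push_cast
    rw [sub_sub]

noncomputable def AA (k : ℂ) : Subalgebra ℂ (Opr N) :=
  Algebra.adjoin ℂ {T | ∃ a b, T = EE k a b}

lemma EE_mem (k : ℂ) (a b : Option (Fin N)) : EE k a b ∈ (AA k : Subalgebra ℂ (Opr N)) :=
  Algebra.subset_adjoin ⟨a, b, rfl⟩

lemma dd_mem (k : ℂ) (j : Fin N) : dd j ∈ AA k := EE_mem k none (some j)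
lemma xd_mem (k : ℂ) (i j : Fin N) : mu (X i) * dd j ∈ AA k := EE_mem k (some i) (some j)
lemma raise_mem (k : ℂ) (i : Fin N) : mu (X i) * (-th + sc k) ∈ AA k := EE_mem k (some i) none
lemma sc_mem (k c : ℂ) : (sc c : Opr N) ∈ AA k := (AA k).algebraMap_mem c
lemma th_mem (k : ℂ) : (th : Opr N) ∈ AA k := by
  have h1 : (-th + (sc k : Opr N)) ∈ AA k := EE_mem k none none
  have h2 := (AA k).sub_mem (sc_mem k k) h1
  have h3 : (sc k : Opr N) - (-th + sc k) = th := by abel
  rwa [h3] at h2

/-- constant coefficient homogeneous operators of order `n` -/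
inductive IsD : ℕ → Opr N → Prop
  | one : IsD 0 1
  | zero (n : ℕ) : IsD n 0
  | add {n : ℕ} {a b : Opr N} : IsD n a → IsD n b → IsD n (a + b)
  | smul {n : ℕ} {a : Opr N} (c : ℂ) : IsD n a → IsD n (sc c * a)
  | mul {n : ℕ} {a : Opr N} (j : Fin N) : IsD n a → IsD (n + 1) (a * dd j)

lemma DD_le (k : ℂ) {n : ℕ} {δ : Opr N} (h : IsD n δ) : δ ∈ AA k := by
  induction h with
  | one => exact (AA k).one_mem
  | zero n => exact (AA k).zero_mem
  | add _ _ h1 h2 => exact (AA k).add_mem h1 h2
  | smul c _ h => exact (AA k).mul_mem (sc_mem k c) h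
  | mul j _ h => exact (AA k).mul_mem h (dd_mem k j)

lemma dd_mu_X (j i : Fin N) : ∃ c : ℂ, dd j * mu (X i) = mu (X i) * dd j + sc c := by
  rw [dd_mu]
  by_cases h : i = j
  · subst h
    refine ⟨1, ?_⟩
    rw [pderiv_X_self, map_one, sc_one]
  · refine ⟨0, ?_⟩
    rw [pderiv_X_of_ne h, map_zero, sc_zero]

lemma comm_DD (i : Fin N) {n : ℕ} {δ : Opr N} (h : IsD n δ) :
    ∃ δ₁ : Opr N, (n = 0 → δ₁ = 0) ∧ IsD (n - 1) δ₁ ∧ δ * mu (X i) = mu (X i) * δ + δ₁ := by
  induction h with
  | one => exact ⟨0, fun _ => rfl, IsD.zero _, by simp⟩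
  | zero n => exact ⟨0, fun _ => rfl, IsD.zero _, by simp⟩
  | add _ _ h1 h2 =>
    obtain ⟨x, hx1, hx2, hx3⟩ := h1
    obtain ⟨y, hy1, hy2, hy3⟩ := h2
    refine ⟨x + y, fun h => by rw [hx1 h, hy1 h, add_zero], hx2.add hy2, ?_⟩
    rw [add_mul, hx3, hy3, mul_add]; abel
  | smul c _ h1 =>
    obtain ⟨x, hx1, hx2, hx3⟩ := h1
    refine ⟨sc c * x, fun h => by rw [hx1 h, mul_zero], hx2.smul c, ?_⟩
    rw [mul_assoc, hx3, mul_add, ← mul_assoc, sc_comm c (mu (X i)), mul_assoc]
  | @mul n a j ha h1 =>
    obtain ⟨x, hx1, hx2, hx3⟩ := h1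
    obtain ⟨c, hc⟩ := dd_mu_X j i
    refine ⟨x * dd j + sc c * a, fun h => absurd h (Nat.succ_ne_zero n), ?_, ?_⟩
    · rw [Nat.add_sub_cancel]
      refine IsD.add ?_ (ha.smul c)
      cases n with
      | zero => rw [hx1 rfl, zero_mul]; exact IsD.zero _
      | succ m => exact hx2.mul j
    · rw [mul_assoc, hc, mul_add, ← mul_assoc, hx3, add_mul, sc_comm c a, mul_assoc, add_assoc]

lemma main_mem (k : ℂ) : ∀ (a : ℕ) (α : Fin N →₀ ℕ), α.degree = a → ∀ (b : ℕ) (δ : Opr N),
    IsD b δ → mu (monomial α 1) * δ * PP k (a - b) ∈ AA k := by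
  intro a
  induction a with
  | zero =>
    intro α hα b δ hδ
    rw [Finsupp.degree_eq_zero_iff] at hα
    subst hα
    have h1 : (monomial 0 1 : Pol N) = 1 := rfl
    rw [h1, map_one, one_mul, Nat.zero_sub, PP, mul_one]
    exact DD_le k hδ
  | succ a ih =>
    intro α hα b δ hδ
    obtain ⟨i, hi⟩ : ∃ i, α i ≠ 0 := by
      by_contra hcon
      push Not at hcon
      have : α = 0 := Finsupp.ext hcon
      rw [this] at hα
      simp at hα
    obtain ⟨α', rfl⟩ : ∃ α', α = Finsupp.single i 1 + α' := by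
      refine ⟨α - Finsupp.single i 1, ?_⟩
      rw [add_tsub_cancel_of_le]
      rw [Finsupp.single_le_iff]
      omega
    have hα' : α'.degree = a := by
      rw [map_add, Finsupp.degree_single] at hα
      omega
    have hmon : (monomial (Finsupp.single i 1 + α') 1 : Pol N) = X i * monomial α' 1 := by
      rw [X, monomial_mul, one_mul]
    rw [hmon, map_mul]
    rcases Nat.lt_or_ge a b with hab | hab
    · -- b = b' + 1, b' ≥ a
      have hz : a + 1 - b = 0 := by omega
      rw [hz, PP, mul_one]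
      have key : ∀ {n : ℕ} {δ : Opr N}, IsD n δ → a < n →
          mu (X i) * mu (monomial α' 1) * δ ∈ AA k := by
        intro n δ h
        induction h with
        | one => intro h; omega
        | zero n => intro _; rw [mul_zero]; exact (AA k).zero_mem
        | add _ _ h1 h2 => intro h; rw [mul_add]; exact (AA k).add_mem (h1 h) (h2 h)
        | smul c _ h1 =>
          intro h
          rw [← mul_assoc, ← sc_comm, mul_assoc]
          exact (AA k).mul_mem (sc_mem k c) (h1 h)
        | @mul b' x j hx _ =>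
          intro hlt
          obtain ⟨δ₁, h1, h2, h3⟩ := comm_DD i hx
          have hz' : a - b' = 0 := by omega
          have e : mu (X i) * mu (monomial α' 1) * (x * dd j)
              = (mu (monomial α' 1) * x) * (mu (X i) * dd j) - mu (monomial α' 1) * (δ₁ * dd j) := by
            rw [mul_assoc (mu (monomial α' 1)) x, ← mul_assoc x, h3, mu_comm (X i)]
            rw [add_mul, mul_add]
            simp only [mul_assoc]
            abel
          rw [e]
          have m1 := ih α' hα' b' x hx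
          rw [hz', PP, mul_one] at m1
          refine (AA k).sub_mem ((AA k).mul_mem m1 (xd_mem k i j)) ?_
          have m2 : IsD b' (δ₁ * dd j) := by
            cases b' with
            | zero => rw [h1 rfl, zero_mul]; exact IsD.zero _
            | succ b'' => exact h2.mul j
          have m3 := ih α' hα' b' _ m2
          rwa [hz', PP, mul_one] at m3
      exact key hδ hab
    · have hc : a + 1 - b = (a - b) + 1 := by omega
      rw [hc]
      obtain ⟨δ₁, h1, h2, h3⟩ := comm_DD i hδ
      have m1 := (AA k).mul_mem (ih α' hα' b δ hδ) (raise_mem k i)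
      rw [mul_assoc _ (PP k (a - b)), PP_mu] at m1
      have e : mu (X i) * mu (monomial α' 1) * δ * PP k (a - b + 1)
          = mu (monomial α' 1) * δ * (mu (X i) * PP k (a - b + 1))
            - mu (monomial α' 1) * δ₁ * PP k (a - b + 1) := by
        rw [mul_assoc (mu (monomial α' 1)) δ, ← mul_assoc δ, h3, mu_comm (X i)]
        rw [add_mul, mul_add]
        simp only [mul_assoc]
        abel
      rw [e]
      refine (AA k).sub_mem m1 ?_
      cases b with
      | zero => rw [h1 rfl]; simp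
      | succ b' =>
        have m3 := ih α' hα' b' δ₁ (by simpa using h2)
        have : a - (b' + 1) + 1 = a - b' := by omega
        rwa [this]

end Pool.Agent.Helper17.QES
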