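import Pool.Agent.Helper17.QES1

/-! Order filtration and matrix units. -/

namespace Pool.Agent.Helper17.QES

open MvPolynomial

variable {N : ℕ}

/-- order filtration by iterated commutators -/
def Ord : ℕ → Opr N → Prop
  | 0, Q => ∀ i : Fin N, Q * mu (X i) = mu (X i) * Q
  | (n + 1), Q => ∀ i : Fin N, Ord n (Q * mu (X i) - mu (X i) * Q)

lemma Ord_zero_op : ∀ n : ℕ, Ord n (0 : Opr N)
  | 0 => fun i => by simp
  | (n + 1) => fun i => by
    have h := Ord_zero_op n
    have e : (0 : Opr N) * mu (X i) - mu (X i) * 0 = 0 := by rw [zero_mul, mul_zero, sub_zero]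
    rw [e]; exact h

lemma Ord_add : ∀ (n : ℕ) {Q R : Opr N}, Ord n Q → Ord n R → Ord n (Q + R)
  | 0, Q, R, hQ, hR => fun i => by rw [add_mul, mul_add, hQ i, hR i]
  | (n + 1), Q, R, hQ, hR => fun i => by
    have h := Ord_add n (hQ i) (hR i)
    have e : (Q + R) * mu (X i) - mu (X i) * (Q + R)
        = (Q * mu (X i) - mu (X i) * Q) + (R * mu (X i) - mu (X i) * R) := by
      rw [add_mul, mul_add]; abel
    rw [e]; exact h

lemma neg_mul_op (Q T : Opr N) : (-Q) * T = -(Q * T) := LinearMap.ext fun _ => rfl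
lemma mul_neg_op (Q T : Opr N) : T * (-Q) = -(T * Q) := LinearMap.ext fun p => map_neg T (Q p)

lemma Ord_neg : ∀ (n : ℕ) {Q : Opr N}, Ord n Q → Ord n (-Q)
  | 0, Q, hQ => fun i => by rw [neg_mul_op, mul_neg_op, hQ i]
  | (n + 1), Q, hQ => fun i => by
    have h := Ord_neg n (hQ i)
    have e : (-Q) * mu (X i) - mu (X i) * (-Q) = -(Q * mu (X i) - mu (X i) * Q) := by
      rw [neg_mul_op, mul_neg_op]; abel
    rw [e]; exact h

lemma Ord_succ : ∀ (n : ℕ) {Q : Opr N}, Ord n Q → Ord (n + 1) Q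
  | 0, Q, hQ => fun i => by
    rw [hQ i, sub_self]; exact Ord_zero_op 0
  | (n + 1), Q, hQ => fun i => Ord_succ n (hQ i)

lemma Ord_mono {m n : ℕ} (h : m ≤ n) {Q : Opr N} (hQ : Ord m Q) : Ord n Q := by
  induction h with
  | refl => exact hQ
  | step _ ih => exact Ord_succ _ ih

lemma Ord_mul : ∀ (n a b : ℕ) {Q R : Opr N}, a + b = n → Ord a Q → Ord b R → Ord n (Q * R) := by
  intro n
  induction n with
  | zero =>
    intro a b Q R hab hQ hR
    obtain ⟨rfl, rfl⟩ : a = 0 ∧ b = 0 := by omega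
    intro i
    rw [mul_assoc, hR i, ← mul_assoc, hQ i, mul_assoc]
  | succ n ih =>
    intro a b Q R hab hQ hR i
    have e : Q * R * mu (X i) - mu (X i) * (Q * R)
        = Q * (R * mu (X i) - mu (X i) * R) + (Q * mu (X i) - mu (X i) * Q) * R := by
      rw [mul_sub, sub_mul]
      simp only [mul_assoc]
      abel
    rw [e]
    refine Ord_add n ?_ ?_
    · cases b with
      | zero => rw [hR i, sub_self, mul_zero]; exact Ord_zero_op n
      | succ b => exact ih a b (by omega) hQ (hR i)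
    · cases a with
      | zero => rw [hQ i, sub_self, zero_mul]; exact Ord_zero_op n
      | succ a => exact ih a b (by omega) (hQ i) hR

lemma Ord_mu (q : Pol N) : Ord 0 (mu q) := fun _ => mu_comm _ _
lemma Ord_sc (c : ℂ) : Ord 0 (sc c : Opr N) := fun _ => sc_comm _ _
lemma Ord_one : Ord 0 (1 : Opr N) := fun _ => by rw [one_mul, mul_one]
lemma Ord_dd (j : Fin N) : Ord 1 (dd j) := fun i => by
  rw [dd_mu, add_sub_cancel_left]; exact Ord_mu _

lemma Ord_sum {ι : Type*} (n : ℕ) (s : Finset ι) (f : ι → Opr N) (h : ∀ i ∈ s, Ord n (f i)) :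
    Ord n (∑ i ∈ s, f i) :=
  Finset.sum_induction f (Ord n) (fun _ _ => Ord_add n) (Ord_zero_op n) h

lemma Ord_pow {T : Opr N} (hT : Ord 1 T) (n : ℕ) : Ord n (T ^ n) := by
  induction n with
  | zero => rw [pow_zero]; exact Ord_one
  | succ n ih => rw [pow_succ]; exact Ord_mul (n + 1) n 1 rfl ih hT

lemma Ord_th : Ord 1 (th : Opr N) :=
  Ord_sum 1 _ _ fun j _ => Ord_mul 1 0 1 rfl (Ord_mu _) (Ord_dd j)

lemma Ord_PP (k : ℂ) (c : ℕ) : Ord c (PP k c : Opr N) := by
  induction c with
  | zero => exact Ord_one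
  | succ c ih =>
    refine Ord_mul (c + 1) c 1 rfl ih ?_
    rw [sub_eq_add_neg]
    exact Ord_add 1 (Ord_succ 0 (Ord_sc _)) (Ord_neg 1 Ord_th)

lemma Ord_IsD {n : ℕ} {δ : Opr N} (h : IsD n δ) : Ord n δ := by
  induction h with
  | one => exact Ord_one
  | zero n => exact Ord_zero_op n
  | add _ _ h1 h2 => exact Ord_add _ h1 h2
  | @smul n a c _ h => exact Ord_mul n 0 n (by omega) (Ord_sc c) h
  | @mul n a j _ h => exact Ord_mul (n + 1) n 1 rfl h (Ord_dd j)

/-- an operator commuting with multiplications and killing `1` vanishes -/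
lemma comm_kill {Q : Opr N} (h : ∀ i, Q * mu (X i) = mu (X i) * Q) (h1 : Q 1 = 0) : Q = 0 := by
  refine LinearMap.ext fun p => ?_
  rw [LinearMap.zero_apply]
  induction p using MvPolynomial.induction_on with
  | C a =>
    have : (C a : Pol N) = a • 1 := by rw [← C_mul', mul_one]
    rw [this, map_smul, h1, smul_zero]
  | add p q hp hq => rw [map_add, hp, hq, add_zero]
  | mul_X p i hp =>
    have := congrArg (fun T : Opr N => T p) (h i)
    change Q (X i * p) = X i * Q p at this
    rw [mul_comm p, this, hp, mul_zero]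

lemma kill : ∀ (n : ℕ) {Q : Opr N}, Ord n Q → (∀ p : Pol N, p.totalDegree ≤ n → Q p = 0) → Q = 0 := by
  intro n
  induction n with
  | zero =>
    intro Q hQ h
    exact comm_kill hQ (h 1 (by simp))
  | succ n ih =>
    intro Q hQ h
    refine comm_kill (fun i => ?_) (h 1 (by simp))
    rw [← sub_eq_zero]
    refine ih (hQ i) fun p hp => ?_
    change Q (X i * p) - X i * Q p = 0
    rw [h p (by omega), mul_zero, sub_zero]
    apply h
    refine (totalDegree_mul _ _).trans ?_
    rw [totalDegree_X]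
    omega

/-! ### actions on monomials -/

lemma th_mon (γ : Fin N →₀ ℕ) (r : ℂ) :
    (th : Opr N) (monomial γ r) = C (γ.degree : ℂ) * monomial γ r := by
  unfold th
  rw [LinearMap.sum_apply]
  have h : ∀ i : Fin N, (mu (X i) * dd i : Opr N) (monomial γ r) = (γ i : ℕ) • monomial γ r := by
    intro i
    change X i * pderiv i (monomial γ r) = _
    exact X_mul_pderiv_monomial
  rw [Finset.sum_congr rfl (fun i _ => h i), ← Finset.sum_smul, Finsupp.degree_eq_sum, nsmul_eq_mul]
  congr 1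

lemma PP_mon (k : ℂ) (c : ℕ) (γ : Fin N →₀ ℕ) (r : ℂ) :
    (PP k c : Opr N) (monomial γ r)
      = monomial γ ((∏ j ∈ Finset.range c, (k - j - γ.degree)) * r) := by
  induction c generalizing r with
  | zero => simp [PP]
  | succ c ih =>
    have e : ((sc (k - c) - th : Opr N)) (monomial γ r) = monomial γ ((k - c - γ.degree) * r) := by
      rw [LinearMap.sub_apply, sc_apply, th_mon, ← sub_mul, ← C_sub, C_mul_monomial]
    change (PP k c : Opr N) ((sc (k - c) - th : Opr N) (monomial γ r)) = _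
    rw [e, ih, Finset.prod_range_succ, mul_assoc]

lemma dd_mon (j : Fin N) (γ : Fin N →₀ ℕ) (r : ℂ) :
    (dd j) (monomial γ r) = monomial (γ - Finsupp.single j 1) (r * γ j) := by
  rw [dd_apply, pderiv_monomial]

lemma deg_sub {j : Fin N} {γ : Fin N →₀ ℕ} (h : γ j ≠ 0) :
    (γ - Finsupp.single j 1).degree + 1 = γ.degree := by
  have h1 : γ - Finsupp.single j 1 + Finsupp.single j 1 = γ := by
    apply tsub_add_cancel_of_le
    rw [Finsupp.single_le_iff]; omega
  conv_rhs => rw [← h1]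
  rw [map_add, Finsupp.degree_single]

lemma D_kill {n : ℕ} {δ : Opr N} (h : IsD n δ) :
    ∀ (γ : Fin N →₀ ℕ) (r : ℂ), γ.degree < n → δ (monomial γ r) = 0 := by
  induction h with
  | one => intro γ r h; omega
  | zero n => intro γ r _; rfl
  | add _ _ h1 h2 => intro γ r h; rw [LinearMap.add_apply, h1 γ r h, h2 γ r h, add_zero]
  | smul c _ h1 =>
    intro γ r h
    change (sc c : Opr N) _ = 0
    rw [h1 γ r h, map_zero]
  | @mul n a j _ h1 =>
    intro γ r h
    change a (dd j (monomial γ r)) = 0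
    rw [dd_mon]
    by_cases hj : γ j = 0
    · rw [hj]; simp
    · have := deg_sub hj
      exact h1 _ _ (by omega)

lemma exists_D : ∀ (n : ℕ) (β : Fin N →₀ ℕ), β.degree = n → ∃ δ : Opr N, IsD n δ ∧ ∃ c : ℂ, c ≠ 0 ∧
    ∀ (γ : Fin N →₀ ℕ) (r : ℂ), γ.degree = n →
      δ (monomial γ r) = if γ = β then C (c * r) else 0 := by
  intro n
  induction n with
  | zero =>
    intro β hβ
    rw [Finsupp.degree_eq_zero_iff] at hβ
    subst hβ
    refine ⟨1, IsD.one, 1, one_ne_zero, fun γ r hγ => ?_⟩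
    rw [Finsupp.degree_eq_zero_iff] at hγ
    subst hγ
    rw [if_pos rfl, one_mul]; rfl
  | succ n ih =>
    intro β hβ
    obtain ⟨i, hi⟩ : ∃ i, β i ≠ 0 := by
      by_contra hcon
      push Not at hcon
      have : β = 0 := Finsupp.ext hcon
      rw [this] at hβ
      simp at hβ
    have hdeg := deg_sub hi
    obtain ⟨δ, hδ, c, hc, hact⟩ := ih (β - Finsupp.single i 1) (by omega)
    refine ⟨δ * dd i, hδ.mul i, c * β i, mul_ne_zero hc (by exact_mod_cast hi), fun γ r hγ => ?_⟩
    change δ (dd i (monomial γ r)) = _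
    rw [dd_mon]
    by_cases hg : γ i = 0
    · have : γ ≠ β := by rintro rfl; exact hi hg
      rw [if_neg this, hg]; simp
    · have h1 := deg_sub hg
      rw [hact _ _ (by omega)]
      by_cases hgb : γ = β
      · subst hgb
        rw [if_pos rfl, if_pos rfl]
        congr 1; ring
      · rw [if_neg hgb, if_neg]
        intro h
        apply hgb
        have e1 : γ - Finsupp.single i 1 + Finsupp.single i 1 = γ := by
          apply tsub_add_cancel_of_le
          rw [Finsupp.single_le_iff]; omega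
        have e2 : β - Finsupp.single i 1 + Finsupp.single i 1 = β := by
          apply tsub_add_cancel_of_le
          rw [Finsupp.single_le_iff]; omega
        rw [← e1, ← e2, h]

lemma PP_split (k : ℂ) (c e : ℕ) : ∃ R ∈ (AA k : Subalgebra ℂ (Opr N)), (PP k (c + e) : Opr N) = PP k c * R := by
  induction e with
  | zero => exact ⟨1, (AA k).one_mem, by simp⟩
  | succ e ih =>
    obtain ⟨R, hR, h⟩ := ih
    refine ⟨R * (sc (k - (c + e : ℕ)) - th), (AA k).mul_mem hR ((AA k).sub_mem (sc_mem k _) (th_mem k)), ?_⟩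
    rw [← add_assoc, PP, h, mul_assoc]

lemma mem_of_deg (k : ℕ) (q : Pol N) (hq : q.totalDegree ≤ k) {b : ℕ} {δ : Opr N}
    (hδ : IsD b δ) : mu q * δ * PP (k : ℂ) (k - b) ∈ AA (k : ℂ) := by
  have h1 : mu q = ∑ α ∈ q.support, (sc (coeff α q) : Opr N) * mu (monomial α 1) := by
    conv_lhs => rw [q.as_sum, map_sum]
    refine Finset.sum_congr rfl fun α _ => ?_
    have : (monomial α (coeff α q) : Pol N) = algebraMap ℂ (Pol N) (coeff α q) * monomial α 1 := by
      change _ = C _ * _
      rw [C_mul_monomial, mul_one]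
    rw [this, map_mul, AlgHom.commutes]
    rfl
  rw [h1, Finset.sum_mul, Finset.sum_mul]
  refine (AA (k : ℂ)).sum_mem fun α hα => ?_
  rw [mul_assoc, mul_assoc]
  refine (AA (k : ℂ)).mul_mem (sc_mem _ _) ?_
  rw [← mul_assoc]
  have hdeg : α.degree ≤ k := (le_totalDegree hα).trans hq
  obtain ⟨R, hR, h⟩ := PP_split (N := N) (k : ℂ) (α.degree - b) ((k - b) - (α.degree - b))
  have e : α.degree - b + ((k - b) - (α.degree - b)) = k - b := by omega
  rw [e] at h
  rw [h, ← mul_assoc]
  exact (AA (k : ℂ)).mul_mem (main_mem (k : ℂ) α.degree α rfl b δ hδ) hR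

/-- matrix units -/
lemma exists_unit (k : ℕ) (β : Fin N →₀ ℕ) (hβ : β.degree ≤ k) (q : Pol N) (hq : q.totalDegree ≤ k) :
    ∃ T : Opr N, T ∈ AA (k : ℂ) ∧ Ord k T ∧ ∀ (γ : Fin N →₀ ℕ) (r : ℂ), γ.degree ≤ k →
      T (monomial γ r) = if γ = β then C r * q else 0 := by
  obtain ⟨δ, hδ, c, hc, hact⟩ := exists_D β.degree β rfl
  set b := β.degree with hb
  set s : ℂ := ∏ j ∈ Finset.range (k - b), ((k : ℂ) - j - b) with hs
  have hs0 : s ≠ 0 := by
    rw [hs, Finset.prod_ne_zero_iff]
    intro j hj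
    rw [Finset.mem_range] at hj
    have h1 : ((k : ℂ) - j - b) = ((k - j - b : ℕ) : ℂ) := by
      rw [Nat.cast_sub (by omega), Nat.cast_sub (by omega)]
    rw [h1]
    have : k - j - b ≠ 0 := by omega
    exact_mod_cast this
  have hq' : (C ((c * s)⁻¹) * q).totalDegree ≤ k := by
    refine (totalDegree_mul _ _).trans ?_
    rw [totalDegree_C]; omega
  refine ⟨mu (C ((c * s)⁻¹) * q) * δ * PP (k : ℂ) (k - b), mem_of_deg k _ hq' hδ, ?_, ?_⟩
  · have h1 := Ord_mul b 0 b (by omega) (Ord_mu (C ((c * s)⁻¹) * q)) (Ord_IsD hδ)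
    exact Ord_mul k b (k - b) (by omega) h1 (Ord_PP _ _)
  · intro γ r hγ
    change (C ((c * s)⁻¹) * q) * δ (PP (k : ℂ) (k - b) (monomial γ r)) = _
    rw [PP_mon]
    rcases lt_trichotomy γ.degree b with h | h | h
    · rw [D_kill hδ _ _ h, mul_zero, if_neg]
      rintro rfl
      omega
    · rw [hact _ _ h]
      by_cases hg : γ = β
      · rw [if_pos hg, if_pos hg, h, ← hs]
        rw [mul_right_comm, ← C_mul]
        congr 2
        field_simp
      · rw [if_neg hg, if_neg hg, mul_zero]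
    · have h0 : ∏ j ∈ Finset.range (k - b), ((k : ℂ) - j - γ.degree) = 0 := by
        apply Finset.prod_eq_zero (i := k - γ.degree)
        · rw [Finset.mem_range]; omega
        · rw [Nat.cast_sub hγ]; ring
      rw [h0, zero_mul, monomial_zero, map_zero, mul_zero, if_neg]
      rintro rfl
      omega

/-- the finite set of exponents of degree at most `k` -/
noncomputable def BB (N k : ℕ) : Finset (Fin N →₀ ℕ) :=
  (Finset.range (k + 1)).biUnion (fun n => Finset.finsuppAntidiag Finset.univ n)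

lemma mem_BB {k : ℕ} {β : Fin N →₀ ℕ} : β ∈ BB N k ↔ β.degree ≤ k := by
  unfold BB
  rw [Finset.mem_biUnion]
  simp only [Finset.mem_finsuppAntidiag, Finset.mem_range, Finset.subset_univ, and_true,
    Finsupp.degree_eq_sum]
  constructor
  · rintro ⟨n, h1, h2⟩
    change Finset.univ.sum ⇑β ≤ k
    omega
  · intro h
    change Finset.univ.sum ⇑β ≤ k at h
    exact ⟨_, by omega, rfl⟩

theorem core (k : ℕ) (Q : Opr N) (hQ : Ord k Q)
    (hpres : ∀ p : Pol N, p.totalDegree ≤ k → (Q p).totalDegree ≤ k) : Q ∈ AA (k : ℂ) := by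
  have h : ∀ β : Fin N →₀ ℕ, ∃ T : Opr N, T ∈ AA (k : ℂ) ∧ Ord k T ∧ (β.degree ≤ k →
      ∀ (γ : Fin N →₀ ℕ) (r : ℂ), γ.degree ≤ k →
        T (monomial γ r) = if γ = β then C r * Q (monomial β 1) else 0) := by
    intro β
    by_cases hβ : β.degree ≤ k
    · have hd : (monomial β (1 : ℂ)).totalDegree ≤ k := by
        rw [totalDegree_monomial _ one_ne_zero]
        exact hβ
      obtain ⟨T, h1, h2, h3⟩ := exists_unit k β hβ (Q (monomial β 1)) (hpres _ hd)
      exact ⟨T, h1, h2, fun _ => h3⟩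
    · exact ⟨0, (AA (k : ℂ)).zero_mem, Ord_zero_op k, fun h => absurd h hβ⟩
  choose T hT1 hT2 hT3 using h
  have hQ' : Q - ∑ β ∈ BB N k, T β = 0 := by
    refine kill k ?_ ?_
    · rw [sub_eq_add_neg]
      exact Ord_add k hQ (Ord_neg k (Ord_sum k _ _ fun β _ => hT2 β))
    · intro p hp
      rw [p.as_sum, map_sum]
      refine Finset.sum_eq_zero fun γ hγ => ?_
      have hdeg : γ.degree ≤ k := (le_totalDegree hγ).trans hp
      rw [LinearMap.sub_apply, LinearMap.sum_apply,
        Finset.sum_congr rfl (fun β hβ => hT3 β (mem_BB.mp hβ) γ (coeff γ p) hdeg),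
        Finset.sum_ite_eq, if_pos (mem_BB.mpr hdeg), sub_eq_zero]
      have : (monomial γ (coeff γ p) : Pol N) = coeff γ p • monomial γ 1 := by
        rw [smul_monomial, smul_eq_mul, mul_one]
      rw [this, map_smul, C_mul']
  rw [sub_eq_zero] at hQ'
  rw [hQ']
  exact (AA (k : ℂ)).sum_mem fun β _ => hT1 β

end Pool.Agent.Helper17.QES
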