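import Mathlib

namespace Pool.Agent.Helper17.Relax

open Finset

/-- Parseval for the discrete Fourier transform on `ZMod N`. -/
theorem parseval {N : ℕ} [NeZero N] (Φ : ZMod N → ℂ) :
    ∑ k, ZMod.dft Φ k * (starRingEnd ℂ) (ZMod.dft Φ k) = N * ∑ j, Φ j * (starRingEnd ℂ) (Φ j) := by
  have hconj : ∀ k, (starRingEnd ℂ) (ZMod.dft Φ k)
      = ∑ j, ZMod.stdAddChar (j * k) * (starRingEnd ℂ) (Φ j) := by
    intro k
    rw [ZMod.dft_apply, map_sum]
    refine sum_congr rfl fun j _ => ?_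
    rw [smul_eq_mul, map_mul]
    congr 1
    rw [← AddChar.inv_apply_eq_conj, AddChar.map_neg_eq_inv]
    simp
  calc ∑ k, ZMod.dft Φ k * (starRingEnd ℂ) (ZMod.dft Φ k)
      = ∑ k, ∑ j, ZMod.dft Φ k * (ZMod.stdAddChar (j * k) * (starRingEnd ℂ) (Φ j)) := by
        refine sum_congr rfl fun k _ => ?_
        rw [hconj, mul_sum]
    _ = ∑ j, ∑ k, ZMod.dft Φ k * (ZMod.stdAddChar (j * k) * (starRingEnd ℂ) (Φ j)) := sum_comm
    _ = ∑ j, ZMod.dft (ZMod.dft Φ) (-j) * (starRingEnd ℂ) (Φ j) := by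
        refine sum_congr rfl fun j _ => ?_
        rw [ZMod.dft_apply (ZMod.dft Φ) (-j), sum_mul]
        refine sum_congr rfl fun k _ => ?_
        rw [smul_eq_mul]
        have : -(k * -j) = j * k := by ring
        rw [this]
        ring
    _ = N * ∑ j, Φ j * (starRingEnd ℂ) (Φ j) := by
        rw [ZMod.dft_dft, mul_sum]
        refine sum_congr rfl fun j _ => ?_
        simp only [neg_neg, smul_eq_mul]
        ring

theorem normSq_stdAddChar_sub_one {N : ℕ} [NeZero N] (k : ZMod N) :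
    Complex.normSq (ZMod.stdAddChar k - 1) = 2 - 2 * Real.cos (2 * Real.pi * k.val / N) := by
  have h : ZMod.stdAddChar k = Complex.exp (((2 * Real.pi * k.val / N : ℝ) : ℂ) * Complex.I) := by
    have := ZMod.stdAddChar_coe (N := N) (k.val : ℤ)
    rw [Int.cast_natCast, ZMod.natCast_zmod_val] at this
    rw [this]
    congr 1
    push_cast
    ring
  rw [h, Complex.normSq_apply]
  simp only [Complex.sub_re, Complex.exp_ofReal_mul_I_re, Complex.one_re, Complex.sub_im,
    Complex.exp_ofReal_mul_I_im, Complex.one_im]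
  nlinarith [Real.sin_sq_add_cos_sq (2 * Real.pi * k.val / N)]

theorem cos_le_cos_of_ne_zero {N : ℕ} [NeZero N] (k : ZMod N) (hk : k ≠ 0) :
    Real.cos (2 * Real.pi * k.val / N) ≤ Real.cos (2 * Real.pi / N) := by
  have hN : (0 : ℝ) < N := by
    have := NeZero.pos N
    exact_mod_cast this
  have hk1 : 1 ≤ k.val := by
    rcases Nat.eq_zero_or_pos k.val with h | h
    · exact absurd ((ZMod.val_eq_zero k).1 h) hk
    · exact h
  have hk2 : k.val + 1 ≤ N := ZMod.val_lt k
  have hk1' : (1 : ℝ) ≤ k.val := by exact_mod_cast hk1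
  have hk2' : (k.val : ℝ) + 1 ≤ N := by exact_mod_cast hk2
  have hpi := Real.pi_pos
  by_cases hle : 2 * Real.pi * k.val / N ≤ Real.pi
  · apply Real.cos_le_cos_of_nonneg_of_le_pi (by positivity) hle
    rw [div_le_div_iff_of_pos_right hN]
    nlinarith
  · push Not at hle
    have h1 : Real.cos (2 * Real.pi * k.val / N) =
        Real.cos (2 * Real.pi - 2 * Real.pi * k.val / N) := by
      rw [Real.cos_two_pi_sub]
    rw [h1]
    apply Real.cos_le_cos_of_nonneg_of_le_pi (by positivity)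
    · linarith
    · have : 2 * Real.pi - 2 * Real.pi * k.val / N = 2 * Real.pi * (N - k.val) / N := by
        field_simp
      rw [this, div_le_div_iff_of_pos_right hN]
      nlinarith

/-- Discrete Wirtinger inequality on the cycle of length `N`. -/
theorem wirtinger {N : ℕ} [NeZero N] (g : ZMod N → ℝ) (hg : ∑ j, g j = 0) :
    (2 - 2 * Real.cos (2 * Real.pi / N)) * ∑ j, g j ^ 2 ≤ ∑ j, (g (j + 1) - g j) ^ 2 := by
  set Φ : ZMod N → ℂ := fun j => (g j : ℂ) with hΦ
  set Ψ : ZMod N → ℂ := fun j => ((g (j + 1) - g j : ℝ) : ℂ) with hΨ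
  have hN : (0 : ℝ) < N := by
    have := NeZero.pos N
    exact_mod_cast this
  have hdft : ∀ k, ZMod.dft Ψ k = (ZMod.stdAddChar k - 1) * ZMod.dft Φ k := by
    intro k
    rw [ZMod.dft_apply, ZMod.dft_apply]
    have h1 : ∑ j, ZMod.stdAddChar (-(j * k)) • Ψ j
        = ∑ j, ZMod.stdAddChar (-(j * k)) * Φ (j + 1) - ∑ j, ZMod.stdAddChar (-(j * k)) * Φ j := by
      rw [← sum_sub_distrib]
      refine sum_congr rfl fun j _ => ?_
      simp only [hΨ, hΦ, smul_eq_mul]
      push_cast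
      ring
    have h2 : ∑ j, ZMod.stdAddChar (-(j * k)) * Φ (j + 1)
        = ZMod.stdAddChar k * ∑ j, ZMod.stdAddChar (-(j * k)) * Φ j := by
      rw [mul_sum]
      rw [← Equiv.sum_comp (Equiv.addRight (1 : ZMod N))
        (fun j => ZMod.stdAddChar k * (ZMod.stdAddChar (-(j * k)) * Φ j))]
      refine sum_congr rfl fun j _ => ?_
      simp only [Equiv.coe_addRight]
      rw [← mul_assoc, ← AddChar.map_add_eq_mul]
      congr 2
      ring
    rw [h1, h2]
    simp only [smul_eq_mul]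
    ring
  have hnorm : ∀ F : ZMod N → ℝ, ∑ k, Complex.normSq (ZMod.dft (fun j => (F j : ℂ)) k)
      = N * ∑ j, F j ^ 2 := by
    intro F
    have h1 := parseval (N := N) (fun j => (F j : ℂ))
    simp only [Complex.mul_conj, Complex.normSq_ofReal] at h1
    have h2 : ((∑ k, Complex.normSq (ZMod.dft (fun j => (F j : ℂ)) k) : ℝ) : ℂ)
        = ((N * ∑ j, F j ^ 2 : ℝ) : ℂ) := by
      push_cast
      rw [h1]
      congr 1
      refine sum_congr rfl fun j _ => ?_
      push_cast
      ring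
    exact_mod_cast h2
  have e1 := hnorm g
  have e2 := hnorm (fun j => g (j + 1) - g j)
  have hzero : ZMod.dft Φ 0 = 0 := by
    rw [ZMod.dft_apply_zero]
    have : ((∑ j, g j : ℝ) : ℂ) = 0 := by rw [hg]; simp
    simpa using this
  have hle : (2 - 2 * Real.cos (2 * Real.pi / N)) * ∑ k, Complex.normSq (ZMod.dft Φ k)
      ≤ ∑ k, Complex.normSq (ZMod.dft Ψ k) := by
    rw [mul_sum]
    refine sum_le_sum fun k _ => ?_
    rw [hdft, Complex.normSq_mul, normSq_stdAddChar_sub_one]
    by_cases hk : k = 0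
    · rw [hk, hzero]; simp
    · apply mul_le_mul_of_nonneg_right _ (Complex.normSq_nonneg _)
      have := cos_le_cos_of_ne_zero k hk
      linarith
  rw [e1, e2] at hle
  have : N * ((2 - 2 * Real.cos (2 * Real.pi / N)) * ∑ j, g j ^ 2)
      ≤ N * ∑ j, (g (j + 1) - g j) ^ 2 := by
    calc N * ((2 - 2 * Real.cos (2 * Real.pi / N)) * ∑ j, g j ^ 2)
        = (2 - 2 * Real.cos (2 * Real.pi / N)) * (N * ∑ j, g j ^ 2) := by ring
      _ ≤ _ := hle
  exact le_of_mul_le_mul_left this hN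

end Pool.Agent.Helper17.Relax
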