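import Mathlib

namespace Pool.Agent.Helper17.Relax

open Finset SimpleGraph

variable {V : Type} [Fintype V]

/-- In a finite connected graph there is a closed walk that traverses every dart (every edge in
each direction) exactly once. -/
theorem exists_double_tour (G : SimpleGraph V) (hG : G.Connected) :
    ∃ (r : V) (p : G.Walk r r), p.darts.Nodup ∧ ∀ d : G.Dart, d ∈ p.darts := by
  classical
  obtain ⟨r⟩ := hG.nonempty
  -- closed walks at `r` with distinct darts, closed under reversal
  let S : Set ℕ := {n | ∃ p : G.Walk r r, p.darts.Nodup ∧ (∀ d ∈ p.darts, d.symm ∈ p.darts) ∧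
    p.length = n}
  have hne : S.Nonempty := ⟨0, Walk.nil, by simp, by simp, rfl⟩
  have hbdd : BddAbove S := by
    refine ⟨Fintype.card G.Dart, ?_⟩
    rintro n ⟨p, hp, -, rfl⟩
    rw [← Walk.length_darts]
    exact hp.length_le_card
  obtain ⟨p, hp1, hp2, hp3⟩ := Nat.sSup_mem hne hbdd
  have hmax : ∀ q : G.Walk r r, q.darts.Nodup → (∀ d ∈ q.darts, d.symm ∈ q.darts) →
      q.length ≤ p.length := by
    intro q h1 h2
    rw [hp3]
    exact le_csSup hbdd ⟨q, h1, h2, rfl⟩
  refine ⟨r, p, hp1, ?_⟩
  by_contra hcon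
  push Not at hcon
  obtain ⟨d0, hd0⟩ := hcon
  -- find a dart outside `p` starting on `p`
  obtain ⟨d, hd, hdsup⟩ : ∃ d : G.Dart, d ∉ p.darts ∧ d.fst ∈ p.support := by
    by_cases h : d0.fst ∈ p.support
    · exact ⟨d0, hd0, h⟩
    · obtain ⟨q⟩ := hG.preconnected r d0.fst
      obtain ⟨d, -, hd1, hd2⟩ := q.exists_boundary_dart {v | v ∈ p.support}
        p.start_mem_support h
      refine ⟨d, fun hmem => hd2 ?_, hd1⟩
      exact p.dart_snd_mem_support_of_mem_darts hmem
  have hdsymm : d.symm ∉ p.darts := by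
    intro hmem
    have := hp2 _ hmem
    rw [Dart.symm_symm] at this
    exact hd this
  -- insert the detour
  let q : G.Walk r r := (p.takeUntil d.fst hdsup).append
    (Walk.cons d.adj (Walk.cons d.adj.symm (p.dropUntil d.fst hdsup)))
  have hqdarts : q.darts = (p.takeUntil d.fst hdsup).darts ++
      (d :: d.symm :: (p.dropUntil d.fst hdsup).darts) := by
    simp only [q, Walk.darts_append, Walk.darts_cons]
    rfl
  have hpdarts : p.darts = (p.takeUntil d.fst hdsup).darts ++ (p.dropUntil d.fst hdsup).darts := by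
    rw [← Walk.darts_append, p.take_spec hdsup]
  have hperm : q.darts.Perm (d :: d.symm :: p.darts) := by
    rw [hqdarts, hpdarts]
    exact (List.perm_middle).trans ((List.perm_middle).cons _)
  have hq1 : q.darts.Nodup := by
    rw [hperm.nodup_iff, List.nodup_cons, List.nodup_cons]
    refine ⟨?_, hdsymm, hp1⟩
    rw [List.mem_cons]
    rintro (h | h)
    · exact d.symm_ne h.symm
    · exact hd h
  have hq2 : ∀ e ∈ q.darts, e.symm ∈ q.darts := by
    intro e he
    rw [hperm.mem_iff] at he ⊢
    rw [List.mem_cons, List.mem_cons] at he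
    rcases he with rfl | rfl | he
    · simp
    · simp
    · exact List.mem_cons_of_mem _ (List.mem_cons_of_mem _ (hp2 e he))
  have := hmax q hq1 hq2
  have hlen : q.length = p.length + 2 := by
    rw [← Walk.length_darts, hperm.length_eq, ← Walk.length_darts]
    simp
  omega

omit [Fintype V] in
/-- Sum along a walk. -/
theorem sum_getVert {G : SimpleGraph V} {u v : V} (p : G.Walk u v) (φ : V → V → ℝ) :
    ∑ i ∈ range p.length, φ (p.getVert i) (p.getVert (i + 1))
      = (p.darts.map fun d => φ d.fst d.snd).sum := by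
  induction p with
  | nil => simp
  | cons h p ih =>
    rw [Walk.length_cons, sum_range_succ', Walk.darts_cons, List.map_cons, List.sum_cons, ← ih]
    simp only [Walk.getVert_cons_succ, Walk.getVert_zero]
    rw [add_comm]

/-- A cyclic sequence visiting each dart exactly once. -/
theorem exists_cyclic (G : SimpleGraph V) (hG : G.Connected) (m : ℕ) (hm : 1 ≤ m)
    (hcard : Nat.card G.edgeSet = m) :
    ∃ x : ZMod (2 * m) → V, ∀ φ : V → V → ℝ,
      ∑ j ∈ range (2 * m), φ (x (j : ZMod (2 * m))) (x ((j : ZMod (2 * m)) + 1)) =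
        ∑ᶠ d : G.Dart, φ d.fst d.snd := by
  classical
  obtain ⟨r, p, hp1, hp2⟩ := exists_double_tour G hG
  have hlen : p.length = 2 * m := by
    have h1 : p.darts.toFinset = univ := by
      ext d; simp [hp2 d]
    have h2 : p.darts.length = Fintype.card G.Dart := by
      rw [← List.toFinset_card_of_nodup hp1, h1, card_univ]
    rw [Walk.length_darts, dart_card_eq_twice_card_edges] at h2
    rw [h2, ← hcard, Nat.card_eq_fintype_card, ← Set.toFinset_card]
    congr 1
  have hNZ : NeZero (2 * m) := ⟨by omega⟩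
  refine ⟨fun j => p.getVert j.val, fun φ => ?_⟩
  have h1 : ∑ᶠ d : G.Dart, φ d.fst d.snd = (p.darts.map fun d => φ d.fst d.snd).sum := by
    rw [finsum_eq_sum_of_fintype]
    have h1 : (univ : Finset G.Dart) = p.darts.toFinset := by
      ext d; simp [hp2 d]
    rw [h1, List.sum_toFinset _ hp1]
  rw [h1, ← sum_getVert, hlen]
  refine sum_congr rfl fun i hi => ?_
  rw [mem_range] at hi
  have e1 : ((i : ZMod (2 * m))).val = i := ZMod.val_cast_of_lt hi
  change φ (p.getVert (i : ZMod (2 * m)).val) (p.getVert ((i : ZMod (2 * m)) + 1).val) = _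
  rw [e1]
  congr 1
  by_cases h : i + 1 < 2 * m
  · have e2 : ((i : ZMod (2 * m)) + 1).val = i + 1 := by
      have : ((i : ZMod (2 * m)) + 1) = ((i + 1 : ℕ) : ZMod (2 * m)) := by push_cast; ring
      rw [this]
      exact ZMod.val_cast_of_lt h
    rw [e2]
  · have e0 : i + 1 = 2 * m := by omega
    have e2 : ((i : ZMod (2 * m)) + 1).val = 0 := by
      have : ((i : ZMod (2 * m)) + 1) = ((i + 1 : ℕ) : ZMod (2 * m)) := by push_cast; ring
      rw [this, e0]
      simp
    rw [e2, e0, ← hlen, Walk.getVert_length, Walk.getVert_zero]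

end Pool.Agent.Helper17.Relax
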