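import Mathlib

/-! Sign sums and a low-coherence system. -/

namespace Pool.Agent.Helper17.Rsvd

open Finset

def sg : Bool → ℝ
  | true => 1
  | false => -1

lemma sg_sq (b : Bool) : sg b * sg b = 1 := by cases b <;> norm_num [sg]
lemma sg_not (b : Bool) : sg (!b) = -sg b := by cases b <;> norm_num [sg]

variable {ι κ : Type} [Fintype ι] [DecidableEq ι] [Fintype κ]

lemma flip_zero (j : ι) (h : (ι → Bool) → ℝ)
    (hh : ∀ σ, h (Function.update σ j (!σ j)) = h σ) : ∑ σ : ι → Bool, sg (σ j) * h σ = 0 := by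
  have hinv : Function.Involutive (fun σ : ι → Bool => Function.update σ j (!σ j)) := by
    intro σ
    funext i
    by_cases hi : i = j
    · subst hi; simp
    · simp [hi]
  have h1 := Equiv.sum_comp (Function.Involutive.toPerm _ hinv) (fun σ => sg (σ j) * h σ)
  have h2 : ∀ σ, sg ((Function.Involutive.toPerm _ hinv) σ j) *
      h ((Function.Involutive.toPerm _ hinv) σ) = -(sg (σ j) * h σ) := by
    intro σ
    change sg (Function.update σ j (!σ j) j) * h (Function.update σ j (!σ j)) = _
    rw [hh, Function.update_self, sg_not]; ring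
  rw [Finset.sum_congr rfl (fun σ _ => h2 σ), Finset.sum_neg_distrib] at h1
  linarith

def lin (s : Finset ι) (g : ι → ℝ) (σ : ι → Bool) : ℝ := ∑ j ∈ s, sg (σ j) * g j

lemma lin_flip {s : Finset ι} {j : ι} (hj : j ∉ s) (g : ι → ℝ) (σ : ι → Bool) :
    lin s g (Function.update σ j (!σ j)) = lin s g σ := by
  unfold lin
  apply Finset.sum_congr rfl
  intro i hi
  have hij : i ≠ j := by
    rintro rfl
    exact hj hi
  rw [Function.update_of_ne hij]

lemma lin_insert {s : Finset ι} {j : ι} (hj : j ∉ s) (g : ι → ℝ) (σ : ι → Bool) :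
    lin (insert j s) g σ = sg (σ j) * g j + lin s g σ := by
  unfold lin; rw [Finset.sum_insert hj]

lemma second (s : Finset ι) (g : ι → ℝ) :
    ∑ σ : ι → Bool, lin s g σ ^ 2 = Fintype.card (ι → Bool) * ∑ j ∈ s, g j ^ 2 := by
  induction s using Finset.induction_on with
  | empty => simp [lin]
  | insert j s hj ih =>
    have e : ∀ σ, lin (insert j s) g σ ^ 2 =
        g j ^ 2 + sg (σ j) * (2 * g j * lin s g σ) + lin s g σ ^ 2 := by
      intro σ
      rw [lin_insert hj]
      linear_combination (g j ^ 2) * sg_sq (σ j)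
    rw [Finset.sum_congr rfl (fun σ _ => e σ), Finset.sum_add_distrib, Finset.sum_add_distrib, ih,
      flip_zero j (fun σ => 2 * g j * lin s g σ) (fun σ => by rw [lin_flip hj]),
      Finset.sum_insert hj, Finset.sum_const, Finset.card_univ, nsmul_eq_mul]
    ring

/-- squared length of the signed sum -/
def len (s : Finset ι) (v : ι → κ → ℝ) (σ : ι → Bool) : ℝ := ∑ c, lin s (fun j => v j c) σ ^ 2

lemma len_flip {s : Finset ι} {j : ι} (hj : j ∉ s) (v : ι → κ → ℝ) (σ : ι → Bool) :
    len s v (Function.update σ j (!σ j)) = len s v σ := by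
  unfold len
  apply Finset.sum_congr rfl
  intro c _
  rw [lin_flip hj]

lemma len_mean (s : Finset ι) (v : ι → κ → ℝ) :
    ∑ σ : ι → Bool, len s v σ = Fintype.card (ι → Bool) * ∑ j ∈ s, ∑ c, v j c ^ 2 := by
  unfold len
  rw [Finset.sum_comm, Finset.sum_congr rfl (fun c _ => second s (fun j => v j c)),
    ← Finset.mul_sum, Finset.sum_comm]

lemma len_insert {s : Finset ι} {j : ι} (hj : j ∉ s) (v : ι → κ → ℝ) (σ : ι → Bool) :
    len (insert j s) v σ = len s v σ + 2 * sg (σ j) * lin s (fun i => ∑ c, v i c * v j c) σ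
      + ∑ c, v j c ^ 2 := by
  have h1 : lin s (fun i => ∑ c, v i c * v j c) σ = ∑ c, lin s (fun i => v i c) σ * v j c := by
    unfold lin
    simp_rw [Finset.sum_mul, Finset.mul_sum]
    rw [Finset.sum_comm]
    apply Finset.sum_congr rfl; intro c _
    apply Finset.sum_congr rfl; intro i _
    ring
  rw [h1]
  unfold len
  rw [Finset.mul_sum, ← Finset.sum_add_distrib, ← Finset.sum_add_distrib]
  apply Finset.sum_congr rfl
  intro c _
  rw [lin_insert hj]
  linear_combination (v j c ^ 2) * sg_sq (σ j)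

lemma fourth (s : Finset ι) (v : ι → κ → ℝ) (x : ι → ℝ) {M : ℝ}
    (hM : ∀ i j, i ≠ j → (∑ c, v i c * v j c) ^ 2 ≤ M * x i ^ 2 * x j ^ 2) (hM0 : 0 ≤ M) :
    ∑ σ : ι → Bool, (len s v σ - ∑ j ∈ s, ∑ c, v j c ^ 2) ^ 2 ≤
      Fintype.card (ι → Bool) * (2 * M * (∑ j ∈ s, x j ^ 2) ^ 2) := by
  induction s using Finset.induction_on with
  | empty => simp [len, lin]
  | insert j s hj ih =>
    set q : (ι → Bool) → ℝ := fun σ => len s v σ - ∑ j ∈ s, ∑ c, v j c ^ 2 with hq
    set L : (ι → Bool) → ℝ := fun σ => lin s (fun i => ∑ c, v i c * v j c) σ with hL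
    have e : ∀ σ, (len (insert j s) v σ - ∑ j ∈ insert j s, ∑ c, v j c ^ 2) ^ 2 =
        q σ ^ 2 + sg (σ j) * (4 * q σ * L σ) + 4 * L σ ^ 2 := by
      intro σ
      rw [len_insert hj, Finset.sum_insert hj]
      simp only [hq, hL]
      linear_combination (4 * lin s (fun i => ∑ c, v i c * v j c) σ ^ 2) * sg_sq (σ j)
    rw [Finset.sum_congr rfl (fun σ _ => e σ), Finset.sum_add_distrib, Finset.sum_add_distrib,
      flip_zero j (fun σ => 4 * q σ * L σ) (fun σ => by
        simp only [hq, hL]; rw [len_flip hj, lin_flip hj]), ← Finset.mul_sum]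
    have h2 : ∑ σ : ι → Bool, L σ ^ 2 ≤ Fintype.card (ι → Bool) * (M * (∑ i ∈ s, x i ^ 2) * x j ^ 2) := by
      simp only [hL]
      rw [second]
      apply mul_le_mul_of_nonneg_left _ (Nat.cast_nonneg _)
      rw [Finset.mul_sum, Finset.sum_mul]
      apply Finset.sum_le_sum
      intro i hi
      exact hM i j (fun h => hj (h ▸ hi))
    rw [Finset.sum_insert hj]
    have hX : 0 ≤ ∑ i ∈ s, x i ^ 2 := Finset.sum_nonneg fun _ _ => sq_nonneg _
    have hN : (0 : ℝ) ≤ Fintype.card (ι → Bool) := Nat.cast_nonneg _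
    have h3 : 0 ≤ (Fintype.card (ι → Bool) : ℝ) * (2 * M * (x j ^ 2) ^ 2) := by positivity
    generalize (∑ i ∈ s, x i ^ 2) = X at *
    generalize (Fintype.card (ι → Bool) : ℝ) = N at *
    nlinarith

/-! ### the vectors -/

variable (p : ℕ) [Fact p.Prime]

def ev (a : Fin 4 → ZMod p) (x : ZMod p) : ZMod p := ∑ i, a i * x ^ (i : ℕ)

noncomputable def tau : Option (Fin 4 → ZMod p) → ZMod p × ZMod p → ℝ
  | none, _ => 1 / p
  | some a, c => if ev p a c.1 = c.2 then 1 / √p else 0

lemma card_agree {a b : Fin 4 → ZMod p} (hab : a ≠ b) :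
    (univ.filter fun x : ZMod p => ev p a x = ev p b x).card ≤ 3 := by
  classical
  set P : Polynomial (ZMod p) := ∑ i : Fin 4, Polynomial.C (a i - b i) * Polynomial.X ^ (i : ℕ) with hP
  have hcoeff : ∀ i : Fin 4, P.coeff i = a i - b i := by
    intro i
    rw [hP, Polynomial.finset_sum_coeff]
    simp only [Polynomial.coeff_C_mul, Polynomial.coeff_X_pow]
    rw [Finset.sum_eq_single i]
    · simp
    · intro j _ hji
      have : (i : ℕ) ≠ j := fun h => hji (Fin.ext h.symm)
      simp [this]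
    · simp
  have hP0 : P ≠ 0 := by
    intro h0
    apply hab
    funext i
    have := hcoeff i
    rw [h0, Polynomial.coeff_zero] at this
    exact (sub_eq_zero.mp this.symm)
  have hdeg : P.natDegree ≤ 3 := by
    rw [hP]
    apply Polynomial.natDegree_sum_le_of_forall_le
    intro i _
    refine (Polynomial.natDegree_C_mul_X_pow_le _ _).trans ?_
    omega
  calc (univ.filter fun x : ZMod p => ev p a x = ev p b x).card
      ≤ P.roots.toFinset.card := by
        apply Finset.card_le_card
        intro x hx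
        rw [Finset.mem_filter] at hx
        rw [Multiset.mem_toFinset, Polynomial.mem_roots hP0, Polynomial.IsRoot.def, hP,
          Polynomial.eval_finset_sum]
        simp only [Polynomial.eval_mul, Polynomial.eval_C, Polynomial.eval_pow, Polynomial.eval_X,
          sub_mul, Finset.sum_sub_distrib]
        exact sub_eq_zero.mpr hx.2
    _ ≤ Multiset.card P.roots := Multiset.toFinset_card_le _
    _ ≤ P.natDegree := P.card_roots'
    _ ≤ 3 := hdeg

lemma sum_tau_some (a : Fin 4 → ZMod p) (y : ZMod p × ZMod p → ℝ) :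
    ∑ c, tau p (some a) c * y c = 1 / √p * ∑ x, y (x, ev p a x) := by
  rw [Fintype.sum_prod_type, Finset.mul_sum]
  apply Finset.sum_congr rfl
  intro x _
  simp only [tau, ite_mul, zero_mul, Finset.sum_ite_eq, Finset.mem_univ, if_true]

lemma pp : (0 : ℝ) < p := by exact_mod_cast (Fact.out : p.Prime).pos

lemma tau_norm (j : Option (Fin 4 → ZMod p)) : ∑ c, tau p j c ^ 2 = 1 := by
  have hp := pp p
  cases j with
  | none =>
    simp only [tau, Finset.sum_const, Finset.card_univ, Fintype.card_prod, ZMod.card, nsmul_eq_mul]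
    push_cast; field_simp
  | some a =>
    have h := sum_tau_some p a (tau p (some a))
    simp only [pow_two]
    rw [h]
    simp only [tau, if_true, Finset.sum_const, Finset.card_univ, ZMod.card, nsmul_eq_mul]
    have : √(p : ℝ) * √p = p := Real.mul_self_sqrt hp.le
    have h0 : √(p : ℝ) ≠ 0 := by positivity
    field_simp
    linarith

lemma tau_coh (hp9 : 9 ≤ p) {i j : Option (Fin 4 → ZMod p)} (hij : i ≠ j) :
    (∑ c, tau p i c * tau p j c) ^ 2 ≤ 1 / p := by
  have hp := pp p
  have hs : √(p : ℝ) * √p = p := Real.mul_self_sqrt hp.le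
  have h0 : 0 < √(p : ℝ) := Real.sqrt_pos.mpr hp
  have hns : ∀ b, (∑ c, tau p (some b) c * tau p none c) ^ 2 ≤ 1 / p := by
    intro b
    rw [sum_tau_some]
    simp only [tau, Finset.sum_const, Finset.card_univ, ZMod.card, nsmul_eq_mul]
    apply le_of_eq
    have : (1 / √(p : ℝ) * (p * (1 / p))) = 1 / √p := by field_simp
    rw [this, div_pow, one_pow, Real.sq_sqrt hp.le]
  cases i with
  | none =>
    cases j with
    | none => exact absurd rfl hij
    | some b =>
      simp_rw [mul_comm (tau p none _)]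
      exact hns b
  | some a =>
    cases j with
    | none => exact hns a
    | some b =>
      rw [sum_tau_some]
      have hab : a ≠ b := fun h => hij (by rw [h])
      have e : ∑ x, tau p (some b) (x, ev p a x) =
          1 / √p * ((univ.filter fun x : ZMod p => ev p b x = ev p a x).card : ℝ) := by
        simp only [tau]
        rw [← Finset.sum_filter, Finset.sum_const, nsmul_eq_mul]; ring
      rw [e]
      have hc : ((univ.filter fun x : ZMod p => ev p b x = ev p a x).card : ℝ) ≤ 3 := by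
        exact_mod_cast card_agree p hab.symm
      have hc0 : (0 : ℝ) ≤ ((univ.filter fun x : ZMod p => ev p b x = ev p a x).card : ℝ) :=
        Nat.cast_nonneg _
      generalize ((univ.filter fun x : ZMod p => ev p b x = ev p a x).card : ℝ) = n at *
      have e2 : (1 / √(p : ℝ) * (1 / √p * n)) = n / p := by
        have e3 : (1 / √(p : ℝ) * (1 / √p * n)) = n / (√p * √p) := by field_simp
        rw [e3, hs]
      rw [e2, div_pow, div_le_div_iff₀ (by positivity) hp]
      have h9 : (9 : ℝ) ≤ p := by exact_mod_cast hp9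
      nlinarith [mul_nonneg hp.le hc0]

lemma sum_ev (g : ZMod p → ℝ) (x : ZMod p) :
    ∑ a : Fin 4 → ZMod p, g (ev p a x) = (p : ℝ) ^ 3 * ∑ v, g v := by
  rw [← Equiv.sum_comp (Fin.consEquiv (fun _ : Fin 4 => ZMod p)) (fun a => g (ev p a x)),
    Fintype.sum_prod_type, Finset.sum_comm]
  have : ∀ r : Fin 3 → ZMod p, ∑ v : ZMod p,
      g (ev p ((Fin.consEquiv (fun _ : Fin 4 => ZMod p)) (v, r)) x) = ∑ v, g v := by
    intro r
    have e : ∀ v : ZMod p, ev p ((Fin.consEquiv (fun _ : Fin 4 => ZMod p)) (v, r)) x =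
        v + ∑ i : Fin 3, r i * x ^ ((i : ℕ) + 1) := by
      intro v
      unfold ev
      rw [Fin.sum_univ_succ]
      simp [Fin.consEquiv]
    simp_rw [e]
    exact Equiv.sum_comp (Equiv.addRight (∑ i : Fin 3, r i * x ^ ((i : ℕ) + 1))) g
  rw [Finset.sum_congr rfl (fun r _ => this r), Finset.sum_const, Finset.card_univ]
  simp [ZMod.card]

lemma tau_low (y : ZMod p × ZMod p → ℝ) :
    (p : ℝ) ^ 3 * (∑ c, tau p none c * y c) ^ 2 ≤
      ∑ a : Fin 4 → ZMod p, (∑ c, tau p (some a) c * y c) ^ 2 := by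
  have hp := pp p
  have h1 : ∑ a : Fin 4 → ZMod p, ∑ c, tau p (some a) c * y c = 1 / √p * ((p : ℝ) ^ 3 * ∑ c, y c) := by
    simp_rw [sum_tau_some]
    rw [← Finset.mul_sum, Finset.sum_comm]
    congr 1
    rw [Fintype.sum_prod_type, Finset.mul_sum]
    apply Finset.sum_congr rfl
    intro x _
    exact sum_ev p (fun v => y (x, v)) x
  have h2 := sq_sum_le_card_mul_sum_sq (s := (univ : Finset (Fin 4 → ZMod p)))
    (f := fun a => ∑ c, tau p (some a) c * y c)
  rw [h1, Finset.card_univ] at h2
  have hcard : (Fintype.card (Fin 4 → ZMod p) : ℝ) = (p : ℝ) ^ 4 := by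
    simp [ZMod.card]
  rw [hcard, mul_pow, div_pow, one_pow, Real.sq_sqrt hp.le] at h2
  have h3 : ∑ c, tau p none c * y c = 1 / p * ∑ c, y c := by
    simp only [tau]; rw [Finset.mul_sum]
  rw [h3]
  generalize ∑ c, y c = Y at *
  generalize ∑ a : Fin 4 → ZMod p, (∑ c, tau p (some a) c * y c) ^ 2 = Z at *
  have h4 : (p : ℝ) ^ 4 * ((p : ℝ) ^ 3 * (1 / p * Y) ^ 2) ≤ (p : ℝ) ^ 4 * Z := by
    refine le_trans (le_of_eq ?_) h2
    field_simp
  exact le_of_mul_le_mul_left h4 (by positivity)

end Pool.Agent.Helper17.Rsvd
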