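import Mathlib

set_option autoImplicit false
open MeasureTheory Set Filter Topology
open scoped Interval

namespace Pool.Agent.Helper17.Volterra

variable {E : Type*} [NormedAddCommGroup E] [NormedSpace ℂ E] [CompleteSpace E]

/-- iterated integrals -/
noncomputable def P (A : ℝ → E →L[ℂ] E) (e : E) : ℕ → ℝ → E
  | 0, _ => e
  | n+1, x => ∫ t in (0:ℝ)..x, A t (P A e n t)

structure Good (A : ℝ → E →L[ℂ] E) (b : ℝ) : Prop where
  cont : Continuous (fun p : ℝ × E => A p.1 p.2)
  nonneg : 0 ≤ b
  bound : ∀ t e, ‖A t e‖ ≤ b * ‖e‖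

variable {A : ℝ → E →L[ℂ] E} {b : ℝ}

omit [CompleteSpace E] in
theorem P_cont (hA : Good A b) (e : E) (n : ℕ) : Continuous (P A e n) := by
  induction n with
  | zero => exact continuous_const
  | succ n ih =>
    have h : Continuous (fun t => A t (P A e n t)) := hA.cont.comp (continuous_id.prodMk ih)
    exact intervalIntegral.continuous_primitive (fun a b => h.intervalIntegrable a b) 0

omit [CompleteSpace E] in
theorem AP_cont (hA : Good A b) (e : E) (n : ℕ) : Continuous (fun t => A t (P A e n t)) :=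
  hA.cont.comp (continuous_id.prodMk (P_cont hA e n))

omit [CompleteSpace E] in
theorem P_bound (hA : Good A b) (e : E) (n : ℕ) (x : ℝ) :
    ‖P A e n x‖ ≤ ‖e‖ * ((b * |x|) ^ n / n.factorial) := by
  induction n generalizing x with
  | zero => simp [P]
  | succ n ih =>
    have h1 : ‖P A e (n+1) x‖ ≤ ∫ t in Ι (0:ℝ) x, ‖A t (P A e n t)‖ :=
      intervalIntegral.norm_integral_le_integral_norm_uIoc
    have h2 : ∫ t in Ι (0:ℝ) x, ‖A t (P A e n t)‖ ≤
        ∫ t in Ι (0:ℝ) x, (b * (‖e‖ * (b ^ n / n.factorial))) * |t - 0| ^ n := by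
      apply setIntegral_mono
      · exact (AP_cont hA e n).norm.integrableOn_uIoc
      · exact Continuous.integrableOn_uIoc (by fun_prop)
      · intro t
        refine (hA.bound t _).trans ?_
        have := ih t
        calc b * ‖P A e n t‖ ≤ b * (‖e‖ * ((b * |t|) ^ n / n.factorial)) :=
              mul_le_mul_of_nonneg_left this hA.nonneg
          _ = (fun x => b * (‖e‖ * (b ^ n / n.factorial)) * |x - 0| ^ n) t := by
              simp only [sub_zero]; rw [mul_pow]; ring
    rw [integral_const_mul, integral_pow_abs_sub_uIoc] at h2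
    refine (h1.trans h2).trans (le_of_eq ?_)
    rw [Nat.factorial_succ]
    push_cast
    have : (n.factorial : ℝ) ≠ 0 := by positivity
    have h3 : ((n:ℝ)+1) ≠ 0 := by positivity
    field_simp
    rw [mul_pow, sub_zero]
    ring

omit [CompleteSpace E] in
theorem term_bound (hA : Good A b) (e : E) (w : ℂ) (n : ℕ) (x R : ℝ) (hx : |x| ≤ R) :
    ‖w ^ n • P A e n x‖ ≤ ‖e‖ * ((‖w‖ * (b * R)) ^ n / n.factorial) := by
  rw [norm_smul, norm_pow]
  have h1 := P_bound hA e n x
  have h2 : (b * |x|) ^ n ≤ (b * R) ^ n := by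
    apply pow_le_pow_left₀ (mul_nonneg hA.nonneg (abs_nonneg x))
    exact mul_le_mul_of_nonneg_left hx hA.nonneg
  calc ‖w‖ ^ n * ‖P A e n x‖ ≤ ‖w‖ ^ n * (‖e‖ * ((b * |x|) ^ n / n.factorial)) :=
        mul_le_mul_of_nonneg_left h1 (by positivity)
    _ ≤ ‖w‖ ^ n * (‖e‖ * ((b * R) ^ n / n.factorial)) := by gcongr
    _ = _ := by rw [mul_pow]; ring

noncomputable def Phi (A : ℝ → E →L[ℂ] E) (e : E) (w : ℂ) (x : ℝ) : E := ∑' n, w ^ n • P A e n x

theorem summable_term (hA : Good A b) (e : E) (w : ℂ) (x : ℝ) :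
    Summable (fun n => w ^ n • P A e n x) :=
  Summable.of_norm_bounded ((Real.summable_pow_div_factorial (‖w‖ * (b * |x|))).mul_left ‖e‖)
    (fun n => term_bound hA e w n x |x| le_rfl)

theorem hasSum_Phi (hA : Good A b) (e : E) (w : ℂ) (x : ℝ) :
    HasSum (fun n => w ^ n • P A e n x) (Phi A e w x) := (summable_term hA e w x).hasSum

theorem Phi_cont (hA : Good A b) (e : E) (w : ℂ) : Continuous (Phi A e w) := by
  rw [continuous_iff_continuousAt]
  intro x
  have h : ContinuousOn (Phi A e w) (Metric.ball 0 (|x|+1)) := by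
    refine continuousOn_tsum (u := fun n => ‖e‖ * ((‖w‖ * (b * (|x|+1))) ^ n / n.factorial)) ?_ ?_ ?_
    · intro n
      exact ((P_cont hA e n).const_smul _).continuousOn
    · exact (Real.summable_pow_div_factorial _).mul_left _
    · intro n y hy
      apply term_bound hA
      rw [mem_ball_zero_iff, Real.norm_eq_abs] at hy
      exact hy.le
  apply h.continuousAt
  apply Metric.isOpen_ball.mem_nhds
  rw [mem_ball_zero_iff, Real.norm_eq_abs]
  linarith

theorem Phi_int (hA : Good A b) (e : E) (w : ℂ) (x : ℝ) :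
    Phi A e w x = e + ∫ t in (0:ℝ)..x, w • A t (Phi A e w t) := by
  have h1 : HasSum (fun n => ∫ t in (0:ℝ)..x, w ^ (n+1) • A t (P A e n t))
      (∫ t in (0:ℝ)..x, w • A t (Phi A e w t)) := by
    apply intervalIntegral.hasSum_integral_of_dominated_convergence
      (bound := fun n _ => (‖w‖ * b) * (‖e‖ * ((‖w‖ * (b * |x|)) ^ n / n.factorial)))
    · intro n
      exact ((AP_cont hA e n).const_smul _).aestronglyMeasurable
    · intro n
      refine Eventually.of_forall fun t ht => ?_
      have htx : |t| ≤ |x| := by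
        rw [mem_uIoc] at ht
        rcases ht with ⟨h1, h2⟩ | ⟨h1, h2⟩
        · rw [abs_of_pos h1, abs_of_pos (h1.trans_le h2)]; exact h2
        · rw [abs_of_nonpos h2, abs_of_neg (h1.trans_le h2)]; linarith
      have hb := term_bound hA e w n t |x| htx
      have : w ^ (n+1) • A t (P A e n t) = w • A t (w ^ n • P A e n t) := by
        rw [map_smul, smul_smul, pow_succ']
      rw [this, norm_smul]
      calc ‖w‖ * ‖A t (w ^ n • P A e n t)‖ ≤ ‖w‖ * (b * ‖w ^ n • P A e n t‖) := by
            gcongr; exact hA.bound _ _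
        _ ≤ ‖w‖ * (b * (‖e‖ * ((‖w‖ * (b * |x|)) ^ n / n.factorial))) := by
            have := hA.nonneg
            gcongr
        _ = _ := by ring
    · refine Eventually.of_forall fun t _ => ?_
      exact ((Real.summable_pow_div_factorial _).mul_left _).mul_left _
    · exact intervalIntegrable_const
    · refine Eventually.of_forall fun t _ => ?_
      have h := ((hasSum_Phi hA e w t).mapL (A t)).const_smul w
      convert h using 2 with n
      rw [map_smul, smul_smul, pow_succ']
  have h2 : HasSum (fun n => w ^ (n+1) • P A e (n+1) x) (∫ t in (0:ℝ)..x, w • A t (Phi A e w t)) := by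
    convert h1 using 2 with n
    rw [intervalIntegral.integral_smul]
    rfl
  have h3 := (hasSum_nat_add_iff' 1).mpr (hasSum_Phi hA e w x)
  have h4 := h3.unique h2
  simp only [Finset.range_one, Finset.sum_singleton, pow_zero, one_smul] at h4
  rw [← h4]
  simp [P]

theorem Phi_zero (A : ℝ → E →L[ℂ] E) (e : E) (w : ℂ) (hA : Good A b) : Phi A e w 0 = e := by
  rw [Phi_int hA]; simp

theorem Phi_w0 (A : ℝ → E →L[ℂ] E) (e : E) (x : ℝ) (hA : Good A b) : Phi A e 0 x = e := by
  rw [Phi_int hA]; simp

theorem Phi_deriv (hA : Good A b) (e : E) (w : ℂ) (x : ℝ) :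
    HasDerivAt (Phi A e w) (w • A x (Phi A e w x)) x := by
  have hc : Continuous (fun t => w • A t (Phi A e w t)) :=
    (hA.cont.comp (continuous_id.prodMk (Phi_cont hA e w))).const_smul w
  have h := (hc.integral_hasStrictDerivAt 0 x).hasDerivAt.const_add e
  refine h.congr_of_eventuallyEq ?_
  exact Eventually.of_forall fun y => Phi_int hA e w y

theorem Phi_hasFPS (hA : Good A b) (e : E) (x : ℝ) :
    HasFPowerSeriesAt (fun w => Phi A e w x)
      (fun n => ContinuousMultilinearMap.mkPiRing ℂ (Fin n) (P A e n x)) 0 := by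
  rw [hasFPowerSeriesAt_iff]
  refine Eventually.of_forall fun z => ?_
  rw [zero_add]
  have := hasSum_Phi hA e z x
  convert this using 2 with n
  simp [FormalMultilinearSeries.coeff]

theorem Phi_analytic (hA : Good A b) (e : E) (x : ℝ) : AnalyticAt ℂ (fun w => Phi A e w x) 0 :=
  (Phi_hasFPS hA e x).analyticAt

theorem Phi_wderiv (hA : Good A b) (e : E) (x : ℝ) :
    HasDerivAt (fun w => Phi A e w x) (∫ t in (0:ℝ)..x, A t e) 0 := by
  have := (Phi_hasFPS hA e x).hasDerivAt
  convert this using 1
  simp [P]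

end Pool.Agent.Helper17.Volterra
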